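import Pool.Agent.Lib.MP_2619d0_ag.W.Defs

/-!
Row W2: residue fields and transcendence degree.
-/

set_option autoImplicit false

namespace MP2619.W

universe u

open IntermediateField MP2619.R

variable {k M : Type u} [Field k] [Field M] [Algebra k M]

/-- The residues of the elements of `E ∩ O` form an intermediate field, so it suffices to lift the
generators (see `rat_res`, `R/C4.lean`). -/
theorem res_adjoin {O : ValuationSubring M} (h : Cst k O) (E : IntermediateField k M)
    (S : Set (IsLocalRing.ResidueField O))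
    (hS : ∀ z ∈ S, ∃ a : O, (a : M) ∈ E ∧ IsLocalRing.residue O a = z) :
    letI : Algebra k (IsLocalRing.ResidueField O) := (rc h).toAlgebra
    ∀ z ∈ adjoin k S, ∃ a : O, (a : M) ∈ E ∧ IsLocalRing.residue O a = z := by
  letI : Algebra k (IsLocalRing.ResidueField O) := (rc h).toAlgebra
  -- the subfield of residues
  let F : Subfield (IsLocalRing.ResidueField O) :=
    { carrier := {z | ∃ a : O, (a : M) ∈ E ∧ IsLocalRing.residue O a = z}
      mul_mem' := by
        rintro _ _ ⟨a, ha, rfl⟩ ⟨b, hb, rfl⟩
        exact ⟨a * b, by simpa using E.mul_mem ha hb, by rw [map_mul]⟩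
      one_mem' := ⟨1, by simp, by rw [map_one]⟩
      add_mem' := by
        rintro _ _ ⟨a, ha, rfl⟩ ⟨b, hb, rfl⟩
        exact ⟨a + b, by simpa using E.add_mem ha hb, by rw [map_add]⟩
      zero_mem' := ⟨0, by simp, by rw [map_zero]⟩
      neg_mem' := by
        rintro _ ⟨a, ha, rfl⟩
        exact ⟨-a, by simpa using E.neg_mem ha, by rw [map_neg]⟩
      inv_mem' := by
        rintro _ ⟨a, ha, rfl⟩
        by_cases h0 : IsLocalRing.residue O a = 0
        · exact ⟨0, by simp, by rw [h0]; simp⟩
        · have hu : IsUnit a := by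
            by_contra hu
            exact h0 ((IsLocalRing.residue_eq_zero_iff a).mpr ((IsLocalRing.mem_maximalIdeal a).mpr hu))
          obtain ⟨u, rfl⟩ := hu
          refine ⟨((u⁻¹ : Oˣ) : O), ?_, ?_⟩
          · have h9 : (((u⁻¹ : Oˣ) : O) : M) = ((u : O) : M)⁻¹ := by
              have h10 : (((u⁻¹ : Oˣ) : O) : M) * ((u : O) : M) = 1 :=
                congrArg (fun t : O => (t : M)) (u.inv_mul)
              have h11 : ((u : O) : M) ≠ 0 := right_ne_zero_of_mul_eq_one h10
              field_simp
              exact h10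
            rw [h9]
            exact E.inv_mem ha
          · have h12 : IsLocalRing.residue O ((u⁻¹ : Oˣ) : O) * IsLocalRing.residue O (u : O) = 1 := by
              rw [← map_mul, u.inv_mul, map_one]
            exact eq_inv_of_mul_eq_one_left h12 }
  let F' : IntermediateField k (IsLocalRing.ResidueField O) :=
    F.toIntermediateField (fun c => ⟨((algebraMap k M).codRestrict O h) c, E.algebraMap_mem c, rfl⟩)
  have H : adjoin k S ≤ F' := by
    rw [adjoin_le_iff]
    exact hS
  exact fun z hz => H hz

private theorem W2_card {R A : Type*} [Field R] [Field A] [Algebra R A] {e : ℕ}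
    (hD : (e : Cardinal) ≤ Algebra.trdeg R A) : ∃ b : Fin e → A, AlgebraicIndependent R b := by
  obtain ⟨ι, x, hx⟩ := exists_isTranscendenceBasis' R A
  have h1 := hx.cardinalMk_eq_trdeg
  have h2 : (e : Cardinal) ≤ Cardinal.mk ι := by
    rw [h1]
    exact hD
  have h3 : Cardinal.lift.{_, 0} (Cardinal.mk (Fin e)) ≤ Cardinal.lift.{0, _} (Cardinal.mk ι) := by
    simpa using h2
  rw [Cardinal.lift_mk_le'] at h3
  obtain ⟨f⟩ := h3
  exact ⟨x ∘ f, hx.1.comp f f.injective⟩

/-- `trdeg_res` (`R/C4.lean`) with strict inequality -/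
theorem trdeg_lt_res {O : ValuationSubring M} (h : Cst k O) (E : IntermediateField k M) (e : ℕ)
    (hE : Algebra.trdeg k E < e) :
    letI : Algebra k (IsLocalRing.ResidueField O) := (rc h).toAlgebra
    ∀ E' : IntermediateField k (IsLocalRing.ResidueField O),
      (∀ z ∈ E', ∃ a : O, (a : M) ∈ E ∧ IsLocalRing.residue O a = z) → Algebra.trdeg k E' < e := by
  letI : Algebra k (IsLocalRing.ResidueField O) := (rc h).toAlgebra
  intro E' hE'
  by_contra hD
  rw [not_lt] at hD
  obtain ⟨b, hb⟩ := W2_card hD
  choose a haE ha using fun i => hE' (b i) (b i).2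
  have hb' : AlgebraicIndependent k (fun i => IsLocalRing.residue O (a i)) := by
    have := hb.map' (f := E'.val) E'.val.injective
    convert this using 1
    funext i
    exact ha i
  have h1 := indep_lift h a hb'
  have h2 : AlgebraicIndependent k (fun i => (⟨(a i : M), haE i⟩ : E)) := by
    refine AlgebraicIndependent.of_comp E.val ?_
    exact h1
  have h3 := h2.lift_cardinalMk_le_trdeg
  have h4 : (e : Cardinal) ≤ Algebra.trdeg k E := by
    simpa using h3
  exact absurd hE (not_lt.mpr h4)

/-- `trdeg_res_lt` (`R/C4.lean`) with strict inequality -/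
theorem trdeg_lt_res_lt {O : ValuationSubring M} (h : Cst k O) (E : IntermediateField k M) (e : ℕ)
    (hE : Algebra.trdeg k E < (e + 1 : ℕ)) (p : M) (hp : p ∈ E) (hp0 : p ≠ 0)
    (hp1 : O.valuation p < 1) :
    letI : Algebra k (IsLocalRing.ResidueField O) := (rc h).toAlgebra
    ∀ E' : IntermediateField k (IsLocalRing.ResidueField O),
      (∀ z ∈ E', ∃ a : O, (a : M) ∈ E ∧ IsLocalRing.residue O a = z) → Algebra.trdeg k E' < e := by
  letI : Algebra k (IsLocalRing.ResidueField O) := (rc h).toAlgebra
  intro E' hE'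
  by_contra hD
  rw [not_lt] at hD
  obtain ⟨b, hb⟩ := W2_card hD
  choose a haE ha using fun i => hE' (b i) (b i).2
  have hb' : AlgebraicIndependent k (fun i => IsLocalRing.residue O (a i)) := by
    have := hb.map' (f := E'.val) E'.val.injective
    convert this using 1
    funext i
    exact ha i
  have h1 := indep_lift h a hb'
  have h7 : Transcendental (Algebra.adjoin k (Set.range (fun i => (a i : M)))) p :=
    transc_adj _ (adj_small h a hb') p hp0 hp1
  have h8 := (h1.option_iff_transcendental p).mpr h7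
  have h2 : AlgebraicIndependent k
      (fun o : Option (Fin e) => o.elim (⟨p, hp⟩ : E) (fun i => ⟨(a i : M), haE i⟩)) := by
    refine AlgebraicIndependent.of_comp E.val ?_
    convert h8 using 1
    funext o
    cases o <;> rfl
  have h3 := h2.lift_cardinalMk_le_trdeg
  have h4 : ((e + 1 : ℕ) : Cardinal) ≤ Algebra.trdeg k E := by
    have h9 : ((Fintype.card (Option (Fin e)) : ℕ) : Cardinal) ≤ Algebra.trdeg k E := by
      simpa using h3
    rw [Fintype.card_option, Fintype.card_fin] at h9
    exact h9
  exact absurd hE (not_lt.mpr h4)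

/-- quotients of residues: if `Y j` is a unit, `Ȳ i / Ȳ j` is the residue of `Y i / Y j ∈ O`; if `Ȳ j = 0`
it is `0`. -/
theorem ratq_res {O : ValuationSubring M} (h : Cst k O) {n : ℕ} (q : Fin n → ℕ) (Y : Fin n → O)
    (E : IntermediateField k M) (hE : ratq k q (fun i => (Y i : M)) ≤ E) :
    letI : Algebra k (IsLocalRing.ResidueField O) := (rc h).toAlgebra
    ∀ z ∈ ratq k q (fun i => IsLocalRing.residue O (Y i)),
      ∃ a : O, (a : M) ∈ E ∧ IsLocalRing.residue O a = z := by
  letI : Algebra k (IsLocalRing.ResidueField O) := (rc h).toAlgebra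
  refine res_adjoin h E _ ?_
  rintro _ ⟨i, j, hij, rfl⟩
  change ∃ a : O, (a : M) ∈ E ∧ IsLocalRing.residue O a =
    IsLocalRing.residue O (Y i) / IsLocalRing.residue O (Y j)
  by_cases h0 : IsLocalRing.residue O (Y j) = 0
  · exact ⟨0, by simp, by rw [h0]; simp⟩
  · have hu : IsUnit (Y j) := by
      by_contra hu
      exact h0 ((IsLocalRing.residue_eq_zero_iff _).mpr ((IsLocalRing.mem_maximalIdeal _).mpr hu))
    obtain ⟨u, hu'⟩ := hu
    have h10 : (((u⁻¹ : Oˣ) : O) : M) * (Y j : M) = 1 := by
      rw [← hu']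
      exact congrArg (fun t : O => (t : M)) (u.inv_mul)
    have h11 : (Y j : M) ≠ 0 := right_ne_zero_of_mul_eq_one h10
    refine ⟨Y i * ((u⁻¹ : Oˣ) : O), ?_, ?_⟩
    · have h9 : ((Y i * ((u⁻¹ : Oˣ) : O) : O) : M) = (Y i : M) / (Y j : M) := by
        rw [MulMemClass.coe_mul, eq_div_iff h11]
        linear_combination (Y i : M) * h10
      rw [h9]
      refine hE ?_
      exact subset_adjoin _ _ ⟨i, j, hij, rfl⟩
    · rw [map_mul, eq_div_iff h0]
      have h12 : IsLocalRing.residue O ((u⁻¹ : Oˣ) : O) * IsLocalRing.residue O (Y j) = 1 := by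
        rw [← map_mul, ← hu', u.inv_mul, map_one]
      linear_combination (IsLocalRing.residue O (Y i)) * h12

end MP2619.W
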