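import Mathlib

/-!
Row V13: from the Fermat cubic to the Weierstrass form; a flex not on a given line.
-/

set_option autoImplicit false

namespace MP2619.W

universe u

/-- the linear substitution with matrix `A` -/
def lin {k M : Type u} [Field k] [Field M] [Algebra k M] (A : Matrix (Fin 3) (Fin 3) k)
    (z : Fin 3 → M) : Fin 3 → M := fun i => ∑ j, algebraMap k M (A i j) * z j

private theorem V13_aux {k M : Type u} [Field k] [Field M] [Algebra k M] (h2 : (2 : k) = 0) (w : k)
    (hw : w ^ 2 + w + 1 = 0) (x y : Fin 3 → M) (r : k) (hr : r ^ 3 = 1)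
    (h : algebraMap k M r * (x 0 * y 2 - x 2 * y 0) + (x 1 * y 2 - x 2 * y 1) ≠ 0) :
    ∃ A : Matrix (Fin 3) (Fin 3) k, IsUnit A.det ∧
      (∀ z : Fin 3 → M, ∑ i, z i ^ 3 = 0 →
        lin A z 2 ^ 2 * lin A z 0 + lin A z 2 * lin A z 0 ^ 2 = lin A z 1 ^ 3) ∧
      lin A x 0 * lin A y 1 ≠ lin A x 1 * lin A y 0 := by
  have hwM : (algebraMap k M w) ^ 2 + algebraMap k M w + 1 = 0 := by
    have := congrArg (algebraMap k M) hw
    simpa using this
  have hrM : (algebraMap k M r) ^ 3 = 1 := by
    have := congrArg (algebraMap k M) hr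
    simpa using this
  have hw1 : 1 - w ≠ 0 := by
    intro h1
    have h3 : w = 1 := (sub_eq_zero.mp h1).symm
    rw [h3] at hw
    have : (1 : k) = 0 := by linear_combination hw - h2
    exact one_ne_zero this
  have hw0 : w ≠ 0 := by
    intro h0
    rw [h0] at hw
    simp at hw
  have hr0 : r ≠ 0 := by
    intro h0
    rw [h0] at hr
    simp at hr
  refine ⟨!![r, 1, 0; 0, 0, 1; w * r, w ^ 2, 0], ?_, ?_, ?_⟩
  · rw [isUnit_iff_ne_zero, Matrix.det_fin_three]
    simp only [Matrix.of_apply, Matrix.cons_val', Matrix.cons_val_zero, Matrix.cons_val_one,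
      Matrix.cons_val, Matrix.cons_val_fin_one]
    have e1 : r * 0 * 0 - r * 1 * w ^ 2 - 1 * 0 * 0 + 1 * 1 * (w * r) + 0 * 0 * w ^ 2
        - 0 * 0 * (w * r) = r * w * (1 - w) := by ring
    rw [e1]
    exact mul_ne_zero (mul_ne_zero hr0 hw0) hw1
  · intro z hz
    rw [Fin.sum_univ_three] at hz
    simp only [lin, Fin.sum_univ_three, Matrix.of_apply, Matrix.cons_val', Matrix.cons_val_zero,
      Matrix.cons_val_one, Matrix.cons_val, Matrix.cons_val_fin_one, map_mul, map_pow, map_one,
      map_zero]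
    generalize algebraMap k M w = W at *
    generalize algebraMap k M r = R at *
    linear_combination ((W * R * z 0 + W ^ 2 * z 1) * (R * z 0 + z 1) * (R * z 0 + z 1)
      - (R * z 0 + z 1) * ((W - 1) * (R ^ 2 * z 0 ^ 2 + z 1 ^ 2)
        + (W ^ 2 - W + 1) * (R * z 0 * z 1))) * hwM - z 0 ^ 3 * hrM - hz
  · simp only [lin, Fin.sum_univ_three, Matrix.of_apply, Matrix.cons_val', Matrix.cons_val_zero,
      Matrix.cons_val_one, Matrix.cons_val, Matrix.cons_val_fin_one, map_one, map_zero]
    intro hh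
    apply h
    linear_combination hh

/-- `X³ + Y³ = q p (p + q)`, `q = X + Y`, `p = w X + w² Y` (characteristic two). The coordinates are
`(q, Z, p)`. The minor of `x`, `y` in `q`, `Z` is `m_XZ + m_YZ`; with `X` or `Y` multiplied by powers of `w`:
`m_XZ + w^j m_YZ` up to a factor; these are not all zero unless `m_XZ = m_YZ = 0`; then, as `x_Z` or `y_Z` is
not zero, `x` and `y` are proportional. -/
theorem flex {k M : Type u} [Field k] [Field M] [Algebra k M] (h2 : (2 : k) = 0) (w : k)
    (hw : w ^ 2 + w + 1 = 0) (x y : Fin 3 → M) (hz : x 2 + y 2 ≠ 0)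
    (hxy : ∃ i j, x i * y j ≠ x j * y i) :
    ∃ A : Matrix (Fin 3) (Fin 3) k, IsUnit A.det ∧
      (∀ z : Fin 3 → M, ∑ i, z i ^ 3 = 0 →
        lin A z 2 ^ 2 * lin A z 0 + lin A z 2 * lin A z 0 ^ 2 = lin A z 1 ^ 3) ∧
      lin A x 0 * lin A y 1 ≠ lin A x 1 * lin A y 0 := by
  have hwM : (algebraMap k M w) ^ 2 + algebraMap k M w + 1 = 0 := by
    have := congrArg (algebraMap k M) hw
    simpa using this
  have hw1 : 1 - w ≠ 0 := by
    intro h1
    have h3 : w = 1 := (sub_eq_zero.mp h1).symm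
    rw [h3] at hw
    have : (1 : k) = 0 := by linear_combination hw - h2
    exact one_ne_zero this
  have hw3 : w ^ 3 = 1 := by linear_combination (w - 1) * hw
  by_cases c1 : algebraMap k M 1 * (x 0 * y 2 - x 2 * y 0) + (x 1 * y 2 - x 2 * y 1) ≠ 0
  · exact V13_aux h2 w hw x y 1 (by simp) c1
  by_cases c2 : algebraMap k M w * (x 0 * y 2 - x 2 * y 0) + (x 1 * y 2 - x 2 * y 1) ≠ 0
  · exact V13_aux h2 w hw x y w hw3 c2
  exfalso
  rw [not_not] at c1 c2
  rw [map_one] at c1
  have hW : (1 : M) - algebraMap k M w ≠ 0 := by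
    have h := (map_ne_zero (algebraMap k M)).mpr hw1
    simpa using h
  have m0 : x 0 * y 2 - x 2 * y 0 = 0 := by
    have : (1 - algebraMap k M w) * (x 0 * y 2 - x 2 * y 0) = 0 := by
      linear_combination c1 - c2
    exact (mul_eq_zero.mp this).resolve_left hW
  have m1 : x 1 * y 2 - x 2 * y 1 = 0 := by linear_combination c1 - m0
  have m01 : x 0 * y 1 = x 1 * y 0 := by
    by_cases hx2 : x 2 = 0
    · have hy2 : y 2 ≠ 0 := by
        intro h
        apply hz
        rw [hx2, h, add_zero]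
      have a0 : x 0 = 0 := by
        rw [hx2] at m0
        have : x 0 * y 2 = 0 := by linear_combination m0
        exact (mul_eq_zero.mp this).resolve_right hy2
      have a1 : x 1 = 0 := by
        rw [hx2] at m1
        have : x 1 * y 2 = 0 := by linear_combination m1
        exact (mul_eq_zero.mp this).resolve_right hy2
      rw [a0, a1]; simp
    · apply mul_left_cancel₀ hx2
      linear_combination x 1 * m0 - x 0 * m1
  obtain ⟨i, j, hij⟩ := hxy
  apply hij
  have e02 : x 0 * y 2 = x 2 * y 0 := sub_eq_zero.mp m0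
  have e12 : x 1 * y 2 = x 2 * y 1 := sub_eq_zero.mp m1
  fin_cases i <;> fin_cases j <;> simp_all

end MP2619.W
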