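import Pool.Agent.Lib.MP_2619d0_ag.W.Defs

/-!
Row W4: scaling, general form.
-/

set_option autoImplicit false

namespace MP2619.W

universe v u

open IntermediateField MP2619.R

variable {k : Type v} {M : Type u} {k' : Type v} {M' : Type u} [Field k] [Field M] [Field k']
  [Field M'] [Algebra k M] [Algebra k k'] [Algebra k M'] [Algebra M M'] [Algebra k' M']
  [IsScalarTower k M M'] [IsScalarTower k k' M'] {t : k'}

/-- a unit valuation from the residue -/
private theorem W4_mem_inv {M : Type*} [Field M] (O : ValuationSubring M) {a : M} (ha : a ∈ O)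
    (hr : IsLocalRing.residue O ⟨a, ha⟩ ≠ 0) : a⁻¹ ∈ O := by
  by_contra hcon
  apply hr
  rw [IsLocalRing.residue_eq_zero_iff]
  have h1 : O.valuation a < 1 := by
    rcases lt_or_ge (O.valuation a) 1 with h | h
    · exact h
    · exfalso
      apply hcon
      rw [← O.valuation_le_one_iff, map_inv₀]
      exact inv_le_one_of_one_le₀ h
  exact (ValuationSubring.valuation_lt_one_iff O ⟨a, ha⟩).mpr h1

/-- The second half of the proof of `sc_place` (`R/D4.lean`): `x`, `y` integral at `O`, then the residues of
`x + y` and `t x + y` agree, so `k(x+y) ⊂ O` and `M ⊂ O`. -/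
theorem cst_of_int (h : RF k M k' M' t) {n : ℕ} (x y : Fin n → M)
    (hP : Pr k (fun i => x i + y i)) (O : ValuationSubring M')
    (hO : OP (adjoin k (Set.range fun i => algebraMap k' M' t *
      algebraMap M M' (x i) + algebraMap M M' (y i))) O)
    (ht : O.valuation (algebraMap k' M' t - 1) < 1) (hx : ∀ i, algebraMap M M' (x i) ∈ O)
    (hy : ∀ i, algebraMap M M' (y i) ∈ O) : Cst M O := by
  classical
  set v : Fin n → M' := fun i => algebraMap k' M' t * algebraMap M M' (x i) +
    algebraMap M M' (y i) with hv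
  have hvind : AlgebraicIndependent k v := ((ind_cons _ _).mp (sc_ind h x y hP.1)).1
  let w : Fin n → adjoin k (Set.range v) := fun i => ⟨v i, subset_adjoin k _ ⟨i, rfl⟩⟩
  -- `t` is a unit of `O`
  have ht1 : algebraMap k' M' t - 1 ∈ O := by
    rw [← O.valuation_le_one_iff]
    exact ht.le
  have htO : algebraMap k' M' t ∈ O := by
    have := O.add_mem _ _ ht1 O.one_mem
    rwa [sub_add_cancel] at this
  have htr : IsLocalRing.residue O ⟨algebraMap k' M' t, htO⟩ = 1 := by
    rw [← sub_eq_zero, ← map_one (IsLocalRing.residue O), ← map_sub,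
      IsLocalRing.residue_eq_zero_iff]
    exact (ValuationSubring.valuation_lt_one_iff O _).mpr ht
  have hvO : ∀ i, v i ∈ O := fun i => hO.cst (w i)
  have huO : ∀ i, algebraMap M M' (x i + y i) ∈ O := by
    intro i
    rw [map_add]
    exact O.add_mem _ _ (hx i) (hy i)
  have hures : ∀ i, IsLocalRing.residue O ⟨algebraMap M M' (x i + y i), huO i⟩ =
      IsLocalRing.residue O ⟨v i, hvO i⟩ := by
    intro i
    rw [← sub_eq_zero, ← map_sub, IsLocalRing.residue_eq_zero_iff]
    refine (ValuationSubring.valuation_lt_one_iff O _).mpr ?_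
    have h7 : ((⟨algebraMap M M' (x i + y i), huO i⟩ - ⟨v i, hvO i⟩ : O) : M') =
        -((algebraMap k' M' t - 1) * algebraMap M M' (x i)) := by
      change algebraMap M M' (x i + y i) - v i = _
      rw [hv, map_add]
      dsimp only
      ring
    rw [h7, Valuation.map_neg, map_mul]
    exact mul_lt_one_of_lt_of_le ht ((O.valuation_le_one_iff _).mpr (hx i))
  -- the residues of the `v i` are algebraically independent
  have hpass := pass v hvind O hO (fun i => ⟨v i, hvO i⟩) (fun i => rfl)
  have hkO : Cst k O := cst_of_tower hO.cst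
  let _ : Algebra k (IsLocalRing.ResidueField O) := (rc hkO).toAlgebra
  have hind : AlgebraicIndependent k (fun i => IsLocalRing.residue O ⟨v i, hvO i⟩) := hpass.1
  let φ : k →+* O := (algebraMap k M').codRestrict O hkO
  -- values of polynomials
  have hev : ∀ P : MvPolynomial (Fin n) k, ∃ hm : algebraMap M M'
      (MvPolynomial.aeval (fun i => x i + y i) P) ∈ O,
      IsLocalRing.residue O ⟨_, hm⟩ =
        MvPolynomial.aeval (fun i => IsLocalRing.residue O ⟨v i, hvO i⟩) P := by
    intro P
    have e1 : algebraMap M M' (MvPolynomial.aeval (fun i => x i + y i) P) =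
        ((MvPolynomial.eval₂Hom φ (fun i => (⟨algebraMap M M' (x i + y i), huO i⟩ : O)) P : O) :
          M') := by
      have e2 : (algebraMap M M').comp ((MvPolynomial.aeval (fun i => x i + y i) :
          MvPolynomial (Fin n) k →ₐ[k] M) : MvPolynomial (Fin n) k →+* M) =
          (algebraMap O M').comp (MvPolynomial.eval₂Hom φ
            (fun i => (⟨algebraMap M M' (x i + y i), huO i⟩ : O))) := by
        apply MvPolynomial.ringHom_ext
        · intro r
          simp only [RingHom.comp_apply, MvPolynomial.coe_eval₂Hom, MvPolynomial.eval₂_C,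
            RingHom.coe_coe, MvPolynomial.aeval_C]
          rw [← IsScalarTower.algebraMap_apply k M M']
          rfl
        · intro i
          simp only [RingHom.comp_apply, MvPolynomial.coe_eval₂Hom, MvPolynomial.eval₂_X,
            RingHom.coe_coe, MvPolynomial.aeval_X]
          rfl
      exact RingHom.congr_fun e2 P
    have hm : algebraMap M M' (MvPolynomial.aeval (fun i => x i + y i) P) ∈ O := by
      rw [e1]
      exact SetLike.coe_mem _
    refine ⟨hm, ?_⟩
    have e3 : (⟨_, hm⟩ : O) = MvPolynomial.eval₂Hom φ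
        (fun i => (⟨algebraMap M M' (x i + y i), huO i⟩ : O)) P := Subtype.ext e1
    rw [e3]
    have e4 : (IsLocalRing.residue O).comp (MvPolynomial.eval₂Hom φ
        (fun i => (⟨algebraMap M M' (x i + y i), huO i⟩ : O))) =
        ((MvPolynomial.aeval (fun i => IsLocalRing.residue O ⟨v i, hvO i⟩) :
          MvPolynomial (Fin n) k →ₐ[k] IsLocalRing.ResidueField O) :
          MvPolynomial (Fin n) k →+* IsLocalRing.ResidueField O) := by
      apply MvPolynomial.ringHom_ext
      · intro r
        simp only [RingHom.comp_apply, MvPolynomial.coe_eval₂Hom, MvPolynomial.eval₂_C,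
            RingHom.coe_coe, MvPolynomial.aeval_C]
        rfl
      · intro i
        simp only [RingHom.comp_apply, MvPolynomial.coe_eval₂Hom, MvPolynomial.eval₂_X,
            RingHom.coe_coe, MvPolynomial.aeval_X]
        exact hures i
    exact RingHom.congr_fun e4 P
  have hku : ∀ a : adjoin k (Set.range fun i => x i + y i), algebraMap M M' (a : M) ∈ O := by
    rintro ⟨a, ha⟩
    rw [mem_adjoin_range_iff] at ha
    obtain ⟨r, s, rfl⟩ := ha
    change algebraMap M M' (_ / _) ∈ O
    rw [map_div₀, div_eq_mul_inv]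
    obtain ⟨hm, -⟩ := hev r
    obtain ⟨hm', hm''⟩ := hev s
    refine O.mul_mem _ _ hm ?_
    by_cases hs : s = 0
    · rw [hs, map_zero, map_zero, inv_zero]
      exact O.zero_mem
    · refine W4_mem_inv O hm' ?_
      rw [hm'']
      intro h0
      exact hs (hind.eq_zero_of_aeval_eq_zero s h0)
  -- `M` is integral over `k(u)`
  have hfin : FiniteDimensional (adjoin k (Set.range fun i => x i + y i)) M :=
    Module.finite_of_finrank_pos hP.2.pos
  intro m
  refine Pool.Agent.Lib.MP_2619d0_ag.T.LT2_integral
    (A := adjoin k (Set.range fun i => x i + y i)) O (fun a => ?_) _ ?_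
  · exact hku a
  · exact (Algebra.IsIntegral.isIntegral (R := adjoin k (Set.range fun i => x i + y i)) m).algebraMap

/-- `sc_pr` (`R/D4.lean`) with the integrality as a hypothesis. -/
theorem sc_gen (h : RF k M k' M' t) (h2 : (2 : k) = 0) {n : ℕ} (x y : Fin n → M)
    (hP : Pr k (fun i => x i + y i))
    (hint : ∀ O : ValuationSubring M', OP (adjoin k (Set.range fun i => algebraMap k' M' t *
      algebraMap M M' (x i) + algebraMap M M' (y i))) O →
      O.valuation (algebraMap k' M' t - 1) < 1 →
      (∀ i, algebraMap M M' (x i) ∈ O) ∧ ∀ i, algebraMap M M' (y i) ∈ O) :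
    Pr k' (fun i => algebraMap k' M' t * algebraMap M M' (x i) + algebraMap M M' (y i)) := by
  classical
  set τ : M' := algebraMap k' M' t with hτ
  set v : Fin n → M' := fun i => τ * algebraMap M M' (x i) + algebraMap M M' (y i) with hv
  have hind : AlgebraicIndependent k (Fin.cons τ v : Fin (n + 1) → M') := sc_ind h x y hP.1
  have hI := (ind_cons τ v).mp hind
  have hPu : Pr k' (fun i => algebraMap M M' (x i + y i)) := h.pr _ hP
  have hPu2 := (h.pr_iff _).mp hPu
  have hfin0 := (fin_iff_ind _ _ hPu2.1 hPu2.2.pos.ne').mp hind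
  have hfin : Module.finrank (adjoin (adjoin k (Set.range v)) ({τ} : Set M')) M' ≠ 0 := by
    rwa [finrank_cons] at hfin0
  have hsep : Algebra.IsSeparable (adjoin (adjoin k (Set.range v)) ({τ} : Set M')) M' :=
    sc_sep h h2 x y hP hfin
  rw [h.pr_iff, pr_cons]
  refine ⟨hI.1, hI.2, ?_⟩
  have hadj : adjoin (adjoin k (Set.range v)) ({τ} : Set M')
      = adjoin (adjoin k (Set.range v)) ({τ - 1} : Set M') := by
    apply le_antisymm
    · rw [adjoin_simple_le_iff]
      have h3 : τ - 1 ∈ adjoin (adjoin k (Set.range v)) ({τ - 1} : Set M') :=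
        mem_adjoin_simple_self _ _
      have h4 := add_mem h3 (one_mem (adjoin (adjoin k (Set.range v)) ({τ - 1} : Set M')))
      rwa [sub_add_cancel] at h4
    · rw [adjoin_simple_le_iff]
      exact sub_mem (mem_adjoin_simple_self _ _) (one_mem _)
  have htr : Transcendental (adjoin k (Set.range v)) (τ - 1) := by
    intro hal
    apply hI.2
    have h4 := hal.add (isAlgebraic_one (R := adjoin k (Set.range v)) (A := M'))
    rwa [sub_add_cancel] at h4
  change Odd (Module.finrank (adjoin (adjoin k (Set.range v)) ({τ} : Set M')) M')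
  rw [hadj] at hfin hsep ⊢
  obtain ⟨s, hs1, hs2, hs3⟩ := fi_field (τ - 1) htr hfin hsep
  rw [← hs3]
  obtain ⟨O0, hO1, hO2, hO3, hO4, hO5, hO6⟩ := place_at (M := M) τ h.trans h.genM 1
  rw [map_one] at hO3 hO4 hO6
  obtain ⟨hc, hrd⟩ := sc_rdeg h x y hP.1 O0 hO1 hO3 hO5
  have hmem : O0 ∈ s := (hs1 O0).mpr ⟨hc, hO3⟩
  rw [← Finset.add_sum_erase s _ hmem]
  refine Odd.add_even ?_ ?_
  · rw [hO4]
    change Odd (1 * rdeg (adjoin k (Set.range v)) O0)
    rw [one_mul]
    rw [hrd]
    exact hP.2
  · refine Finset.even_sum _ (fun O hO => ?_)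
    rw [Finset.mem_erase] at hO
    apply Even.mul_left
    rw [← Nat.not_odd_iff_even]
    intro hodd
    have h5 := (hs1 O).mp hO.2
    have h6 := hint O ⟨h5.1, hs2 O hO.2, hodd⟩ h5.2
    exact hO.1 (hO6 O (cst_of_int h x y hP O ⟨h5.1, hs2 O hO.2, hodd⟩ h5.2 h6.1 h6.2) h5.2)

end MP2619.W
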