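import Pool.Agent.Lib.MP_2619d0_ag.W.W4

/-!
Row W6b: the places `t = c`.
-/

set_option autoImplicit false

namespace MP2619.W

universe v u

open IntermediateField MP2619.R

variable {k : Type v} {M : Type u} {k' : Type v} {M' : Type u} [Field k] [Field M] [Field k']
  [Field M'] [Algebra k M] [Algebra k k'] [Algebra k M'] [Algebra M M'] [Algebra k' M']
  [IsScalarTower k M M'] [IsScalarTower k k' M'] {t : k'}

/-- rational function fields with the generator scaled -/
private theorem W6b_rf (h : RF k M k' M' t) (c : k) (hc : c ≠ 0) :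
    RF k M k' M' (algebraMap k k' c⁻¹ * t) := by
  have e1 : algebraMap k' M' (algebraMap k k' c⁻¹ * t) =
      algebraMap M M' (algebraMap k M c⁻¹) * algebraMap k' M' t := by
    rw [map_mul, ← IsScalarTower.algebraMap_apply k k' M', IsScalarTower.algebraMap_apply k M M']
  have e2 : t = algebraMap k k' c * (algebraMap k k' c⁻¹ * t) := by
    rw [← mul_assoc, ← map_mul, mul_inv_cancel₀ hc, map_one, one_mul]
  have e3 : algebraMap k' M' t =
      algebraMap M M' (algebraMap k M c) * algebraMap k' M' (algebraMap k k' c⁻¹ * t) := by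
    rw [e1, ← mul_assoc, ← map_mul, ← map_mul, mul_inv_cancel₀ hc, map_one, map_one, one_mul]
  refine ⟨?_, ?_, ?_⟩
  · intro hal
    apply h.trans
    rw [e3]
    exact (isAlgebraic_algebraMap (algebraMap k M c)).mul hal
  · rw [eq_top_iff, ← h.genk, adjoin_simple_le_iff]
    have h3 : algebraMap k k' c * (algebraMap k k' c⁻¹ * t) ∈
        adjoin k ({algebraMap k k' c⁻¹ * t} : Set k') :=
      mul_mem (IntermediateField.algebraMap_mem _ _) (mem_adjoin_simple_self _ _)
    rwa [← e2] at h3
  · rw [eq_top_iff, ← h.genM, adjoin_simple_le_iff, e3]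
    exact mul_mem (IntermediateField.algebraMap_mem _ _) (mem_adjoin_simple_self _ _)

/-- the place `c⁻¹ t = 1` -/
private theorem W6b_val {O : ValuationSubring M'} (hk : Cst k O) (c : k) (hc : c ≠ 0)
    (ht : O.valuation (algebraMap k' M' t - algebraMap k M' c) < 1) :
    O.valuation (algebraMap k' M' (algebraMap k k' c⁻¹ * t) - 1) < 1 := by
  have e1 : algebraMap k' M' (algebraMap k k' c⁻¹ * t) - 1 =
      algebraMap k M' c⁻¹ * (algebraMap k' M' t - algebraMap k M' c) := by
    rw [map_mul, ← IsScalarTower.algebraMap_apply k k' M', mul_sub, ← map_mul,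
      inv_mul_cancel₀ hc, map_one]
  rw [e1, map_mul, mul_comm]
  exact mul_lt_one_of_lt_of_le ht ((O.valuation_le_one_iff _).mpr (hk c⁻¹))

/-- the functions agree -/
private theorem W6b_fun {n : ℕ} (x y : Fin n → M) (c : k) (hc : c ≠ 0) :
    (fun i => algebraMap k' M' (algebraMap k k' c⁻¹ * t) * algebraMap M M' (algebraMap k M c * x i) +
      algebraMap M M' (y i)) = fun i => algebraMap k' M' t *
      algebraMap M M' (x i) + algebraMap M M' (y i) := by
  funext i
  congr 1
  have hc' : algebraMap k M' c ≠ 0 := (map_ne_zero _).mpr hc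
  rw [map_mul, map_mul, ← IsScalarTower.algebraMap_apply k k' M',
    ← IsScalarTower.algebraMap_apply k M M', map_inv₀]
  field_simp

/-- The place `t = c`. `x`, `y` may be replaced by `c x`, `y` and `t` by `c⁻¹ t` (`RF` again). `place_at`
(`R/D3.lean`) gives `O`; `OP`: `sc_rdeg` (`R/D4.lean`) and `Pr k (c x + y)`; uniqueness: `cst_of_int` gives
`Cst M O'`, then the uniqueness in `place_at`. -/
theorem place_c (h : RF k M k' M' t) {n : ℕ} (x y : Fin n → M) (c : k) (hc : c ≠ 0)
    (hP : Pr k (fun i => algebraMap k M c * x i + y i)) :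
    ∃ O : ValuationSubring M', OP (adjoin k (Set.range fun i => algebraMap k' M' t *
      algebraMap M M' (x i) + algebraMap M M' (y i))) O ∧ Cst M O ∧
      O.valuation (algebraMap k' M' t - algebraMap k M' c) < 1 ∧
      ord O (algebraMap k' M' t - algebraMap k M' c) = 1 ∧
      ∀ O' : ValuationSubring M', OP (adjoin k (Set.range fun i => algebraMap k' M' t *
        algebraMap M M' (x i) + algebraMap M M' (y i))) O' →
        O'.valuation (algebraMap k' M' t - algebraMap k M' c) < 1 →
        (∀ i, algebraMap M M' (x i) ∈ O') → (∀ i, algebraMap M M' (y i) ∈ O') → O' = O := by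
  obtain ⟨O, h1, h2, h3, h4, h5, h6⟩ := place_at (M := M) (algebraMap k' M' t) h.trans h.genM
    (algebraMap k M c)
  rw [← IsScalarTower.algebraMap_apply k M M'] at h3 h4 h6
  have hf := W6b_fun (k := k) (M := M) (k' := k') (M' := M') (t := t) x y c hc
  have h' := W6b_rf h c hc
  have hk : Cst k O := fun a => by
    rw [IsScalarTower.algebraMap_apply k M M']
    exact h1 _
  obtain ⟨h7, h8⟩ := sc_rdeg h' (fun i => algebraMap k M c * x i) y hP.1 O h1
    (W6b_val hk c hc h3) h5
  rw [hf] at h7 h8
  refine ⟨O, ⟨h7, h2, ?_⟩, h1, h3, h4, ?_⟩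
  · rw [h8]
    exact hP.2
  · intro O' hO' ht' hx' hy'
    have hk' : Cst k O' := cst_of_tower hO'.cst
    refine h6 O' ?_ ht'
    refine cst_of_int h' (fun i => algebraMap k M c * x i) y hP O' ?_ (W6b_val hk' c hc ht') ?_ hy'
    · rw [hf]
      exact hO'
    · intro i
      rw [map_mul, ← IsScalarTower.algebraMap_apply k M M']
      exact O'.mul_mem _ _ (hk' c) (hx' i)

end MP2619.W
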