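import Pool.Agent.Lib.MP_2619d0_ag.W.Defs

/-!
Row W3: the sum of the orders at the odd places is even.
-/

set_option autoImplicit false

namespace MP2619.W

universe v u

open IntermediateField MP2619.R

variable {K : Type v} {M : Type u} [Field K] [Field M] [Algebra K M]

/-- `t` transcendental, `M/K(t)` finite separable: modulo two the number of zeros of `t` at the odd places
(with multiplicity) is `[M : K(t)]`. -/
private theorem W3_count (t : M) (ht : Transcendental K t)
    (hfin : Module.finrank (adjoin K ({t} : Set M)) M ≠ 0)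
    (hsep : Algebra.IsSeparable (adjoin K ({t} : Set M)) M) :
    ∃ s : Finset (ValuationSubring M), (∀ O ∈ s, OP K O) ∧
      ∀ s' : Finset (ValuationSubring M), s ⊆ s' → (∀ O ∈ s', OP K O) →
        ((∑ O ∈ s', (ord O t).toNat : ℕ) : ZMod 2) =
          ((Module.finrank (adjoin K ({t} : Set M)) M : ℕ) : ZMod 2) := by
  classical
  have ht0 : t ≠ 0 := by
    rintro rfl
    exact ht (isAlgebraic_zero)
  obtain ⟨s0, hs0, hdv, hsum⟩ := fi_field (K := K) t ht hfin hsep
  refine ⟨s0.filter fun O => OP K O, fun O hO => (Finset.mem_filter.1 hO).2, ?_⟩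
  intro s' hss' hs'
  have h1 : ∑ O ∈ s', (ord O t).toNat = ∑ O ∈ s0.filter (fun O => OP K O), (ord O t).toNat := by
    symm
    refine Finset.sum_subset hss' ?_
    intro O hO hO'
    have hop := hs' O hO
    have hnot : O ∉ s0 := fun h => hO' (Finset.mem_filter.2 ⟨h, hop⟩)
    have h2 : ¬ O.valuation t < 1 := fun h => hnot ((hs0 O).2 ⟨hop.cst, h⟩)
    rw [lt_iff hop.dv ht0] at h2
    omega
  rw [h1, ← hsum, Finset.sum_filter, Nat.cast_sum, Nat.cast_sum]
  refine Finset.sum_congr rfl ?_
  intro O hO
  rw [Nat.cast_mul]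
  by_cases hop : OP K O
  · rw [if_pos hop]
    have h4 : ((rdeg K O : ℕ) : ZMod 2) = 1 := ZMod.natCast_eq_one_iff_odd.2 hop.odd
    rw [h4, mul_one]
  · rw [if_neg hop]
    have h4 : Even (rdeg K O) := by
      rw [← Nat.not_odd_iff_even]
      intro h5
      exact hop ⟨((hs0 O).1 hO).1, hdv O hO, h5⟩
    rw [(ZMod.natCast_eq_zero_iff_even).2 h4, mul_zero, Nat.cast_zero]

/-- `K(T)/K` transcendental, `M/K(T)` finite separable. As `fi_odd` (`R/A7.lean`): there the
odd degree hypothesis is only used for finiteness and separability. `U` transcendental and `M/K(U)` separable: apply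
`fi_field` to `U` and to `U⁻¹` (`A7_adjoin_inv`): modulo two the number of zeros and the number of poles at
odd places are both `[M : K(U)]`; so `∑ ord O U = ∑ (ord O U).toNat - ∑ (ord O U⁻¹).toNat` is even.
`M/K(U)` not separable: `insep_sq`, `sq_even`. `U` algebraic: all orders are zero. -/
theorem ord_sum_even (h2 : (2 : K) = 0) (T : M) (hT : Transcendental K T)
    (hfin : Module.finrank (adjoin K ({T} : Set M)) M ≠ 0)
    (hsep : Algebra.IsSeparable (adjoin K ({T} : Set M)) M) (U : M) (hU : U ≠ 0) :
    ∃ s : Finset (ValuationSubring M), (∀ O ∈ s, OP K O) ∧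
      ∀ s' : Finset (ValuationSubring M), s ⊆ s' → (∀ O ∈ s', OP K O) →
        Even (∑ O ∈ s', ord O U) := by
  classical
  by_cases hUt : Transcendental K U
  · have hfinU : Module.finrank (adjoin K ({U} : Set M)) M ≠ 0 := (fin_of_trans T hfin hT U).1 hUt
    by_cases hsepU : Algebra.IsSeparable (adjoin K ({U} : Set M)) M
    · -- the separable case
      have hUi : Transcendental K U⁻¹ := fun h => hUt (by
        have := h.inv
        rwa [inv_inv] at this)
      have hfinsep : Module.finrank (adjoin K ({U⁻¹} : Set M)) M =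
          Module.finrank (adjoin K ({U} : Set M)) M ∧
          Algebra.IsSeparable (adjoin K ({U⁻¹} : Set M)) M := by
        rw [A7_adjoin_inv]
        exact ⟨rfl, hsepU⟩
      obtain ⟨s0, hs0, hc0⟩ := W3_count U hUt hfinU hsepU
      obtain ⟨s1, hs1, hc1⟩ := W3_count U⁻¹ hUi (by rw [hfinsep.1]; exact hfinU) hfinsep.2
      rw [hfinsep.1] at hc1
      refine ⟨s0 ∪ s1, fun O hO => ?_, ?_⟩
      · rcases Finset.mem_union.1 hO with h | h
        · exact hs0 O h
        · exact hs1 O h
      intro s' hss' hs'
      have e0 := hc0 s' (Finset.union_subset_left hss') hs'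
      have e1 := hc1 s' (Finset.union_subset_right hss') hs'
      have e2 : (∑ O ∈ s', ord O U) =
          ((∑ O ∈ s', (ord O U).toNat : ℕ) : ℤ) - ((∑ O ∈ s', (ord O U⁻¹).toNat : ℕ) : ℤ) := by
        rw [Nat.cast_sum, Nat.cast_sum, ← Finset.sum_sub_distrib]
        refine Finset.sum_congr rfl ?_
        intro O hO
        rw [ord_inv (hs' O hO).dv hU]
        omega
      rw [e2, ← ZMod.intCast_eq_zero_iff_even]
      push_cast
      push_cast at e0 e1
      rw [e0, e1, sub_self]
    · -- the inseparable case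
      refine ⟨∅, by simp, ?_⟩
      intro s' _ hs'
      have h3 := insep_sq h2 T hfin hsep U hfinU hsepU
      exact Finset.even_sum _ (fun O hO => sq_even h2 (hs' O hO) U h3)
  · -- the algebraic case
    refine ⟨∅, by simp, ?_⟩
    intro s' _ hs'
    have h5 : IsAlgebraic K U := by
      by_contra h6
      exact hUt h6
    have h3 : ∑ O ∈ s', ord O U = 0 := by
      refine Finset.sum_eq_zero ?_
      intro O hO
      have hop := hs' O hO
      have h4 : U ∈ O :=
        Pool.Agent.Lib.MP_2619d0_ag.T.LT2_integral O hop.cst U h5.isIntegral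
      have h6 : U⁻¹ ∈ O :=
        Pool.Agent.Lib.MP_2619d0_ag.T.LT2_integral O hop.cst U⁻¹ h5.inv.isIntegral
      rw [mem_iff hop.dv hU] at h4
      rw [mem_iff hop.dv (inv_ne_zero hU), ord_inv hop.dv hU] at h6
      omega
    rw [h3]
    exact Even.zero

end MP2619.W
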