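import Pool.Agent.Lib.MP_2619d0_ag.W.W4

/-!
Row W6a: the function field `M(t)` over `k(t x + y)`.
-/

set_option autoImplicit false

namespace MP2619.W

universe v u

open IntermediateField MP2619.R

variable {k : Type v} {M : Type u} {k' : Type v} {M' : Type u} [Field k] [Field M] [Field k']
  [Field M'] [Algebra k M] [Algebra k k'] [Algebra k M'] [Algebra M M'] [Algebra k' M']
  [IsScalarTower k M M'] [IsScalarTower k k' M'] {t : k'}

/-- the finiteness is part of the proof of `sc_pr` (`R/D4.lean`), the separability is `sc_sep`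
(`R/D2.lean`) -/
theorem rf_sep (h : RF k M k' M' t) (h2 : (2 : k) = 0) {n : ℕ} (x y : Fin n → M)
    (hP : Pr k (fun i => x i + y i)) :
    AlgebraicIndependent k (fun i => algebraMap k' M' t * algebraMap M M' (x i) +
      algebraMap M M' (y i)) ∧
    Transcendental (adjoin k (Set.range fun i => algebraMap k' M' t *
      algebraMap M M' (x i) + algebraMap M M' (y i))) (algebraMap k' M' t) ∧
    Module.finrank (adjoin (adjoin k (Set.range fun i => algebraMap k' M' t *
      algebraMap M M' (x i) + algebraMap M M' (y i))) ({algebraMap k' M' t} : Set M')) M' ≠ 0 ∧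
    Algebra.IsSeparable (adjoin (adjoin k (Set.range fun i => algebraMap k' M' t *
      algebraMap M M' (x i) + algebraMap M M' (y i))) ({algebraMap k' M' t} : Set M')) M' := by
  set τ : M' := algebraMap k' M' t with hτ
  set v : Fin n → M' := fun i => τ * algebraMap M M' (x i) + algebraMap M M' (y i) with hv
  have hind : AlgebraicIndependent k (Fin.cons τ v : Fin (n + 1) → M') := sc_ind h x y hP.1
  have hI := (ind_cons τ v).mp hind
  have hPu : Pr k' (fun i => algebraMap M M' (x i + y i)) := h.pr _ hP
  have hPu2 := (h.pr_iff _).mp hPu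
  have hfin0 := (fin_iff_ind _ _ hPu2.1 hPu2.2.pos.ne').mp hind
  have hfin : Module.finrank (adjoin (adjoin k (Set.range v)) ({τ} : Set M')) M' ≠ 0 := by
    rwa [finrank_cons] at hfin0
  exact ⟨hI.1, hI.2, hfin, sc_sep h h2 x y hP hfin⟩
end MP2619.W
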