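import Pool.Agent.Lib.MP_2619d0_ag.W.V1

/-!
Row V1b: base change.
-/

set_option autoImplicit false

namespace MP2619.W

universe v u

open IntermediateField MP2619.R

variable {K : Type v} {L : Type u} [Field K] [Field L] [Algebra K L]

/-- `L ⊆ L'` contains something transcendental over `L`, `E` has transcendence degree at most one
over `F` and `L'` is algebraic over `E`: then `L` is algebraic over `F`. -/
private theorem V1b_alg {F E : Type*} {L₁ L₁' : Type u} [Field F] [Field L₁] [Field E]
    [Field L₁'] [Algebra F L₁] [Algebra L₁ L₁'] [Algebra F L₁'] [Algebra F E] [Algebra E L₁']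
    [IsScalarTower F L₁ L₁'] [IsScalarTower F E L₁'] (T : E)
    (hT : Transcendental L₁ (algebraMap E L₁' T))
    (hE : Algebra.IsAlgebraic (Algebra.adjoin F ({T} : Set E)) E)
    (hA : Algebra.IsAlgebraic E L₁') : Algebra.IsAlgebraic F L₁ := by
  have h1 := lift_trdeg_add_eq F E L₁'
  have h2 : Algebra.trdeg E L₁' = 0 := trdeg_eq_zero_iff.2 hA
  have h3 : Algebra.trdeg F E ≤ 1 := by
    have := Algebra.IsAlgebraic.trdeg_le_cardinalMk F ({T} : Set E)
    simpa using this
  have h4 := trdeg_add_eq F L₁ (A := L₁')
  have h5 : 1 ≤ Algebra.trdeg L₁ L₁' := by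
    rw [Cardinal.one_le_iff_ne_zero, trdeg_ne_zero_iff]
    exact ⟨_, hT⟩
  have h6 : Algebra.trdeg F L₁' ≤ 1 := by
    rw [h2, Cardinal.lift_zero, add_zero] at h1
    rw [← Cardinal.lift_le_one_iff, ← h1, Cardinal.lift_le_one_iff]
    exact h3
  rw [← trdeg_eq_zero_iff]
  by_contra hne
  have h8 : 1 ≤ Algebra.trdeg F L₁ := Cardinal.one_le_iff_ne_zero.2 hne
  have h9 : (1 : Cardinal) + 1 ≤ 1 := (add_le_add h8 h5).trans (h4.le.trans h6)
  rw [one_add_one_eq_two] at h9
  have h10 : ((2 : ℕ) : Cardinal) ≤ ((1 : ℕ) : Cardinal) := by
    push_cast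
    exact h9
  rw [Nat.cast_le] at h10
  omega

/-- `D1c_finrank` (`R/D1.lean`) if `L/K(a)` is algebraic; otherwise both are zero. -/
theorem dg_base {K' : Type v} {L' : Type u} [Field K'] [Field L'] [Algebra K K'] [Algebra K L']
    [Algebra L L'] [Algebra K' L'] [IsScalarTower K L L'] [IsScalarTower K K' L'] {s : K'}
    (h : RF K L K' L' s) (a : L) : dg K' (algebraMap L L' a) = dg K a := by
  rw [dg, dg]
  set F := adjoin K ({a} : Set L) with hF
  set E := adjoin K' ({algebraMap L L' a} : Set L') with hE
  let T : E := ⟨algebraMap K' L' s, IntermediateField.algebraMap_mem _ _⟩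
  have hmem : ∀ x : F, (algebraMap L L').comp (algebraMap F L) x ∈ E := by
    rintro ⟨x, hx⟩
    change algebraMap L L' x ∈ E
    induction hx using IntermediateField.adjoin_induction with
    | mem u hu =>
      rw [Set.mem_singleton_iff] at hu
      subst hu
      exact mem_adjoin_simple_self _ _
    | algebraMap c =>
      rw [← IsScalarTower.algebraMap_apply K L L', IsScalarTower.algebraMap_apply K K' L']
      exact IntermediateField.algebraMap_mem _ _
    | add a b _ _ ha hb => rw [map_add]; exact add_mem ha hb
    | inv a _ ha => rw [map_inv₀]; exact inv_mem ha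
    | mul a b _ _ ha hb => rw [map_mul]; exact mul_mem ha hb
  let ι : F →+* E := RingHom.codRestrict ((algebraMap L L').comp (algebraMap F L)) E hmem
  have hFE : ∀ x : L', x ∈ E → x ∈ adjoin F ({algebraMap K' L' s} : Set L') := by
    intro x hx
    induction hx using IntermediateField.adjoin_induction with
    | mem u hu =>
      rw [Set.mem_singleton_iff] at hu
      subst hu
      exact IntermediateField.algebraMap_mem (adjoin F ({algebraMap K' L' s} : Set L'))
        (⟨a, mem_adjoin_simple_self _ _⟩ : F)
    | algebraMap c =>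
      have hc : c ∈ adjoin K ({s} : Set K') := by rw [h.genk]; trivial
      induction hc using IntermediateField.adjoin_induction with
      | mem u hu =>
        rw [Set.mem_singleton_iff] at hu
        subst hu
        exact mem_adjoin_simple_self _ _
      | algebraMap c =>
        rw [← IsScalarTower.algebraMap_apply K K' L', IsScalarTower.algebraMap_apply K L L']
        exact IntermediateField.algebraMap_mem (adjoin F ({algebraMap K' L' s} : Set L'))
          (algebraMap K F c)
      | add a b _ _ ha hb => rw [map_add]; exact add_mem ha hb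
      | inv a _ ha => rw [map_inv₀]; exact inv_mem ha
      | mul a b _ _ ha hb => rw [map_mul]; exact mul_mem ha hb
    | add a b _ _ ha hb => exact add_mem ha hb
    | inv a _ ha => exact inv_mem ha
    | mul a b _ _ ha hb => exact mul_mem ha hb
  have hgen : ∀ x : E, ∃ p q : Polynomial F, x = p.eval₂ ι T / q.eval₂ ι T := by
    intro x
    obtain ⟨p, q, hx⟩ := mem_adjoin_simple_iff _ _ |>.1 (hFE x.1 x.2)
    refine ⟨p, q, ?_⟩
    have key : ∀ p : Polynomial F, algebraMap E L' (p.eval₂ ι T) =
        Polynomial.aeval (algebraMap K' L' s) p := by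
      intro p
      rw [Polynomial.hom_eval₂, Polynomial.aeval_def]
      rfl
    apply (algebraMap E L').injective
    rw [map_div₀, key, key]
    exact hx
  by_cases hal : Algebra.IsAlgebraic F L
  · exact D1c_finrank (K := F) (M := L) (L := E) (M' := L') T ι (fun x => rfl) h.trans h.genM hgen
  · have h1 : Module.finrank F L = 0 := by
      apply Module.finrank_of_infinite_dimensional
      intro hfin
      exact hal (Algebra.IsAlgebraic.of_finite F L)
    have h2 : Module.finrank E L' = 0 := by
      by_contra hne
      have hfin : FiniteDimensional E L' :=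
        Module.finite_of_finrank_pos (Nat.pos_of_ne_zero hne)
      have hA : Algebra.IsAlgebraic E L' := Algebra.IsAlgebraic.of_finite E L'
      let _ : Algebra F E := ι.toAlgebra
      have t1 : IsScalarTower F E L' := IsScalarTower.of_algebraMap_eq fun x => rfl
      refine hal (V1b_alg (F := F) (E := E) T h.trans ⟨fun x => ?_⟩ hA)
      obtain ⟨p, q, hx⟩ := hgen x
      have key : ∀ p : Polynomial F, IsAlgebraic (Algebra.adjoin F ({T} : Set E))
          (p.eval₂ ι T) := by
        intro p
        have hp : Polynomial.aeval T p ∈ Algebra.adjoin F ({T} : Set E) :=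
          Polynomial.aeval_mem_adjoin_singleton F T
        exact isAlgebraic_algebraMap (A := E) (⟨_, hp⟩ : Algebra.adjoin F ({T} : Set E))
      rw [hx, div_eq_mul_inv]
      exact (key p).mul (key q).inv
    rw [h1, h2]

theorem not_alg_base {K' : Type v} {L' : Type u} [Field K'] [Field L'] [Algebra K K'] [Algebra K L']
    [Algebra L L'] [Algebra K' L'] [IsScalarTower K L L'] [IsScalarTower K K' L'] {s : K'}
    (h : RF K L K' L' s) (hL : ¬ Algebra.IsAlgebraic K L) : ¬ Algebra.IsAlgebraic K' L' := by
  intro hA
  have halg : Algebra.IsAlgebraic (Algebra.adjoin K ({s} : Set K')) K' := by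
    rw [← IntermediateField.isAlgebraic_adjoin_iff_top, h.genk]
    infer_instance
  exact hL (V1b_alg (F := K) (E := K') s h.trans halg hA)

end MP2619.W
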