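import Pool.Agent.Lib.MP_2619d0_ag.W.V1b

/-!
Row V2: lower bound for the degree of `∏ (s + a_i)`.
-/

set_option autoImplicit false

namespace MP2619.W

universe v u

open IntermediateField MP2619.R

variable {K : Type v} {L : Type u} [Field K] [Field L] [Algebra K L] {K' : Type v} {L' : Type u}
  [Field K'] [Field L'] [Algebra K K'] [Algebra K L'] [Algebra L L'] [Algebra K' L']
  [IsScalarTower K L L'] [IsScalarTower K K' L'] {s : K'}

section V2aux

open Polynomial

/-- evaluation of `P ∈ K[s][X]` at `X = F ∈ L[s]` -/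
private noncomputable def V2_Phi (K : Type v) {L : Type u} [Field K] [Field L] [Algebra K L] (F : L[X]) :
    K[X][X] →+* L[X] := eval₂RingHom (mapRingHom (algebraMap K L)) F

private theorem V2_Phi_coeff (F : L[X]) (P : K[X][X]) :
    V2_Phi K F P = V2_Phi K F (divX P) * F + (P.coeff 0).map (algebraMap K L) := by
  conv_lhs => rw [← divX_mul_X_add P]
  simp only [V2_Phi, map_add, map_mul, coe_eval₂RingHom, eval₂_X, eval₂_C, coe_mapRingHom]

private theorem V2_inj (hs : RF K L K' L' s) :
    Function.Injective (aeval (algebraMap K' L' s) : L[X] →ₐ[L] L') :=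
  transcendental_iff_injective.1 hs.trans

/-- `P(s, f)` in `L'` -/
private noncomputable def V2_psi (K : Type v) {L' : Type u} [Field K] [Field L'] [Algebra K L']
    (s' f : L') : K[X][X] →+* L' := eval₂RingHom ((aeval s' : K[X] →ₐ[K] L') : K[X] →+* L') f

private theorem V2_psi_eq (s' : L') (F : L[X]) (P : K[X][X]) :
    V2_psi K s' (aeval s' F) P = aeval s' (V2_Phi K F P) := by
  have : V2_psi K s' (aeval s' F) = ((aeval s' : L[X] →ₐ[L] L') : L[X] →+* L').comp (V2_Phi K F) := by
    apply Polynomial.ringHom_ext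
    · intro p
      simp only [V2_psi, V2_Phi, coe_eval₂RingHom, eval₂_C, RingHom.coe_comp, Function.comp_apply,
        coe_mapRingHom]
      simp [Polynomial.aeval_map_algebraMap]
    · simp [V2_psi, V2_Phi]
  rw [this]
  rfl

private theorem V2_root {m : ℕ} (a : Fin m → L) (i : Fin m) :
    (∏ i, (X + C (a i)) : L[X]).eval (- a i) = 0 := by
  rw [eval_prod]
  exact Finset.prod_eq_zero (Finset.mem_univ i) (by simp)

private theorem V2_aeval_prod (s' : L') {m : ℕ} (a : Fin m → L) :
    aeval s' (∏ i, (X + C (a i)) : L[X]) = ∏ i, (s' + algebraMap L L' (a i)) := by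
  rw [map_prod]
  simp

private theorem V2_algebraMap_aeval (d : K[X]) :
    algebraMap K' L' (aeval s d) = aeval (algebraMap K' L' s) d :=
  (aeval_algebraMap_apply L' s d).symm

private theorem V2_frac0 (h : RF K L K' L' s) (r : K'[X]) :
    ∃ (d : K[X]) (R : K[X][X]), aeval s d ≠ 0 ∧
      R.map ((aeval s : K[X] →ₐ[K] K') : K[X] →+* K') = C (aeval s d) * r := by
  induction r using Polynomial.induction_on' with
  | add p q hp hq =>
    obtain ⟨d1, R1, h1, e1⟩ := hp
    obtain ⟨d2, R2, h2, e2⟩ := hq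
    refine ⟨d1 * d2, C d2 * R1 + C d1 * R2, by rw [map_mul]; exact mul_ne_zero h1 h2, ?_⟩
    rw [Polynomial.map_add, Polynomial.map_mul, Polynomial.map_mul, e1, e2]
    simp only [map_C, map_mul, RingHom.coe_coe]
    ring
  | monomial n c =>
    have hc : c ∈ adjoin K ({s} : Set K') := h.genk ▸ mem_top
    obtain ⟨p, q, hpq⟩ := (mem_adjoin_simple_iff K _).1 hc
    by_cases hq : aeval s q = 0
    · refine ⟨1, 0, by simp, ?_⟩
      rw [hq, div_zero] at hpq
      simp [hpq]
    · refine ⟨q, C p * X ^ n, hq, ?_⟩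
      have h1 : aeval s q * c = aeval s p := by
        rw [hpq, mul_div_cancel₀ _ hq]
      rw [Polynomial.map_mul, map_C, Polynomial.map_pow, map_X, C_mul_monomial, h1,
        C_mul_X_pow_eq_monomial]
      rfl

private theorem V2_psi_map (f : L') (R : K[X][X]) :
    V2_psi K (algebraMap K' L' s) f R =
      aeval f (R.map ((aeval s : K[X] →ₐ[K] K') : K[X] →+* K')) := by
  rw [aeval_def, eval₂_map, V2_psi, coe_eval₂RingHom]
  congr 1
  ext d
  · simp [← IsScalarTower.algebraMap_apply]
  · simp

private theorem V2_psi_inj (h : RF K L K' L' s) (f : L') (hf : Transcendental K' f) :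
    Function.Injective (V2_psi K (algebraMap K' L' s) f) := by
  have h1 : Function.Injective ((aeval s : K[X] →ₐ[K] K') : K[X] →+* K') := by
    intro p q hpq
    apply Polynomial.map_injective (algebraMap K L) (algebraMap K L).injective
    apply V2_inj h
    rw [aeval_map_algebraMap, aeval_map_algebraMap, ← V2_algebraMap_aeval, ← V2_algebraMap_aeval]
    exact congrArg _ hpq
  intro P Q hPQ
  rw [V2_psi_map, V2_psi_map] at hPQ
  exact Polynomial.map_injective _ h1 (transcendental_iff_injective.1 hf hPQ)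

private theorem V2_frac (h : RF K L K' L' s) (f : L') (r : K'[X]) :
    ∃ (d : K[X]) (R : K[X][X]), aeval s d ≠ 0 ∧
      V2_psi K (algebraMap K' L' s) f R = aeval (algebraMap K' L' s) d * aeval f r := by
  obtain ⟨d, R, h1, h2⟩ := V2_frac0 h r
  refine ⟨d, R, h1, ?_⟩
  rw [V2_psi_map, h2, map_mul, aeval_C, V2_algebraMap_aeval]

private theorem V2_quot (h : RF K L K' L' s) (f : L') (x : L') (hx : x ∈ adjoin K' ({f} : Set L')) :
    ∃ P Q : K[X][X], x = V2_psi K (algebraMap K' L' s) f P / V2_psi K (algebraMap K' L' s) f Q := by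
  obtain ⟨r, t, hrt⟩ := (mem_adjoin_simple_iff K' _).1 hx
  obtain ⟨d1, R1, h1, e1⟩ := V2_frac h f r
  obtain ⟨d2, R2, h2, e2⟩ := V2_frac h f t
  have h1' : aeval (algebraMap K' L' s) d1 ≠ 0 := by
    rw [← V2_algebraMap_aeval]
    exact (_root_.map_ne_zero _).2 h1
  have h2' : aeval (algebraMap K' L' s) d2 ≠ 0 := by
    rw [← V2_algebraMap_aeval]
    exact (_root_.map_ne_zero _).2 h2
  refine ⟨C d2 * R1, C d1 * R2, ?_⟩
  rw [map_mul, map_mul, e1, e2, hrt]
  simp only [V2_psi, coe_eval₂RingHom, eval₂_C, RingHom.coe_coe]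
  by_cases ht : aeval f t = 0
  · simp [ht]
  · field_simp

private theorem V2_G_dvd {m : ℕ} (a : Fin m → L) {i j : Fin m} (hij : i < j) :
    (∏ l ∈ Finset.univ.filter (· < i), (X + C (a l)) : L[X]) * (X + C (a i)) ∣
      ∏ l ∈ Finset.univ.filter (· < j), (X + C (a l)) := by
  have h1 : (∏ l ∈ Finset.univ.filter (· < i), (X + C (a l)) : L[X]) * (X + C (a i)) =
      ∏ l ∈ insert i (Finset.univ.filter (· < i)), (X + C (a l)) := by
    rw [Finset.prod_insert (by simp), mul_comm]
  rw [h1]
  refine Finset.prod_dvd_prod_of_subset _ _ _ ?_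
  intro l hl
  simp only [Finset.mem_insert, Finset.mem_filter, Finset.mem_univ, true_and] at hl ⊢
  rcases hl with rfl | hl
  · exact hij
  · exact hl.trans hij

private theorem V2_F_dvd {m : ℕ} (a : Fin m → L) (i : Fin m) :
    (∏ l ∈ Finset.univ.filter (· < i), (X + C (a l)) : L[X]) * (X + C (a i)) ∣
      ∏ l, (X + C (a l)) := by
  have h1 : (∏ l ∈ Finset.univ.filter (· < i), (X + C (a l)) : L[X]) * (X + C (a i)) =
      ∏ l ∈ insert i (Finset.univ.filter (· < i)), (X + C (a l)) := by
    rw [Finset.prod_insert (by simp), mul_comm]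
  rw [h1]
  exact Finset.prod_dvd_prod_of_subset _ _ _ (Finset.subset_univ _)

/-- the constant coefficients vanish -/
private theorem V2_coeff {m : ℕ} (a : Fin m → L) (n : Fin m → ℕ)
    (ha : ∀ i, n i ≠ 0 → Transcendental K (a i)) (e : ∀ i, Fin (n i) → L)
    (he : ∀ i, LinearIndependent (adjoin K ({a i} : Set L)) (e i)) (P : ∀ i, Fin (n i) → K[X][X])
    (hP : ∑ i, (∑ k, V2_Phi K (∏ i, (X + C (a i))) (P i k) * C (e i k)) *
      (∏ l ∈ Finset.univ.filter (· < i), (X + C (a l)) : L[X]) = 0) (i : Fin m) :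
    ∀ k, (P i k).coeff 0 = 0 := by
  induction i using WellFoundedLT.induction with
  | ind i ih =>
    intro k
    set F : L[X] := ∏ i, (X + C (a i)) with hF
    set G : L[X] := ∏ l ∈ Finset.univ.filter (· < i), (X + C (a l)) with hG
    have hG0 : G ≠ 0 := Finset.prod_ne_zero_iff.2 fun l _ => X_add_C_ne_zero _
    have hFd : G * (X + C (a i)) ∣ F := V2_F_dvd a i
    -- the other terms are divisible
    have h1 : G * (X + C (a i)) ∣ (∑ k, V2_Phi K F (P i k) * C (e i k)) * G := by
      rw [← Finset.add_sum_erase _ _ (Finset.mem_univ i)] at hP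
      rw [eq_neg_of_add_eq_zero_left hP]
      refine (dvd_neg).2 (Finset.dvd_sum fun j hj => ?_)
      have hji : j ≠ i := (Finset.mem_erase.1 hj).1
      rcases lt_or_gt_of_ne hji with hlt | hgt
      · refine Dvd.dvd.mul_right (Finset.dvd_sum fun k _ => Dvd.dvd.mul_right ?_ _) _
        rw [V2_Phi_coeff, ih j hlt k, Polynomial.map_zero, add_zero]
        exact Dvd.dvd.mul_left hFd _
      · exact Dvd.dvd.mul_left (V2_G_dvd a hgt) _
    have h2 : (X + C (a i)) ∣ ∑ k, ((P i k).coeff 0).map (algebraMap K L) * C (e i k) := by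
      rw [mul_comm (∑ k, V2_Phi K F (P i k) * C (e i k)) G] at h1
      have h3 := (mul_dvd_mul_iff_left hG0).1 h1
      have h4 : (X + C (a i)) ∣ F := (Dvd.intro_left G rfl).trans hFd
      have h5 : ∑ k, V2_Phi K F (P i k) * C (e i k) =
          (∑ k, V2_Phi K F (divX (P i k)) * C (e i k)) * F +
            ∑ k, ((P i k).coeff 0).map (algebraMap K L) * C (e i k) := by
        rw [Finset.sum_mul, ← Finset.sum_add_distrib]
        refine Finset.sum_congr rfl fun k _ => ?_
        rw [V2_Phi_coeff]
        ring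
      rw [h5] at h3
      exact (dvd_add_right (Dvd.dvd.mul_left h4 _)).1 h3
    have h6 : ∑ k, aeval (- a i) ((P i k).coeff 0) * e i k = 0 := by
      obtain ⟨Q, hQ⟩ := h2
      have := congrArg (eval (- a i)) hQ
      rw [eval_finsetSum, eval_mul, eval_add, eval_X, eval_C, neg_add_cancel, zero_mul] at this
      rw [← this]
      refine Finset.sum_congr rfl fun k _ => ?_
      rw [eval_mul, eval_C, eval_map_algebraMap]
    have hmem : ∀ p : K[X], aeval (- a i) p ∈ adjoin K ({a i} : Set L) := by
      intro p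
      have h7 : -a i ∈ adjoin K ({a i} : Set L) := neg_mem (mem_adjoin_simple_self K _)
      have := (aeval (⟨-a i, h7⟩ : adjoin K ({a i} : Set L)) p).2
      rwa [← IntermediateField.algebraMap_apply, ← aeval_algebraMap_apply] at this
    have h8 := Fintype.linearIndependent_iff.1 (he i)
      (fun k => ⟨aeval (- a i) ((P i k).coeff 0), hmem _⟩) (by
        rw [← h6]
        refine Finset.sum_congr rfl fun k _ => ?_
        rfl) k
    have h9 : aeval (- a i) ((P i k).coeff 0) = 0 := congrArg Subtype.val h8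
    by_contra hne
    have hn : n i ≠ 0 := by
      intro h0
      exact absurd k.2 (by omega)
    refine ha i hn ?_
    have h10 : IsAlgebraic K (- a i) := ⟨_, hne, h9⟩
    simpa using h10.neg

private theorem V2_zero {m : ℕ} (a : Fin m → L) (n : Fin m → ℕ)
    (ha : ∀ i, n i ≠ 0 → Transcendental K (a i)) (e : ∀ i, Fin (n i) → L)
    (he : ∀ i, LinearIndependent (adjoin K ({a i} : Set L)) (e i)) (N : ℕ) :
    ∀ P : ∀ i, Fin (n i) → K[X][X], (∀ i k, (P i k).natDegree ≤ N) →
    ∑ i, (∑ k, V2_Phi K (∏ i, (X + C (a i))) (P i k) * C (e i k)) *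
      (∏ l ∈ Finset.univ.filter (· < i), (X + C (a l)) : L[X]) = 0 → ∀ i k, P i k = 0 := by
  induction N with
  | zero =>
    intro P hN hP i k
    have h1 := V2_coeff a n ha e he P hP i k
    rw [eq_C_of_natDegree_le_zero (hN i k), h1, C_0]
  | succ N ih =>
    intro P hN hP i k
    have h0 : (∏ i, (X + C (a i)) : L[X]) ≠ 0 :=
      Finset.prod_ne_zero_iff.2 fun l _ => X_add_C_ne_zero _
    have h1 := V2_coeff a n ha e he P hP
    have h2 := ih (fun i k => divX (P i k)) (fun i k => by
      have := hN i k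
      rw [natDegree_divX_eq_natDegree_tsub_one]
      omega) (by
      refine (mul_eq_zero.1 (?_ : (∑ i, (∑ k, V2_Phi K (∏ i, (X + C (a i))) (divX (P i k)) *
        C (e i k)) * (∏ l ∈ Finset.univ.filter (· < i), (X + C (a l)) : L[X])) *
          (∏ i, (X + C (a i)) : L[X]) = 0)).resolve_right h0
      rw [← hP, Finset.sum_mul]
      refine Finset.sum_congr rfl fun i _ => ?_
      rw [Finset.sum_mul, Finset.sum_mul, Finset.sum_mul]
      refine Finset.sum_congr rfl fun k _ => ?_
      rw [V2_Phi_coeff _ (P i k), h1 i k, Polynomial.map_zero, add_zero]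
      ring) i k
    have h3 := divX_mul_X_add (P i k)
    rw [← h3, h2, h1 i k]
    simp

end V2aux

/-- Evaluation at `s = a_i`: if `P ∈ K[s][X]`, `P(s, 0) ≠ 0` and `a i` is transcendental over `K`, then
`P(s, f) ≠ 0`, since `P(s, f)` is a polynomial in `s` over `L` with value `P(a_i, 0) ≠ 0` at `s = a_i`. -/
theorem prod_trans (h : RF K L K' L' s) {m : ℕ} (a : Fin m → L) (i : Fin m)
    (hi : Transcendental K (a i)) :
    Transcendental K' (∏ i, (algebraMap K' L' s + algebraMap L L' (a i))) := by
  classical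
  intro halg
  set s' : L' := algebraMap K' L' s with hs'
  rw [← V2_aeval_prod] at halg
  set F : Polynomial L := ∏ i, (Polynomial.X + Polynomial.C (a i)) with hF
  set f : L' := Polynomial.aeval s' F with hf
  have hF0 : F ≠ 0 := Finset.prod_ne_zero_iff.2 fun l _ => Polynomial.X_add_C_ne_zero _
  have hf0 : f ≠ 0 := by
    rw [hf, ← map_zero (Polynomial.aeval s' : Polynomial L →ₐ[L] L')]
    exact fun h1 => hF0 (V2_inj h h1)
  obtain ⟨q, hq0, hq⟩ := halg.exists_nonzero_coeff_and_aeval_eq_zero
    (mem_nonZeroDivisors_of_ne_zero hf0)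
  obtain ⟨d, R, h1, h2⟩ := V2_frac0 h q
  have h3 : V2_psi K s' f R = 0 := by
    rw [V2_psi_map, h2, map_mul, hq, mul_zero]
  rw [V2_psi_eq] at h3
  have h4 : V2_Phi K F R = 0 := V2_inj h (by rw [h3, map_zero])
  rw [V2_Phi_coeff] at h4
  have h5 := congrArg (Polynomial.eval (- a i)) h4
  rw [Polynomial.eval_add, Polynomial.eval_mul, V2_root, mul_zero, zero_add, Polynomial.eval_zero,
    Polynomial.eval_map_algebraMap] at h5
  have h6 : R.coeff 0 ≠ 0 := by
    intro h7
    have := congrArg (fun p => Polynomial.coeff p 0) h2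
    simp only [Polynomial.coeff_map, h7, map_zero, Polynomial.coeff_C_mul] at this
    exact mul_ne_zero h1 hq0 this.symm
  refine hi ?_
  have h10 : IsAlgebraic K (- a i) := ⟨_, h6, h5⟩
  simpa using h10.neg

/-- `f = ∏ (s + a_i)`, `f_i = ∏_{j < i} (s + a_j)`, `e_{i,k}` (`k < dg K (a i)`) a basis of `L` over
`K(a i)`. The `∑ dg K (a i)` elements `e_{i,k} f_i` of `L' = L(s)` are linearly independent over `K'(f)`:
clear denominators in a relation: `∑ c_{ik}(s, f) e_{ik} f_i = 0`, `c_{ik} ∈ K[s][X]`, not all divisible by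
`X`. Put `s = a_0`: `∑_k c_{0k}(a_0, 0) e_{0k} = 0`, so `c_{0k}(a_0, 0) = 0`, `c_{0k}(s, 0) = 0`, `X ∣ c_{0k}`
(nothing to prove if `dg K (a 0) = 0`). All terms are now divisible by `s + a_0` in `L[s]`; divide and put
`s = a_1`, etc. Finiteness: if all `dg K (a i) = 0` there is nothing to prove, otherwise `prod_trans` and
`fin_of_trans` (`R/A8.lean`). -/
theorem dg_prod_ge (h : RF K L K' L' s) (hL : ¬ Algebra.IsAlgebraic K L) {m : ℕ} (a : Fin m → L) :
    ∑ i, dg K (a i) ≤ dg K' (∏ i, (algebraMap K' L' s + algebraMap L L' (a i))) := by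
  classical
  by_cases hall : ∀ i, dg K (a i) = 0
  · simp [hall]
  push Not at hall
  obtain ⟨i0, hi0⟩ := hall
  have htr := prod_trans h a i0 (trans_of_dg hL hi0)
  have hfin : dg K' (∏ i, (algebraMap K' L' s + algebraMap L L' (a i))) ≠ 0 := by
    have h1 : dg K' (algebraMap L L' (a i0)) ≠ 0 := by
      rw [dg_base h]
      exact hi0
    exact (fin_of_trans (algebraMap L L' (a i0)) h1 (trans_of_dg (not_alg_base h hL) h1) _).1 htr
  set s' : L' := algebraMap K' L' s with hs'
  rw [← V2_aeval_prod] at hfin htr ⊢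
  set F : Polynomial L := ∏ i, (Polynomial.X + Polynomial.C (a i)) with hF
  set f : L' := Polynomial.aeval s' F with hf
  have hfd : FiniteDimensional (adjoin K' ({f} : Set L')) L' :=
    Module.finite_of_finrank_pos (Nat.pos_of_ne_zero hfin)
  have hex : ∀ i, ∃ e : Fin (dg K (a i)) → L, LinearIndependent (adjoin K ({a i} : Set L)) e :=
    fun i => exists_linearIndependent_of_le_finrank le_rfl
  choose e he using hex
  let v : (Σ i, Fin (dg K (a i))) → L' := fun q =>
    Polynomial.aeval s' (Polynomial.C (e q.1 q.2) *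
      ∏ l ∈ Finset.univ.filter (· < q.1), (Polynomial.X + Polynomial.C (a l)))
  have hv : LinearIndependent (adjoin K' ({f} : Set L')) v := by
    have hinj := V2_psi_inj h f htr
    let fE : adjoin K' ({f} : Set L') := ⟨f, mem_adjoin_simple_self K' f⟩
    let ψE : Polynomial (Polynomial K) →+* adjoin K' ({f} : Set L') :=
      Polynomial.eval₂RingHom ((algebraMap K' (adjoin K' ({f} : Set L'))).comp
        ((Polynomial.aeval s : Polynomial K →ₐ[K] K') : Polynomial K →+* K')) fE
    have hψE : ∀ P : Polynomial (Polynomial K),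
        algebraMap (adjoin K' ({f} : Set L')) L' (ψE P) = V2_psi K s' f P := by
      intro P
      rw [V2_psi_map, Polynomial.aeval_def, Polynomial.eval₂_map]
      simp only [ψE, Polynomial.coe_eval₂RingHom]
      rw [Polynomial.hom_eval₂]
      rfl
    let a1 : Algebra (Polynomial (Polynomial K)) (adjoin K' ({f} : Set L')) := ψE.toAlgebra
    let a2 : Algebra (Polynomial (Polynomial K)) L' :=
      ((algebraMap (adjoin K' ({f} : Set L')) L').comp ψE).toAlgebra
    have t1 : IsScalarTower (Polynomial (Polynomial K)) (adjoin K' ({f} : Set L')) L' :=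
      IsScalarTower.of_algebraMap_eq fun _ => rfl
    have hψinj : Function.Injective ψE := by
      intro P Q hPQ
      apply hinj
      rw [← hψE, ← hψE, hPQ]
    have f1 : FaithfulSMul (Polynomial (Polynomial K)) (adjoin K' ({f} : Set L')) :=
      (faithfulSMul_iff_algebraMap_injective _ _).2 hψinj
    have i1 : IsFractionRing (Polynomial (Polynomial K)) (adjoin K' ({f} : Set L')) :=
      IsFractionRing.of_field _ _ fun x => by
        obtain ⟨P, Q, hPQ⟩ := V2_quot h f x x.2
        refine ⟨P, Q, Subtype.ext ?_⟩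
        rw [hPQ, ← hψE, ← hψE]
        rfl
    rw [← LinearIndependent.iff_fractionRing (Polynomial (Polynomial K)), Fintype.linearIndependent_iff]
    intro g hg
    have hg2 : ∑ i, (∑ k, V2_Phi K F (g ⟨i, k⟩) * Polynomial.C (e i k)) *
        (∏ l ∈ Finset.univ.filter (· < i), (Polynomial.X + Polynomial.C (a l)) : Polynomial L) = 0 := by
      apply V2_inj h
      rw [map_zero, ← hg, Fintype.sum_sigma, map_sum]
      refine Finset.sum_congr rfl fun i _ => ?_
      rw [Finset.sum_mul, map_sum]
      refine Finset.sum_congr rfl fun k _ => ?_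
      rw [Algebra.smul_def]
      change _ = algebraMap (adjoin K' ({f} : Set L')) L' (ψE (g ⟨i, k⟩)) * _
      rw [hψE, V2_psi_eq, mul_assoc, map_mul]
    have hN := V2_zero a (fun i => dg K (a i)) (fun i hi => trans_of_dg hL hi) e he
      (∑ q, (g q).natDegree) (fun i k => g ⟨i, k⟩)
      (fun i k => Finset.single_le_sum (f := fun q => (g q).natDegree) (fun _ _ => Nat.zero_le _)
        (Finset.mem_univ (⟨i, k⟩ : Σ i, Fin (dg K (a i))))) hg2
    exact fun q => hN q.1 q.2
  have := hv.fintype_card_le_finrank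
  rw [Fintype.card_sigma] at this
  simp only [Fintype.card_fin] at this
  exact this

end MP2619.W
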