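import Pool.Agent.Lib.MP_2619d0_ag.W.V4a

/-!
Row V4: upper bound for the degree of a rational function of two functions.
-/

set_option autoImplicit false

namespace MP2619.W

universe v u

open IntermediateField MP2619.R

variable {K : Type v} {L : Type u} [Field K] [Field L] [Algebra K L]

/-- value of a polynomial of bidegree `≤ (e, e)` -/
noncomputable def bv (e : ℕ) (P : ℕ → ℕ → K) (a b : L) : L :=
  ∑ i ∈ Finset.range (e + 1), ∑ j ∈ Finset.range (e + 1), algebraMap K L (P i j) * a ^ i * b ^ j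

/-- span of the monomials of bidegree `≤ (m, m)` -/
private noncomputable def V4_PP (K : Type v) {L : Type u} [Field K] [Field L] [Algebra K L]
    (a b : L) (m : ℕ) : Submodule K L :=
  Submodule.span K {z : L | ∃ i ≤ m, ∃ j ≤ m, z = a ^ i * b ^ j}

private theorem V4_mul (a b : L) (m m' : ℕ) {x y : L} (hx : x ∈ V4_PP K a b m)
    (hy : y ∈ V4_PP K a b m') : x * y ∈ V4_PP K a b (m + m') := by
  have h := Submodule.mul_mem_mul hx hy
  rw [V4_PP, V4_PP, Submodule.span_mul_span] at h
  refine Submodule.span_mono ?_ h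
  rintro z ⟨x, ⟨i, hi, j, hj, rfl⟩, y, ⟨i', hi', j', hj', rfl⟩, rfl⟩
  exact ⟨i + i', by omega, j + j', by omega, by simp only; ring⟩

private theorem V4_one (a b : L) (m : ℕ) : (1 : L) ∈ V4_PP K a b m :=
  Submodule.subset_span ⟨0, Nat.zero_le _, 0, Nat.zero_le _, by simp⟩

private theorem V4_pow (a b : L) (e i : ℕ) {x : L} (hx : x ∈ V4_PP K a b e) :
    x ^ i ∈ V4_PP K a b (e * i) := by
  induction i with
  | zero => simpa using V4_one a b 0
  | succ i ih =>
    rw [pow_succ, Nat.mul_succ]
    exact V4_mul a b _ _ ih hx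

private theorem V4_bv (a b : L) (e : ℕ) (P : ℕ → ℕ → K) : bv e P a b ∈ V4_PP K a b e := by
  unfold bv
  refine Submodule.sum_mem _ fun i hi => Submodule.sum_mem _ fun j hj => ?_
  rw [mul_assoc, ← Algebra.smul_def]
  refine Submodule.smul_mem _ _ (Submodule.subset_span ⟨i, ?_, j, ?_, rfl⟩)
  · have := Finset.mem_range.1 hi; omega
  · have := Finset.mem_range.1 hj; omega

private noncomputable def V4_S (a b : L) (W : Submodule K L) (m : ℕ) : Submodule K L :=
  Submodule.span K {z : L | ∃ i ≤ m, ∃ j ≤ m, ∃ w ∈ W, z = a ^ i * b ^ j * w}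

private theorem V4_mem (a b : L) (W : Submodule K L) (m : ℕ) {x w : L} (hx : x ∈ V4_PP K a b m)
    (hw : w ∈ W) : x * w ∈ V4_S a b W m := by
  unfold V4_PP at hx
  induction hx using Submodule.span_induction with
  | mem x hx =>
    obtain ⟨i, hi, j, hj, rfl⟩ := hx
    exact Submodule.subset_span ⟨i, hi, j, hj, w, hw, rfl⟩
  | zero => rw [zero_mul]; exact Submodule.zero_mem _
  | add x y _ _ hx hy => rw [add_mul]; exact Submodule.add_mem _ hx hy
  | smul c x _ hx => rw [smul_mul_assoc]; exact Submodule.smul_mem _ _ hx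

private theorem V4_fin (a b : L) (W : Submodule K L) (hW : Module.Finite K W) (m : ℕ) :
    Module.Finite K (V4_S a b W m) := by
  classical
  have h1 : (V4_PP K a b m).FG := by
    refine ⟨((Finset.range (m + 1) ×ˢ Finset.range (m + 1)).image fun p : ℕ × ℕ => a ^ p.1 * b ^ p.2),
      ?_⟩
    unfold V4_PP
    congr 1
    ext z
    simp only [Finset.coe_image, Set.mem_image, Finset.mem_coe, Finset.mem_product,
      Finset.mem_range, Set.mem_ofPred_eq, Prod.exists]
    constructor
    · rintro ⟨i, j, ⟨hi, hj⟩, rfl⟩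
      exact ⟨i, by omega, j, by omega, rfl⟩
    · rintro ⟨i, hi, j, hj, rfl⟩
      exact ⟨i, j, ⟨by omega, by omega⟩, rfl⟩
  have h2 : W.FG := Module.Finite.iff_fg.1 hW
  have h3 : (V4_PP K a b m * W).FG := h1.mul h2
  have h4 : Module.Finite K ↥(V4_PP K a b m * W) := Module.Finite.iff_fg.2 h3
  have h5 : V4_S a b W m ≤ V4_PP K a b m * W := by
    unfold V4_S
    rw [Submodule.span_le]
    rintro z ⟨i, hi, j, hj, w, hw, rfl⟩
    exact Submodule.mul_mem_mul (Submodule.subset_span ⟨i, hi, j, hj, rfl⟩) hw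
  exact Submodule.finiteDimensional_of_le h5

private theorem V4_arith (n e D C : ℕ) (h : ∀ N : ℕ, n * (N + 1) ≤ (e * N + C) * D) : n ≤ e * D := by
  by_contra hn
  have hn' : e * D + 1 ≤ n := by omega
  have h1 := h (C * D)
  have h2 := Nat.mul_le_mul_right (C * D + 1) hn'
  nlinarith

private theorem V4_ind {h : L} (hh : Transcendental K h) (N : ℕ) :
    LinearIndependent K (fun i : Fin (N + 1) =>
      (⟨h, mem_adjoin_simple_self K h⟩ : adjoin K ({h} : Set L)) ^ (i : ℕ)) := by
  have h1 : Function.Injective (Polynomial.aeval (R := K)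
      (⟨h, mem_adjoin_simple_self K h⟩ : adjoin K ({h} : Set L))) := by
    have : Transcendental K (⟨h, mem_adjoin_simple_self K h⟩ : adjoin K ({h} : Set L)) := by
      intro hc
      apply hh
      exact hc.algebraMap (A := L)
    exact transcendental_iff_injective.1 this
  have h2 : LinearIndependent K (fun i : Fin (N + 1) => (Polynomial.X : Polynomial K) ^ (i : ℕ)) := by
    have := (Polynomial.basisMonomials K).linearIndependent
    have h3 := this.comp (fun i : Fin (N + 1) => (i : ℕ)) Fin.val_injective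
    convert h3 using 1
    funext i
    simp [Polynomial.X_pow_eq_monomial]
  have h4 := h2.map' (Polynomial.aeval (R := K)
      (⟨h, mem_adjoin_simple_self K h⟩ : adjoin K ({h} : Set L))).toLinearMap
      (LinearMap.ker_eq_bot.2 h1)
  have h5 : ((Polynomial.aeval (R := K)
      (⟨h, mem_adjoin_simple_self K h⟩ : adjoin K ({h} : Set L))).toLinearMap ∘
      fun i : Fin (N + 1) => (Polynomial.X : Polynomial K) ^ (i : ℕ)) = fun i : Fin (N + 1) =>
      (⟨h, mem_adjoin_simple_self K h⟩ : adjoin K ({h} : Set L)) ^ (i : ℕ) := by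
    funext i
    simp only [Function.comp_apply, AlgHom.toLinearMap_apply, map_pow, Polynomial.aeval_X]
  rw [h5] at h4
  exact h4

/-- `h = P/Q`. If `dg K h = 0` nothing to prove. Otherwise `h` is transcendental, `L/K(h)` finite of degree
`n` with basis `e_k`, `a` or `b` is transcendental, so `dg K a ≠ 0` or `dg K b ≠ 0` (`fin_of_trans`,
`R/A8.lean`); the `n (N+1)` elements `h^i e_k Q^N = P^i Q^(N-i) e_k` (`i ≤ N`) are
linearly independent over `K` and lie in `V_{eN} W`, `W` = span of the `e_k`: `n (N + 1) ≤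
(e N + C)(dg a + dg b)` for all `N`, so `n ≤ e (dg a + dg b)`. -/
theorem dg_ratio_le (hL : ¬ Algebra.IsAlgebraic K L) (a b : L) (e : ℕ) (P Q : ℕ → ℕ → K)
    (hQ : bv e Q a b ≠ 0) : dg K (bv e P a b / bv e Q a b) ≤ e * (dg K a + dg K b) := by
  have hhB0 : bv e P a b / bv e Q a b * bv e Q a b = bv e P a b := div_mul_cancel₀ _ hQ
  have hhE0 : ∀ E : IntermediateField K L, (∀ P : ℕ → ℕ → K, bv e P a b ∈ E) →
      bv e P a b / bv e Q a b ∈ E := fun E hE => div_mem (hE P) (hE Q)
  have hA0 := V4_bv a b e P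
  have hB0 := V4_bv a b e Q
  generalize bv e P a b / bv e Q a b = h at hhB0 hhE0 ⊢
  generalize bv e P a b = A at hhB0 hA0
  generalize bv e Q a b = B at hhB0 hQ hB0
  by_cases h0 : dg K h = 0
  · rw [h0]; exact Nat.zero_le _
  have ht : Transcendental K h := trans_of_dg hL h0
  have hfin : dg K a ≠ 0 ∨ dg K b ≠ 0 := by
    by_cases ha : IsAlgebraic K a
    · right
      apply (fin_of_trans h h0 ht b).1
      intro hb
      apply ht
      have ha' : a ∈ algebraicClosure K L := (mem_algebraicClosure_iff).2 ha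
      have hb' : b ∈ algebraicClosure K L := (mem_algebraicClosure_iff).2 hb
      have hbv : ∀ P : ℕ → ℕ → K, bv e P a b ∈ algebraicClosure K L := by
        intro P
        unfold bv
        exact sum_mem fun i _ => sum_mem fun j _ => mul_mem (mul_mem
          (IntermediateField.algebraMap_mem _ _) (pow_mem ha' i)) (pow_mem hb' j)
      exact (mem_algebraicClosure_iff).1 (hhE0 _ hbv)
    · left
      exact (fin_of_trans h h0 ht a).1 ha
  have hfd : Module.Finite (adjoin K ({h} : Set L)) L := Module.finite_of_finrank_pos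
    (Nat.pos_of_ne_zero h0)
  set n := dg K h with hn
  let ε : Module.Basis (Fin n) (adjoin K ({h} : Set L)) L := Module.finBasis (adjoin K ({h} : Set L)) L
  set W : Submodule K L := Submodule.span K (Set.range fun k => ε k) with hWdef
  have hW : Module.Finite K W := Module.Finite.span_of_finite K (Set.finite_range _)
  obtain ⟨C, hC⟩ := growth hL a b hfin W hW
  apply V4_arith n e (dg K a + dg K b) C
  intro N
  have h1 := V4_ind ht N
  have h2 := linearIndependent_smul h1 ε.linearIndependent
  have hBN : (B ^ N : L) ≠ 0 := pow_ne_zero _ hQ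
  have h3 := h2.map' (LinearMap.mulLeft K (B ^ N : L))
    (LinearMap.ker_eq_bot.2 (by
      intro x y hxy
      exact mul_left_cancel₀ hBN hxy))
  have h4 := finrank_span_eq_card h3
  rw [Fintype.card_prod, Fintype.card_fin, Fintype.card_fin] at h4
  have h5 : Submodule.span K (Set.range ((LinearMap.mulLeft K (B ^ N : L)) ∘
      fun p : Fin (N + 1) × Fin n => ((⟨h, mem_adjoin_simple_self K h⟩ :
        adjoin K ({h} : Set L)) ^ (p.1 : ℕ)) • ε p.2)) ≤ V4_S a b W (e * N) := by
    rw [Submodule.span_le]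
    rintro z ⟨⟨i, k⟩, rfl⟩
    have h6 : (LinearMap.mulLeft K (B ^ N : L) ∘ fun p : Fin (N + 1) × Fin n =>
        ((⟨h, mem_adjoin_simple_self K h⟩ : adjoin K ({h} : Set L)) ^ (p.1 : ℕ)) • ε p.2) (i, k) =
        A ^ (i : ℕ) * B ^ (N - (i : ℕ)) * ε k := by
      have hi : (i : ℕ) ≤ N := by have := i.2; omega
      simp only [Function.comp_apply, LinearMap.mulLeft_apply]
      rw [Algebra.smul_def]
      have h7 : algebraMap (adjoin K ({h} : Set L)) L
          ((⟨h, mem_adjoin_simple_self K h⟩ : adjoin K ({h} : Set L)) ^ (i : ℕ)) = h ^ (i : ℕ) := by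
        rw [map_pow]; rfl
      rw [h7]
      have h8 : (B ^ N : L) = B ^ (i : ℕ) * B ^ (N - (i : ℕ)) := by
        rw [← pow_add]; congr 1; omega
      rw [h8, ← hhB0, mul_pow]
      ring
    rw [h6]
    apply V4_mem a b W (e * N) _ (Submodule.subset_span ⟨k, rfl⟩)
    have hi : (i : ℕ) ≤ N := by have := i.2; omega
    have h10 := V4_mul a b _ _ (V4_pow a b e (i : ℕ) hA0)
      (V4_pow a b e (N - (i : ℕ)) hB0)
    have h11 : e * (i : ℕ) + e * (N - (i : ℕ)) = e * N := by
      rw [← Nat.mul_add]; congr 1; omega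
    rw [h11] at h10
    exact h10
  have hfinS := V4_fin a b W hW (e * N)
  have h12 := Submodule.finrank_mono h5
  calc n * (N + 1) = (N + 1) * n := Nat.mul_comm _ _
    _ = _ := h4.symm
    _ ≤ _ := h12
    _ ≤ _ := hC (e * N)

theorem dg_mul_le (hL : ¬ Algebra.IsAlgebraic K L) (a b : L) : dg K (a * b) ≤ dg K a + dg K b := by
  have h := dg_ratio_le (K := K) hL a b 1 (fun i j => if i = 1 ∧ j = 1 then 1 else 0)
    (fun i j => if i = 0 ∧ j = 0 then 1 else 0)
    (by simp [bv, Finset.sum_range_succ])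
  have h1 : bv 1 (fun i j => if i = 1 ∧ j = 1 then (1 : K) else 0) a b = a * b := by
    simp [bv, Finset.sum_range_succ]
  have h2 : bv 1 (fun i j => if i = 0 ∧ j = 0 then (1 : K) else 0) a b = 1 := by
    simp [bv, Finset.sum_range_succ]
  rw [h1, h2, div_one, one_mul] at h
  exact h

end MP2619.W
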