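import Pool.Agent.Lib.MP_2619d0_ag.W.V9

/-!
Row V10: iteration of the block lemma.
-/

set_option autoImplicit false

namespace MP2619.W

universe u

open IntermediateField MP2619.R

private theorem V10_alg {L N : Type u} [Field L] [Field N] [Algebra L N] (S : Set N)
    (h : adjoin L S = ⊤) : Algebra.IsAlgebraic (Algebra.adjoin L S) N := by
  constructor
  intro z
  have hz : z ∈ adjoin L S := by rw [h]; trivial
  rw [mem_adjoin_iff_div] at hz
  obtain ⟨r, hr, s, hs, rfl⟩ := hz
  have h1 : IsAlgebraic (Algebra.adjoin L S) r :=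
    isAlgebraic_algebraMap (⟨r, hr⟩ : Algebra.adjoin L S)
  have h2 : IsAlgebraic (Algebra.adjoin L S) s :=
    isAlgebraic_algebraMap (⟨s, hs⟩ : Algebra.adjoin L S)
  rw [div_eq_mul_inv]
  exact h1.mul h2.inv

private theorem V10_top {K N : Type u} [Field K] [Field N] [Algebra K N] (S : Set N) :
    adjoin K ((fun z : adjoin K S => (z : N)) ⁻¹' S) = ⊤ := by
  apply lift_injective (adjoin K S)
  rw [lift_adjoin, lift_top]
  congr 1
  ext z
  constructor
  · rintro ⟨w, hw, rfl⟩
    exact hw
  · intro hz
    exact ⟨⟨z, subset_adjoin K S hz⟩, hz, rfl⟩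

private theorem V10_trdeg {K N : Type u} [Field K] [Field N] [Algebra K N] (S : Set N) :
    Algebra.trdeg K (adjoin K S) ≤ Cardinal.mk S := by
  have h := V10_alg _ (V10_top (K := K) S)
  have h1 := Algebra.IsAlgebraic.trdeg_le_cardinalMk K
    ((fun z : adjoin K S => (z : N)) ⁻¹' S)
  refine h1.trans ?_
  exact Cardinal.mk_preimage_of_injective _ _ Subtype.val_injective

private theorem V10_trdeg_range {K N : Type u} {ι : Type} [Fintype ι] [Field K] [Field N]
    [Algebra K N] (f : ι → N) :
    Algebra.trdeg K (adjoin K (Set.range f)) ≤ (Fintype.card ι : Cardinal.{u}) := by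
  refine (V10_trdeg _).trans ?_
  have h := Cardinal.mk_range_le_lift (f := f)
  simpa using h

private theorem V10_finrank {A B N : Type u} [Field A] [Field B] [Field N] [Algebra A N]
    [Algebra B N] (E : IntermediateField A N) (F : IntermediateField B N)
    (h : E.toSubfield = F.toSubfield) : Module.finrank E N = Module.finrank F N := by
  change Module.finrank E.toSubfield N = Module.finrank F.toSubfield N
  rw [h]

/-- generation in two steps -/
private theorem V10_tower {K L N : Type u} [Field K] [Field L] [Field N] [Algebra K L]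
    [Algebra L N] [Algebra K N] [IsScalarTower K L N] (S : Set L) (T : Set N) :
    (adjoin (adjoin K S) T : IntermediateField (adjoin K S) N).toSubfield =
      (adjoin K (algebraMap L N '' S ∪ T)).toSubfield := by
  apply le_antisymm
  · refine Subfield.closure_le.mpr ?_
    rintro z (⟨w, rfl⟩ | hz)
    · have h1 : (adjoin K S).map (IsScalarTower.toAlgHom K L N) ≤
          adjoin K (algebraMap L N '' S ∪ T) := by
        rw [adjoin_map]
        exact adjoin.mono _ _ _ Set.subset_union_left
      exact h1 ⟨w.1, w.2, rfl⟩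
    · exact subset_adjoin K _ (Or.inr hz)
  · refine Subfield.closure_le.mpr ?_
    rintro z (⟨w, rfl⟩ | ⟨w, hw, rfl⟩ | hz)
    · have h1 : algebraMap K N w = algebraMap (adjoin K S) N (algebraMap K (adjoin K S) w) :=
        IsScalarTower.algebraMap_apply K (adjoin K S) N w
      rw [h1]
      exact (adjoin (adjoin K S) T).algebraMap_mem _
    · exact (adjoin (adjoin K S) T).algebraMap_mem (⟨w, subset_adjoin K S hw⟩ : adjoin K S)
    · exact subset_adjoin _ _ hz

/-- independence over a subfield of small transcendence degree -/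
private theorem V10_ind {κ L N : Type u} [Field κ] [Field L] [Field N] [Algebra κ L]
    [Algebra L N] [Algebra κ N] [IsScalarTower κ L N] (m : ℕ)
    (h1 : Algebra.trdeg κ L ≤ (m : Cardinal.{u}))
    (h2 : ((m + 2 : ℕ) : Cardinal.{u}) ≤ Algebra.trdeg κ N) (x : Fin 2 → N)
    (h : adjoin L (Set.range x) = ⊤) : AlgebraicIndependent L x := by
  have i1 : FaithfulSMul L N :=
    (faithfulSMul_iff_algebraMap_injective _ _).mpr (algebraMap L N).injective
  have i2 : FaithfulSMul κ L :=
    (faithfulSMul_iff_algebraMap_injective _ _).mpr (algebraMap κ L).injective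
  have h3 : Algebra.trdeg κ L + Algebra.trdeg L N = Algebra.trdeg κ N :=
    trdeg_add_eq κ L (A := N)
  have h4 : (2 : Cardinal.{u}) ≤ Algebra.trdeg L N := by
    rw [← h3] at h2
    have h5 : ((m + 2 : ℕ) : Cardinal.{u}) ≤ m + Algebra.trdeg L N :=
      h2.trans (add_le_add_left h1 _)
    have h6 : (2 : Cardinal.{u}) + m ≤ Algebra.trdeg L N + m := by
      rw [add_comm, add_comm (Algebra.trdeg L N)]
      simpa using h5
    exact (Cardinal.add_le_add_iff_of_lt_aleph0 (Cardinal.natCast_lt_aleph0)).1 h6
  have h7 := V10_alg _ h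
  exact (Algebra.IsAlgebraic.isTranscendenceBasis_of_lift_le_trdeg_of_finite L x
    (by simpa using h4)).1

/-- a point of the curve generates a field of transcendence degree at most one -/
private theorem V10_one {K κ : Type u} [Field K] [Field κ] [Algebra K κ] {a b : κ}
    (h : b ^ 2 + b = a ^ 3) : Algebra.trdeg K (adjoin K ({a, b} : Set κ)) ≤ 1 := by
  let F1 : IntermediateField K κ := adjoin K ({a} : Set κ)
  let F2 : IntermediateField F1 κ := adjoin F1 ({b} : Set κ)
  have h1 : Algebra.trdeg K F1 ≤ 1 := by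
    have := V10_trdeg (K := K) (N := κ) ({a} : Set κ)
    simpa using this
  have haF1 : a ∈ F1 := mem_adjoin_simple_self K a
  have hint : IsIntegral F1 b := by
    refine ⟨Polynomial.X ^ 2 + (Polynomial.X - Polynomial.C ((⟨a, haF1⟩ : F1) ^ 3)), ?_, ?_⟩
    · apply Polynomial.monic_X_pow_add
      refine (Polynomial.degree_X_sub_C _).trans_lt ?_
      norm_num
    · have : algebraMap F1 κ (⟨a, haF1⟩ ^ 3) = a ^ 3 := rfl
      simp only [Polynomial.eval₂_add, Polynomial.eval₂_sub, Polynomial.eval₂_pow,
        Polynomial.eval₂_X, Polynomial.eval₂_C, this]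
      rw [← h]
      ring
  have halg : Algebra.IsAlgebraic F1 F2 := isAlgebraic_adjoin_simple hint
  have h2 : Algebra.trdeg F1 F2 = 0 := trdeg_eq_zero
  have i2 : FaithfulSMul F1 F2 :=
    (faithfulSMul_iff_algebraMap_injective _ _).mpr (algebraMap F1 F2).injective
  have i1 : FaithfulSMul K F1 :=
    (faithfulSMul_iff_algebraMap_injective _ _).mpr (algebraMap K F1).injective
  have h3 : Algebra.trdeg K F1 + Algebra.trdeg F1 F2 = Algebra.trdeg K F2 :=
    trdeg_add_eq K F1 (A := F2)
  have h4 : Algebra.trdeg K F2 ≤ 1 := by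
    rw [← h3, h2, add_zero]
    exact h1
  have h5 : adjoin K ({a, b} : Set κ) ≤ F2.restrictScalars K := by
    rw [adjoin_le_iff]
    rintro z (rfl | rfl)
    · exact F2.algebraMap_mem (⟨_, haF1⟩ : F1)
    · exact mem_adjoin_simple_self F1 _
  refine le_trans ?_ h4
  exact trdeg_le_of_injective (IntermediateField.inclusion h5)
    (IntermediateField.inclusion_injective h5)


/-- the three coordinates of a block -/
private def V10_U {κ N : Type u} [Field κ] [Field N] [Algebra κ N] (al be : N) (a1 a2 b1 b2 : κ) :
    Set N :=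
  {al + be, al * algebraMap κ N a1 + be * algebraMap κ N a2,
    al * algebraMap κ N b1 + be * algebraMap κ N b2}

private theorem V10_U_image {κ L N : Type u} [Field κ] [Field L] [Field N] [Algebra κ L]
    [Algebra L N] [Algebra κ N] [IsScalarTower κ L N] (al be : L) (a1 a2 b1 b2 : κ) :
    algebraMap L N '' V10_U al be a1 a2 b1 b2 =
      V10_U (algebraMap L N al) (algebraMap L N be) a1 a2 b1 b2 := by
  unfold V10_U
  rw [Set.image_insert_eq, Set.image_insert_eq, Set.image_singleton]
  simp only [map_add, map_mul, ← IsScalarTower.algebraMap_apply κ L N]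

private theorem V10_iUnion {X : Type u} {j : ℕ} (f : Fin (j + 1) → Set X) :
    (⋃ C, f C) = (⋃ C : Fin j, f C.succ) ∪ f 0 := by
  ext z
  simp only [Set.mem_iUnion, Set.mem_union, Fin.exists_fin_succ]
  exact or_comm

private theorem V10_ta {κ L : Type u} [Field κ] [Field L] [Algebra κ L] (a1 b1 a2 b2 : κ) :
    ta (algebraMap κ L a1) (algebraMap κ L b1) (algebraMap κ L a2) (algebraMap κ L b2) =
      algebraMap κ L (ta a1 b1 a2 b2) := by
  unfold ta
  simp only [map_add, map_pow, map_div₀]

private theorem V10_tb {κ L : Type u} [Field κ] [Field L] [Algebra κ L] (a1 b1 a2 b2 : κ) :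
    tb (algebraMap κ L a1) (algebraMap κ L b1) (algebraMap κ L a2) (algebraMap κ L b2) =
      algebraMap κ L (tb a1 b1 a2 b2) := by
  unfold tb
  rw [V10_ta]
  simp only [map_add, map_mul, map_div₀]

/-- the inductive step, one summand -/
private theorem V10_summand {K κ L : Type u} [Field K] [Field κ] [Field L] [Algebra K κ]
    [Algebra κ L] [Algebra K L] [IsScalarTower K κ L] (S : Set L) (a b : κ) :
    dp (adjoin K S) (algebraMap κ L a) (algebraMap κ L b) =
      Module.finrank (adjoin (adjoin K ({a, b} : Set κ)) S : IntermediateField _ L) L := by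
  unfold dp
  apply V10_finrank
  rw [V10_tower (K := K) (L := κ) (N := L) ({a, b} : Set κ) S]
  rw [V10_tower (K := K) (L := L) (N := L) S _]
  rw [Algebra.algebraMap_self]
  congr 2
  simp only [RingHom.id_apply, Set.image_id', Set.image_insert_eq, Set.image_singleton]
  exact Set.union_comm _ _

private theorem V10_card (c : Cardinal.{u}) (j : ℕ) (h : ((j + 1 : ℕ) : Cardinal.{u}) ≤ 1 + c) :
    (j : Cardinal.{u}) ≤ c := by
  push_cast at h
  rw [add_comm 1 c] at h
  exact Cardinal.add_one_le_add_one_iff.1 h

/-- Induction on `j`. `j = 0`: `N = κ`. Step: `L = κ(al C, be C : C < j)`, `K1 = K(u_C : C < j)` (an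
intermediate field of `L/K`), `N = L(al_j, be_j)`; `L/K1` is not algebraic: `trdeg K L = trdeg K κ + 2 j ≥ 3 j + 1`,
`K1` is generated by `3 j` elements. `block` for `K1 ⊂ L ⊂ N`; the terms are `[L : K1(a i j, b i j)]`,
`K1(a, b) = K2(u_C : C < j)` with `K2 = K(a i j, b i j) ⊂ κ`; induction hypothesis for `K2 ⊂ κ ⊂ L`
(`trdeg K2 κ ≥ j`, since `K2/K` has transcendence degree `≤ 1`). -/
theorem iter (j : ℕ) : ∀ (K κ N : Type u) [Field K] [Field κ] [Field N] [Algebra K κ]
    [Algebra κ N] [Algebra K N] [IsScalarTower K κ N], (2 : K) = 0 → ∀ (al be : Fin j → N),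
    AlgebraicIndependent κ (Sum.elim al be) → adjoin κ (Set.range al ∪ Set.range be) = ⊤ →
    ∀ a b : Fin 3 → Fin j → κ, (∀ i C, b i C ^ 2 + b i C = a i C ^ 3) → (∀ C, a 0 C ≠ a 1 C) →
    (∀ C, a 2 C = ta (a 0 C) (b 0 C) (a 1 C) (b 1 C)) →
    (∀ C, b 2 C = tb (a 0 C) (b 0 C) (a 1 C) (b 1 C)) → (j : Cardinal.{u}) ≤ Algebra.trdeg K κ →
    Module.finrank (adjoin K (⋃ C, {al C + be C,
      al C * algebraMap κ N (a 0 C) + be C * algebraMap κ N (a 1 C),
      al C * algebraMap κ N (b 0 C) + be C * algebraMap κ N (b 1 C)} : Set N)) N =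
      ∑ φ : Fin j → Fin 3, Module.finrank (adjoin K (⋃ C, {a (φ C) C, b (φ C) C} : Set κ)) κ := by
  classical
  induction j with
  | zero =>
    intro K κ N _ _ _ _ _ _ _ _ al be _ hgen a b _ _ _ _ _
    have hb : (⊥ : IntermediateField κ N) = ⊤ := by
      rw [← hgen]
      simp
    have e : κ ≃ₐ[K] N := by
      refine AlgEquiv.ofBijective (IsScalarTower.toAlgHom K κ N)
        ⟨(algebraMap κ N).injective, fun z => ?_⟩
      have hz : z ∈ (⊥ : IntermediateField κ N) := by rw [hb]; trivial
      rw [mem_bot] at hz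
      exact hz
    rw [Finset.univ_unique, Finset.sum_singleton, Set.iUnion_of_empty, Set.iUnion_of_empty,
      adjoin_empty, adjoin_empty, finrank_bot', finrank_bot']
    exact e.toLinearEquiv.finrank_eq.symm
  | succ j ih =>
    intro K κ N _ _ _ _ _ _ _ h2 al be hind hgen a b hcv hne hta htb htr
    -- the field generated by all but the first pair
    let L : IntermediateField κ N :=
      adjoin κ (Set.range (Sum.elim (fun C : Fin j => al C.succ) (fun C : Fin j => be C.succ)))
    have hL : ∀ p, Sum.elim (fun C : Fin j => al C.succ) (fun C : Fin j => be C.succ) p ∈ L :=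
      fun p => subset_adjoin κ _ ⟨p, rfl⟩
    let alL : Fin j → L := fun C => ⟨al C.succ, hL (Sum.inl C)⟩
    let beL : Fin j → L := fun C => ⟨be C.succ, hL (Sum.inr C)⟩
    let S : Set L := ⋃ C : Fin j, V10_U (alL C) (beL C) (a 0 C.succ) (a 1 C.succ) (b 0 C.succ)
      (b 1 C.succ)
    -- independence and generation inside `L`
    have hindL : AlgebraicIndependent κ (Sum.elim alL beL) := by
      refine AlgebraicIndependent.of_comp L.val ?_
      have h3 := hind.comp (Sum.map Fin.succ Fin.succ)
        (Function.Injective.sumMap (Fin.succ_injective j) (Fin.succ_injective j))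
      convert h3 using 1
      funext p
      rcases p with p | p <;> rfl
    have hgenL : adjoin κ (Set.range alL ∪ Set.range beL) = ⊤ := by
      have h3 := V10_top (K := κ)
        (Set.range (Sum.elim (fun C : Fin j => al C.succ) (fun C : Fin j => be C.succ)))
      rw [← h3]
      congr 1
      ext z
      simp only [Set.mem_union, Set.mem_range, Set.mem_preimage, Sum.exists, Sum.elim_inl,
        Sum.elim_inr]
      constructor
      · rintro (⟨C, rfl⟩ | ⟨C, rfl⟩)
        · exact Or.inl ⟨C, rfl⟩
        · exact Or.inr ⟨C, rfl⟩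
      · rintro (⟨C, hC⟩ | ⟨C, hC⟩)
        · exact Or.inl ⟨C, Subtype.ext hC⟩
        · exact Or.inr ⟨C, Subtype.ext hC⟩
    -- transcendence degrees
    have i1 : FaithfulSMul K κ :=
      (faithfulSMul_iff_algebraMap_injective _ _).mpr (algebraMap K κ).injective
    have i2 : FaithfulSMul κ L :=
      (faithfulSMul_iff_algebraMap_injective _ _).mpr (algebraMap κ L).injective
    have hN : ((2 * j + 2 : ℕ) : Cardinal.{u}) ≤ Algebra.trdeg κ N := by
      have h3 := hind.lift_cardinalMk_le_trdeg
      have h4 : ((2 * j + 2 : ℕ) : Cardinal.{u}) =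
          Cardinal.lift.{u} (Cardinal.mk (Fin (j + 1) ⊕ Fin (j + 1))) := by
        simp
        ring
      rw [h4]
      simpa using h3
    have hL1 : Algebra.trdeg κ L ≤ ((2 * j : ℕ) : Cardinal.{u}) := by
      have h3 := V10_trdeg_range (K := κ)
        (Sum.elim (fun C : Fin j => al C.succ) (fun C : Fin j => be C.succ))
      refine h3.trans (le_of_eq ?_)
      simp
      ring
    have hL2 : ((2 * j : ℕ) : Cardinal.{u}) ≤ Algebra.trdeg κ L := by
      have h3 := hindL.lift_cardinalMk_le_trdeg
      have h4 : ((2 * j : ℕ) : Cardinal.{u}) =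
          Cardinal.lift.{u} (Cardinal.mk (Fin j ⊕ Fin j)) := by
        simp
        ring
      rw [h4]
      simpa using h3
    -- generation over `L`
    have hgen2 : adjoin L ({al 0, be 0} : Set N) = ⊤ := by
      have h3 : adjoin κ (Set.range al ∪ Set.range be) ≤
          (adjoin L ({al 0, be 0} : Set N)).restrictScalars κ := by
        rw [adjoin_le_iff]
        rintro z (⟨C, rfl⟩ | ⟨C, rfl⟩)
        · refine Fin.cases ?_ (fun C => ?_) C
          · exact subset_adjoin L _ (Or.inl rfl)
          · exact (adjoin L ({al 0, be 0} : Set N)).algebraMap_mem (alL C)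
        · refine Fin.cases ?_ (fun C => ?_) C
          · exact subset_adjoin L _ (Or.inr rfl)
          · exact (adjoin L ({al 0, be 0} : Set N)).algebraMap_mem (beL C)
      rw [hgen, top_le_iff, restrictScalars_eq_top_iff] at h3
      exact h3
    have hind2 : AlgebraicIndependent L ![al 0, be 0] := by
      refine V10_ind (κ := κ) (2 * j) hL1 hN _ ?_
      rw [← hgen2]
      congr 1
      simp only [Matrix.range_cons, Matrix.range_empty, Set.union_empty, Set.singleton_union]
    -- `L` is not algebraic over `K1`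
    let K1 : IntermediateField K L := adjoin K S
    have hS : S = Set.range (fun p : Fin j × Fin 3 =>
        (![alL p.1 + beL p.1,
          alL p.1 * algebraMap κ L (a 0 p.1.succ) + beL p.1 * algebraMap κ L (a 1 p.1.succ),
          alL p.1 * algebraMap κ L (b 0 p.1.succ) + beL p.1 * algebraMap κ L (b 1 p.1.succ)] :
            Fin 3 → L) p.2) := by
      ext z
      simp only [S, V10_U, Set.mem_iUnion, Set.mem_insert_iff, Set.mem_singleton_iff,
        Set.mem_range, Prod.exists, Fin.exists_fin_succ, Fin.exists_fin_zero]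
      refine exists_congr fun C => ?_
      simp [eq_comm]
    have hK1 : Algebra.trdeg K K1 ≤ ((3 * j : ℕ) : Cardinal.{u}) := by
      have h3 : Algebra.trdeg K (adjoin K S) ≤ ((3 * j : ℕ) : Cardinal.{u}) := by
        rw [hS]
        refine (V10_trdeg_range _).trans (le_of_eq ?_)
        simp
        ring
      exact h3
    have hnot : ¬ Algebra.IsAlgebraic K1 L := by
      intro halg
      have i3 : FaithfulSMul K K1 :=
        (faithfulSMul_iff_algebraMap_injective _ _).mpr (algebraMap K K1).injective
      have i4 : FaithfulSMul K1 L :=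
        (faithfulSMul_iff_algebraMap_injective _ _).mpr (algebraMap K1 L).injective
      have h3 : Algebra.trdeg K K1 + Algebra.trdeg K1 L = Algebra.trdeg K L :=
        trdeg_add_eq K K1 (A := L)
      have h4 : Algebra.trdeg K κ + Algebra.trdeg κ L = Algebra.trdeg K L :=
        trdeg_add_eq K κ (A := L)
      have h5 : Algebra.trdeg K1 L = 0 := trdeg_eq_zero
      rw [h5, add_zero] at h3
      have h6 : ((j + 1 : ℕ) : Cardinal.{u}) + ((2 * j : ℕ) : Cardinal.{u}) ≤
          ((3 * j : ℕ) : Cardinal.{u}) := by
        refine (add_le_add htr hL2).trans ?_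
        rw [h4, ← h3]
        exact hK1
      have h7 : j + 1 + 2 * j ≤ 3 * j := by exact_mod_cast h6
      omega
    -- the block lemma
    have h2K1 : (2 : K1) = 0 := by
      have h3 : (2 : K1) = algebraMap K K1 2 := (map_ofNat (algebraMap K K1) 2).symm
      rw [h3, h2, map_zero]
    have hcvL : ∀ i C, algebraMap κ L (b i C) ^ 2 + algebraMap κ L (b i C) =
        algebraMap κ L (a i C) ^ 3 := by
      intro i C
      rw [← map_pow, ← map_pow, ← map_add, hcv]
    have hblock := block (K := K1) (L := L) h2K1 hnot (N := N) (al 0) (be 0) hind2 hgen2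
      (hcvL 0 0) (hcvL 1 0) (fun h => hne 0 ((algebraMap κ L).injective h))
    rw [V10_ta, V10_tb, ← hta, ← htb] at hblock
    -- the left side
    have i0 : IsScalarTower K L N := IsScalarTower.of_algebraMap_eq fun x => rfl
    have hleft : Module.finrank (adjoin K (⋃ C, V10_U (al C) (be C) (a 0 C) (a 1 C) (b 0 C)
        (b 1 C) : Set N)) N =
        Module.finrank (adjoin K1 ({al 0 + be 0,
          al 0 * algebraMap L N (algebraMap κ L (a 0 0)) +
            be 0 * algebraMap L N (algebraMap κ L (a 1 0)),
          al 0 * algebraMap L N (algebraMap κ L (b 0 0)) +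
            be 0 * algebraMap L N (algebraMap κ L (b 1 0))} : Set N)) N := by
      apply V10_finrank
      rw [V10_tower (K := K) (L := L) (N := N) S _, V10_iUnion]
      congr 2
      rw [Set.image_iUnion]
      congr 1
      refine Set.iUnion_congr fun C => ?_
      rw [V10_U_image]
      rfl
    have hleft2 : Module.finrank (adjoin K (⋃ C, {al C + be C,
      al C * algebraMap κ N (a 0 C) + be C * algebraMap κ N (a 1 C),
      al C * algebraMap κ N (b 0 C) + be C * algebraMap κ N (b 1 C)} : Set N)) N =
        Module.finrank (adjoin K (⋃ C, V10_U (al C) (be C) (a 0 C) (a 1 C) (b 0 C)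
        (b 1 C) : Set N)) N := rfl
    rw [hleft2, hleft, hblock]
    -- the right side
    have hsum : ∀ i : Fin 3, dp K1 (algebraMap κ L (a i 0)) (algebraMap κ L (b i 0)) =
        ∑ ψ : Fin j → Fin 3, Module.finrank (adjoin K ((⋃ C : Fin j,
          {a (ψ C) C.succ, b (ψ C) C.succ}) ∪ {a i 0, b i 0} : Set κ)) κ := by
      intro i
      rw [V10_summand (K := K) (κ := κ) (L := L) S (a i 0) (b i 0)]
      have h2K2 : (2 : adjoin K ({a i 0, b i 0} : Set κ)) = 0 := by
        have h3 : (2 : adjoin K ({a i 0, b i 0} : Set κ)) =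
            algebraMap K (adjoin K ({a i 0, b i 0} : Set κ)) 2 :=
          (map_ofNat (algebraMap K (adjoin K ({a i 0, b i 0} : Set κ))) 2).symm
        rw [h3, h2, map_zero]
      have htr2 : (j : Cardinal.{u}) ≤
          Algebra.trdeg (adjoin K ({a i 0, b i 0} : Set κ)) κ := by
        have i3 : FaithfulSMul K (adjoin K ({a i 0, b i 0} : Set κ)) :=
          (faithfulSMul_iff_algebraMap_injective _ _).mpr (algebraMap K _).injective
        have i4 : FaithfulSMul (adjoin K ({a i 0, b i 0} : Set κ)) κ :=
          (faithfulSMul_iff_algebraMap_injective _ _).mpr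
            (algebraMap (adjoin K ({a i 0, b i 0} : Set κ)) κ).injective
        have h3 : Algebra.trdeg K (adjoin K ({a i 0, b i 0} : Set κ)) +
            Algebra.trdeg (adjoin K ({a i 0, b i 0} : Set κ)) κ = Algebra.trdeg K κ :=
          trdeg_add_eq K (adjoin K ({a i 0, b i 0} : Set κ)) (A := κ)
        apply V10_card
        rw [← h3] at htr
        exact htr.trans (add_le_add_left (V10_one (hcv i 0)) _)
      have h3 := ih (adjoin K ({a i 0, b i 0} : Set κ)) κ L h2K2 alL beL hindL hgenL
        (fun i C => a i C.succ) (fun i C => b i C.succ) (fun i C => hcv i C.succ)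
        (fun C => hne C.succ) (fun C => hta C.succ) (fun C => htb C.succ) htr2
      refine Eq.trans ?_ (h3.trans ?_)
      · rfl
      · refine Finset.sum_congr rfl fun ψ _ => ?_
        apply V10_finrank
        rw [V10_tower (K := K) (L := κ) (N := κ)]
        congr 2
        rw [Algebra.algebraMap_self, RingHom.coe_id, Set.image_id, Set.union_comm]
    rw [hsum 0, hsum 1, hsum 2]
    rw [← Fin.sum_univ_three (fun i : Fin 3 => ∑ ψ : Fin j → Fin 3,
      Module.finrank (adjoin K ((⋃ C : Fin j, {a (ψ C) C.succ, b (ψ C) C.succ}) ∪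
        {a i 0, b i 0} : Set κ)) κ)]
    rw [← Fintype.sum_prod_type' (fun (i : Fin 3) (ψ : Fin j → Fin 3) =>
      Module.finrank (adjoin K ((⋃ C : Fin j, {a (ψ C) C.succ, b (ψ C) C.succ}) ∪
        {a i 0, b i 0} : Set κ)) κ)]
    refine Fintype.sum_equiv (Fin.consEquiv (fun _ : Fin (j + 1) => Fin 3)) _ _ ?_
    rintro ⟨i, ψ⟩
    rw [V10_iUnion]
    rfl

end MP2619.W
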