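import Pool.Agent.Lib.MP_2619d0_ag.W.V13

/-!
Row V14a: normal form of one block.
-/

set_option autoImplicit false

namespace MP2619.W

universe u

open IntermediateField

private theorem V14a_add {k M : Type u} [Field k] [Field M] [Algebra k M]
    (A : Matrix (Fin 3) (Fin 3) k) (x y : Fin 3 → M) (i : Fin 3) :
    lin A (fun j => x j + y j) i = lin A x i + lin A y i := by
  unfold lin
  rw [← Finset.sum_add_distrib]
  exact Finset.sum_congr rfl fun j _ => mul_add _ _ _

private theorem V14a_lin_mem {k M : Type u} [Field k] [Field M] [Algebra k M]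
    (A : Matrix (Fin 3) (Fin 3) k) (z : Fin 3 → M) (F : IntermediateField k M)
    (h : ∀ j, z j ∈ F) (i : Fin 3) : lin A z i ∈ F := by
  unfold lin
  exact sum_mem fun j _ => mul_mem (IntermediateField.algebraMap_mem F _) (h j)

private theorem V14a_comp {k M : Type u} [Field k] [Field M] [Algebra k M]
    (A B : Matrix (Fin 3) (Fin 3) k) (z : Fin 3 → M) (i : Fin 3) :
    lin B (lin A z) i = lin (B * A) z i := by
  unfold lin
  simp only [Matrix.mul_apply, map_sum, map_mul, Finset.mul_sum, Finset.sum_mul]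
  rw [Finset.sum_comm]
  refine Finset.sum_congr rfl fun j _ => Finset.sum_congr rfl fun l _ => ?_
  ring

private theorem V14a_one {k M : Type u} [Field k] [Field M] [Algebra k M]
    (z : Fin 3 → M) (i : Fin 3) : lin (1 : Matrix (Fin 3) (Fin 3) k) z i = z i := by
  unfold lin
  rw [Finset.sum_eq_single i]
  · simp
  · intro j _ hj
    rw [Matrix.one_apply_ne hj.symm]; simp
  · intro h; exact absurd (Finset.mem_univ i) h

private theorem V14a_quot {k M : Type u} [Field k] [Field M] [Algebra k M]
    (A : Matrix (Fin 3) (Fin 3) k) (x : Fin 3 → M) (s : Fin 3) (i : Fin 3) :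
    lin A x i / x s ∈ adjoin k {z : M | ∃ i j, z = x i / x j} := by
  unfold lin
  rw [Finset.sum_div]
  refine sum_mem fun j _ => ?_
  rw [mul_div_assoc]
  exact mul_mem (IntermediateField.algebraMap_mem _ _) (subset_adjoin _ _ ⟨j, s, rfl⟩)

private theorem V14a_div {k M : Type u} [Field k] [Field M] [Algebra k M]
    (A : Matrix (Fin 3) (Fin 3) k) (x : Fin 3 → M) (s : Fin 3) (hs : x s ≠ 0) (i j : Fin 3) :
    lin A x i / lin A x j ∈ adjoin k {z : M | ∃ i j, z = x i / x j} := by
  have h := div_mem (V14a_quot A x s i) (V14a_quot A x s j)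
  rwa [div_div_div_cancel_right₀ hs] at h

/-- `flex`: matrix `A`; `al = lin A x 0`, `be = lin A y 0` (not zero: `lin A x 0 = 0` implies
`lin A x 1 = 0` by the equation), `a 0 = lin A x 1 / al`, `b 0 = lin A x 2 / al`, `a 1`, `b 1` for `y`. A quotient
of linear forms in the `x i` lies in the field generated by the `x i / x j`. `A` is invertible, so
`k(lin A u) = k(u)`. -/
theorem norm_block {k M : Type u} [Field k] [Field M] [Algebra k M] (h2 : (2 : k) = 0) (w : k)
    (hw : w ^ 2 + w + 1 = 0) (x y : Fin 3 → M) (hx : ∑ i, x i ^ 3 = 0) (hy : ∑ i, y i ^ 3 = 0)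
    (hz : x 2 + y 2 ≠ 0) (hxy : ∃ i j, x i * y j ≠ x j * y i) :
    ∃ (al be : M) (a b : Fin 2 → M), al ≠ 0 ∧ be ≠ 0 ∧ (∀ i, b i ^ 2 + b i = a i ^ 3) ∧
      a 0 ≠ a 1 ∧ (a 0 ∈ adjoin k {z : M | ∃ i j, z = x i / x j}) ∧
      (b 0 ∈ adjoin k {z : M | ∃ i j, z = x i / x j}) ∧
      (a 1 ∈ adjoin k {z : M | ∃ i j, z = y i / y j}) ∧
      (b 1 ∈ adjoin k {z : M | ∃ i j, z = y i / y j}) ∧
      adjoin k (Set.range fun i => x i + y i) =
        adjoin k ({al + be, al * a 0 + be * a 1, al * b 0 + be * b 1} : Set M) := by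
  obtain ⟨A, hA, heq, hm⟩ := flex h2 w hw x y hz hxy
  have hX := heq x hx
  have hY := heq y hy
  have hal : lin A x 0 ≠ 0 := by
    intro h0
    rw [h0] at hX hm
    have h1 : lin A x 1 = 0 := by
      have : lin A x 1 ^ 3 = 0 := by rw [← hX]; ring
      exact pow_eq_zero_iff (by norm_num) |>.mp this
    rw [h1] at hm
    exact hm (by ring)
  have hbe : lin A y 0 ≠ 0 := by
    intro h0
    rw [h0] at hY hm
    have h1 : lin A y 1 = 0 := by
      have : lin A y 1 ^ 3 = 0 := by rw [← hY]; ring
      exact pow_eq_zero_iff (by norm_num) |>.mp this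
    rw [h1] at hm
    exact hm (by ring)
  have hxs : ∃ s, x s ≠ 0 := by
    by_contra h
    push Not at h
    apply hal
    unfold lin
    exact Finset.sum_eq_zero fun j _ => by rw [h j, mul_zero]
  have hys : ∃ s, y s ≠ 0 := by
    by_contra h
    push Not at h
    apply hbe
    unfold lin
    exact Finset.sum_eq_zero fun j _ => by rw [h j, mul_zero]
  obtain ⟨s, hs⟩ := hxs
  obtain ⟨t, ht⟩ := hys
  refine ⟨lin A x 0, lin A y 0, ![lin A x 1 / lin A x 0, lin A y 1 / lin A y 0],
    ![lin A x 2 / lin A x 0, lin A y 2 / lin A y 0], hal, hbe, ?_, ?_, ?_, ?_, ?_, ?_, ?_⟩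
  · intro i
    fin_cases i
    · show (lin A x 2 / lin A x 0) ^ 2 + lin A x 2 / lin A x 0 = (lin A x 1 / lin A x 0) ^ 3
      field_simp
      linear_combination hX
    · show (lin A y 2 / lin A y 0) ^ 2 + lin A y 2 / lin A y 0 = (lin A y 1 / lin A y 0) ^ 3
      field_simp
      linear_combination hY
  · simp only [Matrix.cons_val_zero, Matrix.cons_val_one]
    intro h
    rw [div_eq_div_iff hal hbe] at h
    apply hm
    linear_combination -h
  · exact V14a_div A x s hs 1 0
  · exact V14a_div A x s hs 2 0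
  · exact V14a_div A y t ht 1 0
  · exact V14a_div A y t ht 2 0
  · simp only [Matrix.cons_val_zero, Matrix.cons_val_one]
    rw [mul_div_cancel₀ _ hal, mul_div_cancel₀ _ hbe, mul_div_cancel₀ _ hal,
      mul_div_cancel₀ _ hbe, ← V14a_add A x y 0, ← V14a_add A x y 1, ← V14a_add A x y 2]
    set u : Fin 3 → M := fun j => x j + y j with hu
    apply le_antisymm
    · rw [adjoin_le_iff]
      rintro _ ⟨i, rfl⟩
      have h1 : u i = lin A⁻¹ (lin A u) i := by
        rw [V14a_comp, Matrix.nonsing_inv_mul A hA, V14a_one]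
      show u i ∈ _
      rw [h1]
      apply V14a_lin_mem
      intro j
      fin_cases j
      · exact subset_adjoin _ _ (by simp)
      · exact subset_adjoin _ _ (by simp)
      · exact subset_adjoin _ _ (by simp)
    · rw [adjoin_le_iff]
      have h1 : ∀ i, lin A u i ∈ adjoin k (Set.range u) := fun i =>
        V14a_lin_mem A u _ (fun j => subset_adjoin k (Set.range u) (Set.mem_range_self j)) i
      intro z hz'
      rcases hz' with rfl | rfl | rfl
      · exact h1 0
      · exact h1 1
      · exact h1 2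

end MP2619.W
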