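import Mathlib

/-!
Row V8: the parallelogram law implies quadratic.
-/

set_option autoImplicit false

namespace MP2619.W

private theorem V8_zero {G : Type*} [AddCommGroup G] (f : G → ℤ)
    (h : ∀ x y, f (x + y) + f (x - y) = 2 * (f x + f y)) : f 0 = 0 := by
  have := h 0 0
  simp only [add_zero, sub_zero] at this
  omega

private theorem V8_three {G : Type*} [AddCommGroup G] (f : G → ℤ)
    (h : ∀ x y, f (x + y) + f (x - y) = 2 * (f x + f y)) (x z y : G) :
    f (x + z + y) = f (x + z) + f (x + y) + f (z + y) - f x - f y - f z := by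
  have h1 := h (x + z) y
  have h2 := h x (z + y)
  have h3 := h (x - y) z
  have h4 := h x y
  have e1 : x + (z + y) = x + z + y := by abel
  have e2 : x - (z + y) = x - y - z := by abel
  have e3 : x - y + z = x + z - y := by abel
  rw [e1, e2] at h2
  rw [e3] at h3
  omega

private def V8_B {G : Type*} [AddCommGroup G] (f : G → ℤ)
    (h : ∀ x y, f (x + y) + f (x - y) = 2 * (f x + f y)) (y : G) : G →+ ℤ where
  toFun x := f (x + y) - f x - f y
  map_zero' := by
    have := V8_zero f h
    simp only [zero_add]
    omega
  map_add' x z := by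
    have := V8_three f h x z y
    omega

/-- `B x y = f (x + y) - f x - f y` is biadditive, `f (n x) = n² f x`. -/
theorem par_quad {G : Type*} [AddCommGroup G] (f : G → ℤ)
    (h : ∀ x y, f (x + y) + f (x - y) = 2 * (f x + f y)) (x y : G) (a b : ℤ) :
    f (a • x + b • y) = a ^ 2 * f x + a * b * (f (x + y) - f x - f y) + b ^ 2 * f y := by
  have hB : ∀ (u v : G) (n : ℤ), f (n • u + v) - f (n • u) - f v = n * (f (u + v) - f u - f v) := by
    intro u v n
    have := map_zsmul (V8_B f h v) n u
    simpa [V8_B] using this
  have h0 := V8_zero f h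
  have hneg : ∀ u, f (-u) = f u := by
    intro u
    have := h 0 u
    simp only [zero_add, zero_sub] at this
    omega
  have hnat : ∀ (u : G) (n : ℤ), f (n • u) = n ^ 2 * f u := by
    intro u n
    have h1 := hB u (n • u) n
    have h2 := hB u u n
    have h3 := h (n • u) (n • u)
    have h4 := h u u
    rw [sub_self, h0] at h3 h4
    rw [add_comm u (n • u)] at h1
    have e4 : f (u + u) - f u - f u = 2 * f u := by linarith
    have e5 : f (n • u + u) - f u - f (n • u) = n * (2 * f u) := by rw [← e4]; linarith
    rw [e5] at h1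
    have e6 : 2 * f (n • u) = 2 * (n ^ 2 * f u) := by linear_combination h1 - h3
    linarith
  have h1 := hB x (b • y) a
  have h2 := hB y x b
  rw [add_comm (b • y) x, add_comm y x] at h2
  rw [hnat x a, hnat y b] at h1
  rw [hnat y b] at h2
  have h5 : f (x + b • y) - f x - b ^ 2 * f y = b * (f (x + y) - f x - f y) := by linarith
  have h6 : f (a • x + b • y) = a ^ 2 * f x + b ^ 2 * f y +
      a * (f (x + b • y) - f x - b ^ 2 * f y) := by linarith
  rw [h6, h5]
  ring

end MP2619.W
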