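import Pool.Agent.Lib.MP_2619d0_ag.W.V7
import Pool.Agent.Lib.MP_2619d0_ag.W.V8

/-!
Row V12a: the degree of a family of points is a quadratic form in each point.
-/

set_option autoImplicit false

namespace MP2619.W

universe u

open IntermediateField MP2619.R

/-- transcendence degree of a field generated by `A` and by elements `z` with `z² + z = x³`, `x ∈ A` -/
private theorem V12a_alg {k κ : Type u} [Field k] [Field κ] [Algebra k κ] (U A : Set κ)
    (h : ∀ z ∈ U, z ∈ A ∨ ∃ x ∈ A, z ^ 2 + z = x ^ 3) (hA : A ⊆ U) :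
    Algebra.trdeg k (adjoin k U) ≤ Cardinal.mk A := by
  set s : Set (adjoin k U) := {x | x.1 ∈ A} with hs
  have hcard : Cardinal.mk s ≤ Cardinal.mk A :=
    Cardinal.mk_le_of_injective (f := fun x : s => (⟨x.1.1, x.2⟩ : A)) (by
      intro x y hxy
      have h9 : (x.1.1 : κ) = y.1.1 := congrArg (fun a : A => a.1) hxy
      exact Subtype.ext (Subtype.ext h9))
  have hin : ∀ (x : κ) (hx : x ∈ A) (hx' : x ∈ adjoin k U),
      (⟨x, hx'⟩ : adjoin k U) ∈ Algebra.adjoin k s := fun x hx hx' => Algebra.subset_adjoin hx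
  have halg : Algebra.IsAlgebraic (Algebra.adjoin k s) (adjoin k U) := by
    refine ⟨?_⟩
    rintro ⟨z, hz⟩
    induction hz using adjoin_induction with
    | mem z hz =>
      rcases h z hz with hzA | ⟨x, hx, hzx⟩
      · exact isAlgebraic_algebraMap (⟨⟨z, _⟩, hin z hzA _⟩ : Algebra.adjoin k s)
      · have hx' : x ∈ adjoin k U := subset_adjoin k U (hA hx)
        set X : Algebra.adjoin k s := ⟨⟨x, hx'⟩, hin x hx hx'⟩ with hX
        have hne : ∀ c : Algebra.adjoin k s,
            Polynomial.X ^ 2 + Polynomial.X - Polynomial.C c ≠ 0 := by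
          intro c h0
          have h1 := congrArg (fun p => Polynomial.coeff p 2) h0
          simp [Polynomial.coeff_X] at h1
        refine ⟨Polynomial.X ^ 2 + Polynomial.X - Polynomial.C (X ^ 3), ?_, ?_⟩
        · exact hne (X ^ 3)
        · apply Subtype.ext
          simp only [map_sub, map_add, map_pow, Polynomial.aeval_X, Polynomial.aeval_C]
          show z ^ 2 + z - x ^ 3 = 0
          rw [hzx, sub_self]
    | algebraMap c =>
      exact isAlgebraic_algebraMap (algebraMap k (Algebra.adjoin k s) c)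
    | add x y hx hy h1 h2 => exact h1.add h2
    | inv x hx h1 => exact h1.inv
    | mul x y hx hy h1 h2 => exact h1.mul h2
  exact (Algebra.IsAlgebraic.trdeg_le_cardinalMk (R := k) (A := adjoin k U) (s := s)).trans hcard

/-- the first coordinate of a point -/
private def V12a_x {κ : Type u} [Field κ] : (Ec κ).Point → κ
  | .zero => 0
  | .some x _ _ => x

/-- each point contributes at most one (`b² + b = a³`, `b` is algebraic over `k(a)`) -/
theorem trdeg_pts {r : ℕ} {k κ : Type u} [Field k] [Field κ] [Algebra k κ]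
    (Z : Fin r → (Ec κ).Point) (S : Finset (Fin r)) :
    Algebra.trdeg k (adjoin k (⋃ C ∈ S, pf k (Z C))) ≤ S.card := by
  classical
  set U : Set κ := ⋃ C ∈ S, pf k (Z C) with hU
  set A : Set κ := ((fun C => V12a_x (Z C)) '' (S : Set (Fin r))) ∩ U with hA
  have h1 : Algebra.trdeg k (adjoin k U) ≤ Cardinal.mk A := by
    refine V12a_alg U A ?_ Set.inter_subset_right
    intro z hz
    have hz' := hz
    rw [hU, Set.mem_iUnion₂] at hz'
    obtain ⟨C, hC, hzC⟩ := hz'
    have hsub : pf k (Z C) ⊆ U := Set.subset_biUnion_of_mem (u := fun C => pf k (Z C)) hC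
    have himg : V12a_x (Z C) ∈ (fun C => V12a_x (Z C)) '' (S : Set (Fin r)) := ⟨C, hC, rfl⟩
    cases hP : Z C with
    | zero =>
      rw [hP] at hzC
      exact absurd hzC (Set.notMem_empty z)
    | some x y hxy =>
      rw [hP] at hzC hsub himg
      have hx : x ∈ U := hsub (Set.mem_insert x {y})
      rcases hzC with hzx | hzy
      · left
        rw [hzx]
        exact ⟨himg, hx⟩
      · right
        refine ⟨x, ⟨himg, hx⟩, ?_⟩
        have h2 := (WeierstrassCurve.Affine.equation_iff (W := Ec κ) x y).mp hxy.1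
        have h3 : y ^ 2 + 0 * x * y + 1 * y = x ^ 3 + 0 * x ^ 2 + 0 * x + 0 := h2
        have h4 : z = y := hzy
        rw [h4]
        linear_combination h3
  refine h1.trans ?_
  have h2 : Cardinal.mk A ≤ Cardinal.mk ((fun C => V12a_x (Z C)) '' (S : Set (Fin r))) :=
    Cardinal.mk_le_mk_of_subset Set.inter_subset_left
  refine h2.trans ?_
  have h3 : ((fun C => V12a_x (Z C)) '' (S : Set (Fin r))) =
      ((S.image fun C => V12a_x (Z C) : Finset κ) : Set κ) := by
    rw [Finset.coe_image]
  rw [h3]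
  have h4 : Cardinal.mk (((S.image fun C => V12a_x (Z C) : Finset κ) : Set κ)) =
      ((S.image fun C => V12a_x (Z C)).card : Cardinal) := Cardinal.mk_coe_finset
  rw [h4]
  exact_mod_cast Finset.card_image_le

private theorem V12a_pf {r : ℕ} {k κ : Type u} [Field k] [Field κ] [Algebra k κ]
    (Z : Fin r → (Ec κ).Point) (C : Fin r) (P : (Ec κ).Point) :
    (⋃ C', pf k (Function.update Z C P C')) =
      (⋃ C' ∈ Finset.univ.erase C, pf k (Z C')) ∪ pf k P := by
  ext z
  simp only [Set.mem_iUnion, Set.mem_union, Finset.mem_erase, Finset.mem_univ, and_true]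
  constructor
  · rintro ⟨C', hz⟩
    by_cases hC : C' = C
    · rw [hC, Function.update_self] at hz
      exact Or.inr hz
    · rw [Function.update_of_ne hC] at hz
      exact Or.inl ⟨C', hC, hz⟩
  · rintro (⟨C', hC, hz⟩ | hz)
    · exact ⟨C', by rwa [Function.update_of_ne hC]⟩
    · exact ⟨C, by rwa [Function.update_self]⟩

/-- `K = k(Z C' : C' ≠ C)` has `trdeg ≤ r - 1` (`trdeg_pts`), so `κ/K` is not algebraic; the degree is
`pdeg K (a • X + b • Y)` (`adjoin_adjoin_left`): `pdeg_par`, `par_quad`. -/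
theorem G_quad {r : ℕ} {k κ : Type u} [Field k] [Field κ] [Algebra k κ] [DecidableEq κ]
    (h2 : (2 : k) = 0) (htr : Algebra.trdeg k κ = r) (Z : Fin r → (Ec κ).Point) (C : Fin r)
    (X Y : (Ec κ).Point) : ∃ α β γ : ℤ, ∀ a b : ℤ,
      (Module.finrank (adjoin k (⋃ C', pf k (Function.update Z C (a • X + b • Y) C'))) κ : ℤ) =
        α * a ^ 2 + β * a * b + γ * b ^ 2 := by
  set S : Set κ := ⋃ C' ∈ Finset.univ.erase C, pf k (Z C') with hS
  set K : IntermediateField k κ := adjoin k S with hK
  have hKtr : Algebra.trdeg k K ≤ ((Finset.univ.erase C).card : Cardinal) :=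
    trdeg_pts Z (Finset.univ.erase C)
  have hcard : (Finset.univ.erase C).card + 1 = r := by
    rw [Finset.card_erase_add_one (Finset.mem_univ C), Finset.card_univ, Fintype.card_fin]
  have hnal : ¬ Algebra.IsAlgebraic K κ := by
    intro hal
    have h3 := trdeg_add_eq k K (A := κ)
    have h4 : Algebra.trdeg K κ = 0 := trdeg_eq_zero
    rw [h4, add_zero, htr] at h3
    rw [h3] at hKtr
    have h5 : r ≤ (Finset.univ.erase C).card := by exact_mod_cast hKtr
    omega
  have h2K : (2 : K) = 0 := by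
    have h9 := congrArg (algebraMap k K) h2
    rwa [map_zero, map_ofNat] at h9
  have hf : ∀ P : (Ec κ).Point,
      Module.finrank (adjoin k (⋃ C', pf k (Function.update Z C P C'))) κ = pdeg K P := by
    intro P
    rw [V12a_pf Z C P, ← adjoin_adjoin_left]
    have hpf : pf k P = pf K P := by
      cases P <;> rfl
    rw [hpf]
    rfl
  have hpar : ∀ P Q : (Ec κ).Point, (pdeg K (P + Q) : ℤ) + (pdeg K (P - Q) : ℤ) =
      2 * ((pdeg K P : ℤ) + (pdeg K Q : ℤ)) := by
    intro P Q
    exact_mod_cast pdeg_par (K := K) h2K hnal P Q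
  refine ⟨(pdeg K X : ℤ), (pdeg K (X + Y) : ℤ) - pdeg K X - pdeg K Y, (pdeg K Y : ℤ), ?_⟩
  intro a b
  rw [hf]
  rw [par_quad (fun P : (Ec κ).Point => (pdeg K P : ℤ)) hpar X Y a b]
  ring

end MP2619.W
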