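import Pool.Agent.Lib.MP_2619d0_ag.R.G2

/-!
# Reflection in points of small dimension, sharp range: definitions (characteristic two, blocks)
-/

set_option autoImplicit false

namespace MP2619.W

universe u

open IntermediateField MP2619.R

/-- the sum of the cubes of the coordinates with label `c` -/
def cb {M : Type u} [Field M] {n : ℕ} (p : Fin n → ℕ) (c : ℕ) (x : Fin n → M) : M :=
  ∑ i, if p i = c then x i ^ 3 else 0

/-- the field generated over `k` by the quotients `y i / y j`, `i` and `j` with the same label -/
def ratq (k : Type u) {M : Type u} [Field k] [Field M] [Algebra k M] {n : ℕ} (q : Fin n → ℕ)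
    (y : Fin n → M) : IntermediateField k M :=
  adjoin k {z : M | ∃ i j, q i = q j ∧ z = y i / y j}

/-- multiply the coordinates in `A` by `c` -/
def tw {M : Type u} [Field M] {n : ℕ} (A : Finset (Fin n)) (c : M) (x : Fin n → M) : Fin n → M :=
  fun i => if i ∈ A then c * x i else x i

/-- Block data: labels `p` for `x`, labels `q` for `y`. -/
structure Dat (n : ℕ) (p q : Fin n → ℕ) (e : ℕ) (k : Type u) (M : Type u) [Field k] [Field M]
    [Algebra k M] (x y : Fin n → M) : Prop where
  two : (2 : k) = 0
  om : ∃ w : k, w ^ 2 + w + 1 = 0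
  pr : Pr k (fun i => x i + y i)
  Fx : ∀ c, cb p c x = 0
  Fy : ∀ c, cb q c y = 0
  small : Algebra.trdeg k (ratq k q y) < e

/-- there are no block data -/
def NoDat (n : ℕ) (p q : Fin n → ℕ) (e : ℕ) : Prop :=
  ∀ (k M : Type u) [Field k] [Field M] [Algebra k M] (x y : Fin n → M), ¬ Dat n p q e k M x y

/-- there are block data -/
def HasDat (n : ℕ) (p q : Fin n → ℕ) (e : ℕ) : Prop :=
  ∃ (k M : Type u) (_ : Field k) (_ : Field M) (_ : Algebra k M) (x y : Fin n → M),
    Dat n p q e k M x y

/-- the label `0` occurs `m` times, every other label `0` or `3` times -/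
structure Lab (n m : ℕ) (q : Fin n → ℕ) : Prop where
  big : (Finset.univ.filter fun i => q i = 0).card = m
  small : ∀ c, c ≠ 0 → (Finset.univ.filter fun i => q i = c).card = 0 ∨
    (Finset.univ.filter fun i => q i = c).card = 3

/-- no block data with one block of size `m` and all others of size three, in the sharp range -/
def T (m e : ℕ) : Prop := ∀ (n : ℕ) (q : Fin n → ℕ), Lab n m q → (1 ≤ m → 6 * e + 3 ≤ n + 2 * m) →
  (m = 0 → 6 * e ≤ n + 3) → NoDat.{u} n q q e

/-- `O` is an odd place over `k(X + Y)`, `X` and `Y` are integral -/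
structure Pl (k : Type u) {M : Type u} [Field k] [Field M] [Algebra k M] {n : ℕ} (X Y : Fin n → M)
    (O : ValuationSubring M) : Prop where
  ind : AlgebraicIndependent k (fun i => X i + Y i)
  op : OP (adjoin k (Set.range fun i => X i + Y i)) O
  X_mem : ∀ i, X i ∈ O
  Y_mem : ∀ i, Y i ∈ O

end MP2619.W
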