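import Pool.Agent.Lib.MP_2619d0_ag.R.D1

/-!
Row V1: degrees of functions.
-/

set_option autoImplicit false

namespace MP2619.W

universe v u

open IntermediateField MP2619.R

variable {K : Type v} {L : Type u} [Field K] [Field L] [Algebra K L]

/-- `[L : K(a)]` (`0` if infinite) -/
noncomputable def dg (K : Type v) {L : Type u} [Field K] [Field L] [Algebra K L] (a : L) : ℕ :=
  Module.finrank (adjoin K ({a} : Set L)) L

/-- `[L : K(a, b)]` (`0` if infinite) -/
noncomputable def dp (K : Type v) {L : Type u} [Field K] [Field L] [Algebra K L] (a b : L) : ℕ :=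
  Module.finrank (adjoin K ({a, b} : Set L)) L

private theorem V1_aux (hL : ¬ Algebra.IsAlgebraic K L) {S : Set L}
    (hS : ∀ x ∈ S, IsAlgebraic K x) : Module.finrank (adjoin K S) L = 0 := by
  by_contra h
  apply hL
  have : FiniteDimensional (adjoin K S) L := FiniteDimensional.of_finrank_pos (Nat.pos_of_ne_zero h)
  have h1 : Algebra.IsAlgebraic (adjoin K S) L := Algebra.IsAlgebraic.of_finite _ _
  have h2 : Algebra.IsAlgebraic K (adjoin K S) :=
    IntermediateField.isAlgebraic_adjoin (fun x hx => (hS x hx).isIntegral)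
  exact Algebra.IsAlgebraic.trans K (adjoin K S) L

theorem dg_of_alg (hL : ¬ Algebra.IsAlgebraic K L) {a : L} (ha : IsAlgebraic K a) : dg K a = 0 := by
  refine V1_aux hL ?_
  intro x hx
  rw [Set.mem_singleton_iff] at hx
  rw [hx]; exact ha

theorem dp_of_alg (hL : ¬ Algebra.IsAlgebraic K L) {a b : L} (ha : IsAlgebraic K a)
    (hb : IsAlgebraic K b) : dp K a b = 0 := by
  refine V1_aux hL ?_
  intro x hx
  rcases hx with hx | hx
  · rw [hx]; exact ha
  · rw [Set.mem_singleton_iff] at hx
    rw [hx]; exact hb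

theorem trans_of_dg (hL : ¬ Algebra.IsAlgebraic K L) {a : L} (ha : dg K a ≠ 0) :
    Transcendental K a := by
  intro h
  exact ha (dg_of_alg hL h)
end MP2619.W
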