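import Pool.Agent.Lib.MP_2619d0_ag.W.V1

/-!
Row V1a: degree of a polynomial in a function.
-/

set_option autoImplicit false

namespace MP2619.W

universe v u

open IntermediateField MP2619.R

variable {K : Type v} {L : Type u} [Field K] [Field L] [Algebra K L]

private theorem V1a_relfinrank (P : Polynomial K) {a : L} (ha : Transcendental K a) :
    relfinrank (adjoin K ({Polynomial.aeval a P} : Set L)) (adjoin K ({a} : Set L)) =
      P.natDegree := by
  have hinj : Function.Injective (Polynomial.aeval a : Polynomial K →ₐ[K] L) :=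
    transcendental_iff_injective.mp ha
  have hle := nonZeroDivisors_le_comap_nonZeroDivisors_of_injective
    (Polynomial.aeval a : Polynomial K →ₐ[K] L) hinj
  let φ : RatFunc K →ₐ[K] L := RatFunc.liftAlgHom (Polynomial.aeval a) hle
  have hφ : ∀ Q : Polynomial K, φ (algebraMap (Polynomial K) (RatFunc K) Q) =
      Polynomial.aeval a Q := by
    intro Q
    have h1 := RatFunc.liftAlgHom_apply_div (Polynomial.aeval a : Polynomial K →ₐ[K] L) hle Q 1
    rwa [map_one, map_one, div_one, div_one] at h1
  have e1 : adjoin K ({Polynomial.aeval a P} : Set L) =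
      (adjoin K ({algebraMap (Polynomial K) (RatFunc K) P} : Set (RatFunc K))).map φ := by
    rw [adjoin_map, Set.image_singleton, hφ]
  have e2 : adjoin K ({a} : Set L) = (⊤ : IntermediateField K (RatFunc K)).map φ := by
    rw [← RatFunc.adjoin_X, adjoin_map, Set.image_singleton, ← RatFunc.algebraMap_X, hφ,
      Polynomial.aeval_X]
  rw [e1, e2, relfinrank_map_map, relfinrank_top_right, RatFunc.finrank_eq_max_natDegree,
    RatFunc.num_algebraMap, RatFunc.denom_algebraMap, Polynomial.natDegree_one,
    max_eq_left (Nat.zero_le _)]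

/-- `a` transcendental: `[K(a) : K(P(a))] = deg P` (`a` is a root of `P(X) - P(a)`, irreducible over
`K(P(a))`; or use the known degree of `K(X)/K(f)` in Mathlib). `a` algebraic: both are `0`. -/
theorem dg_poly (hL : ¬ Algebra.IsAlgebraic K L) (P : Polynomial K) (hP : 0 < P.natDegree) (a : L) :
    dg K (Polynomial.aeval a P) = P.natDegree * dg K a := by
  by_cases ha : IsAlgebraic K a
  · rw [dg_of_alg hL ha, mul_zero]
    refine dg_of_alg hL ?_
    exact (adjoin_le_integralClosure ha.isIntegral
      (Polynomial.aeval_mem_adjoin_singleton K a)).isAlgebraic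
  · have h1 : adjoin K ({Polynomial.aeval a P} : Set L) ≤ adjoin K ({a} : Set L) := by
      rw [adjoin_simple_le_iff]
      exact algebra_adjoin_le_adjoin K ({a} : Set L) (Polynomial.aeval_mem_adjoin_singleton K a)
    have h2 := relfinrank_mul_finrank_top h1
    rw [V1a_relfinrank P ha] at h2
    exact h2.symm

private theorem V1a_natDegree {R : Type*} [Field R] (c : R) :
    (Polynomial.X ^ 2 + Polynomial.X - Polynomial.C c : Polynomial R).natDegree = 2 := by
  compute_degree!

/-- `a` transcendental: `[K(a,b) : K(a)]` is `1` or `2`, `[K(a,b) : K(b)]` is `1`, `2` or `3`, and by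
`dg_poly` `[K(a,b) : K(a³)] = 3 [K(a,b) : K(a)] = 2 [K(a,b) : K(b)]` (`a³ = b² + b`), so
`[K(a,b) : K(a)] = 2`. `a` algebraic: both are `0`. -/
theorem dg_eq_two_dp (hL : ¬ Algebra.IsAlgebraic K L) {a b : L} (h : b ^ 2 + b = a ^ 3) :
    dg K a = 2 * dp K a b := by
  by_cases ha : IsAlgebraic K a
  · have hb : IsAlgebraic K b := by
      refine IsAlgebraic.of_aeval (Polynomial.X ^ 2 + Polynomial.X - Polynomial.C 0) ?_ ?_ ?_
      · rw [V1a_natDegree]
        norm_num
      · rw [Polynomial.C_0, sub_zero, mem_nonZeroDivisors_iff_ne_zero]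
        intro h0
        rw [Polynomial.leadingCoeff_eq_zero] at h0
        have h1 := V1a_natDegree (0 : K)
        rw [Polynomial.C_0, sub_zero, h0, Polynomial.natDegree_zero] at h1
        omega
      · have e : Polynomial.aeval b (Polynomial.X ^ 2 + Polynomial.X - Polynomial.C 0 :
            Polynomial K) = a ^ 3 := by
          rw [← h]
          simp
        rw [e]
        exact ha.pow 3
    rw [dg_of_alg hL ha, dp_of_alg hL ha hb]
  · let F : IntermediateField K L := adjoin K ({a} : Set L)
    have haF : a ∈ F := mem_adjoin_simple_self K a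
    have hdp : dp K a b = Module.finrank (adjoin F ({b} : Set L)) L := by
      unfold dp
      rw [← adjoin_simple_adjoin_simple]
      rfl
    have hroot : Polynomial.aeval b (Polynomial.X ^ 2 + Polynomial.X -
        Polynomial.C ((⟨a, haF⟩ : F) ^ 3) : Polynomial F) = 0 := by
      simp only [map_sub, map_add, map_pow, Polynomial.aeval_X, Polynomial.aeval_C, h]
      exact sub_self _
    have hne : (Polynomial.X ^ 2 + Polynomial.X - Polynomial.C ((⟨a, haF⟩ : F) ^ 3) :
        Polynomial F) ≠ 0 := by
      intro h0
      have h1 := V1a_natDegree ((⟨a, haF⟩ : F) ^ 3)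
      rw [h0, Polynomial.natDegree_zero] at h1
      omega
    have hb : IsIntegral F b := isAlgebraic_iff_isIntegral.mp ⟨_, hne, hroot⟩
    have hr : Module.finrank F (adjoin F ({b} : Set L)) ≤ 2 := by
      rw [adjoin.finrank hb]
      have h1 := Polynomial.natDegree_le_of_dvd (minpoly.dvd F b hroot) hne
      rwa [V1a_natDegree] at h1
    have hr0 : 0 < Module.finrank F (adjoin F ({b} : Set L)) := by
      rw [adjoin.finrank hb]
      exact minpoly.natDegree_pos hb
    have h1 : dg K a = Module.finrank F (adjoin F ({b} : Set L)) * dp K a b := by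
      rw [hdp]
      exact (Module.finrank_mul_finrank F (adjoin F ({b} : Set L)) L).symm
    have h2 : adjoin K ({b} : Set L) ≤ adjoin K ({a, b} : Set L) :=
      adjoin.mono K _ _ (by simp)
    have h3 : relfinrank (adjoin K ({b} : Set L)) (adjoin K ({a, b} : Set L)) * dp K a b = dg K b :=
      relfinrank_mul_finrank_top h2
    have h4 : dg K (a ^ 3) = 3 * dg K a := by
      have := dg_poly hL (Polynomial.X ^ 3) (by simp) a
      simpa using this
    have h5 : dg K (b ^ 2 + b) = 2 * dg K b := by
      have := dg_poly hL (Polynomial.X ^ 2 + Polynomial.X - Polynomial.C 0)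
        (by rw [V1a_natDegree]; norm_num) b
      rw [V1a_natDegree] at this
      simpa using this
    rw [h, h4, ← h3] at h5
    rcases Nat.eq_zero_or_pos (dp K a b) with h0 | h0
    · rw [h1, h0, mul_zero, mul_zero]
    · rw [h1] at h5 ⊢
      have h6 : 3 * Module.finrank F (adjoin F ({b} : Set L)) =
          2 * relfinrank (adjoin K ({b} : Set L)) (adjoin K ({a, b} : Set L)) :=
        Nat.eq_of_mul_eq_mul_right h0 (by rw [mul_assoc, mul_assoc]; exact h5)
      have h7 : Module.finrank F (adjoin F ({b} : Set L)) = 2 := by omega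
      rw [h7]
end MP2619.W
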