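import Pool.Agent.Lib.MP_2619d0_ag.W.V1

/-!
Row V3a: the relation between two functions.
-/

set_option autoImplicit false

namespace MP2619.W

universe v u

open IntermediateField MP2619.R

variable {K : Type v} {L : Type u} [Field K] [Field L] [Algebra K L]

private theorem V3a_ev (a b : L) (P : Polynomial (Polynomial K)) :
    Polynomial.aevalAeval a b P =
      P.eval₂ ((Polynomial.aeval a : Polynomial K →ₐ[K] L) : Polynomial K →+* L) b := by
  induction P using Polynomial.induction_on' with
  | add p q hp hq => rw [map_add, Polynomial.eval₂_add, hp, hq]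
  | monomial n c =>
    rw [Polynomial.eval₂_monomial, ← Polynomial.C_mul_X_pow_eq_monomial, map_mul, map_pow,
      Polynomial.aevalAeval_C, Polynomial.aevalAeval_Y]
    rfl

/-- the sum over the adjoined field -/
private theorem V3a_dp (a b : L) :
    dp K a b = Module.finrank (adjoin (adjoin K ({a} : Set L)) ({b} : Set L)) L := by
  have h := adjoin_adjoin_left K ({a} : Set L) ({b} : Set L)
  have h2 : ({a} : Set L) ∪ {b} = {a, b} := Set.singleton_union
  rw [h2] at h
  unfold dp
  rw [← h]
  rfl

private theorem V3a_dp_comm (a b : L) : dp K a b = dp K b a := by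
  unfold dp
  rw [Set.pair_comm]

private theorem V3a_mul (a b : L) :
    dp K a b * Module.finrank (adjoin K ({a} : Set L))
      (adjoin (adjoin K ({a} : Set L)) ({b} : Set L)) = dg K a := by
  rw [V3a_dp, mul_comm]
  exact Module.finrank_mul_finrank _ _ _

/-- Gauss -/
private theorem V3a_gauss {a b : L} (ha : Transcendental K a) (R : Polynomial (Polynomial K))
    (hR : Irreducible R) (h0 : Polynomial.aevalAeval a b R = 0) :
    dp K a b * R.natDegree = dg K a := by
  rw [V3a_ev] at h0
  set F := adjoin K ({a} : Set L) with hF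
  let a' : F := ⟨a, mem_adjoin_simple_self K a⟩
  let φ : Polynomial K →+* F := ((Polynomial.aeval a' : Polynomial K →ₐ[K] F) : Polynomial K →+* F)
  let _ : Algebra (Polynomial K) F := φ.toAlgebra
  have hφ : ∀ p : Polynomial K, ((φ p : F) : L) = Polynomial.aeval a p := by
    intro p
    change algebraMap F L (Polynomial.aeval a' p) = _
    rw [← Polynomial.aeval_algebraMap_apply]
    rfl
  have hinj : Function.Injective φ := by
    rw [injective_iff_map_eq_zero]
    intro p hp
    have h1 := hφ p
    rw [hp] at h1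
    exact (transcendental_iff.mp ha) p h1.symm
  have : FaithfulSMul (Polynomial K) F := (faithfulSMul_iff_algebraMap_injective _ _).mpr hinj
  have : IsFractionRing (Polynomial K) F := by
    apply IsFractionRing.of_field
    intro z
    obtain ⟨r, s, h⟩ := (mem_adjoin_simple_iff K (z : L)).mp z.2
    refine ⟨r, s, ?_⟩
    apply Subtype.ext
    rw [h]
    change _ = (((φ r) / (φ s) : F) : L)
    rw [IntermediateField.coe_div, hφ, hφ]
  have hdeg : R.natDegree ≠ 0 := by
    intro hd
    obtain ⟨c, rfl⟩ := Polynomial.natDegree_eq_zero.mp hd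
    rw [Polynomial.eval₂_C] at h0
    have hc : c = 0 := (transcendental_iff.mp ha) c h0
    apply hR.ne_zero
    rw [hc, map_zero]
  have hprim := hR.isPrimitive hdeg
  have hirr : Irreducible (R.map (algebraMap (Polynomial K) F)) :=
    hprim.irreducible_iff_irreducible_map_fraction_map.mp hR
  have hev : Polynomial.aeval b (R.map (algebraMap (Polynomial K) F)) = 0 := by
    rw [Polynomial.aeval_def, Polynomial.eval₂_map]
    have : (algebraMap F L).comp (algebraMap (Polynomial K) F) =
        ((Polynomial.aeval a : Polynomial K →ₐ[K] L) : Polynomial K →+* L) := by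
      ext p
      · exact hφ _
      · exact hφ _
    rw [this]
    exact h0
  have hne : R.map (algebraMap (Polynomial K) F) ≠ 0 := hirr.ne_zero
  have hint : IsIntegral F b := (IsAlgebraic.isIntegral ⟨_, hne, hev⟩)
  have hmp := minpoly.irreducible hint
  have hassoc : Associated (minpoly F b) (R.map (algebraMap (Polynomial K) F)) :=
    hmp.associated_of_dvd hirr (minpoly.dvd F b hev)
  have hd : (minpoly F b).natDegree = R.natDegree := by
    rw [Polynomial.natDegree_eq_of_degree_eq (Polynomial.degree_eq_degree_of_associated hassoc)]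
    exact Polynomial.natDegree_map_eq_of_injective hinj R
  rw [← hd, ← adjoin.finrank hint]
  exact V3a_mul a b

/-- an algebraic relation -/
private theorem V3a_rel {a b : L} (ha : dg K a ≠ 0) :
    ∃ P : Polynomial (Polynomial K), P ≠ 0 ∧ Polynomial.aevalAeval a b P = 0 := by
  set F := adjoin K ({a} : Set L) with hF
  by_cases htr : IsAlgebraic K a
  · obtain ⟨p, hp, hpa⟩ := htr
    refine ⟨Polynomial.C p, ?_, ?_⟩
    · simpa using hp
    · rw [Polynomial.aevalAeval_C, hpa]
  have ha' : Transcendental K a := htr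
  let a' : F := ⟨a, mem_adjoin_simple_self K a⟩
  let φ : Polynomial K →+* F := ((Polynomial.aeval a' : Polynomial K →ₐ[K] F) : Polynomial K →+* F)
  let _ : Algebra (Polynomial K) F := φ.toAlgebra
  let _ : Algebra (Polynomial K) L :=
    ((Polynomial.aeval a : Polynomial K →ₐ[K] L) : Polynomial K →+* L).toAlgebra
  have hφ : ∀ p : Polynomial K, ((φ p : F) : L) = Polynomial.aeval a p := by
    intro p
    change algebraMap F L (Polynomial.aeval a' p) = _
    rw [← Polynomial.aeval_algebraMap_apply]
    rfl
  have hinj : Function.Injective φ := by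
    rw [injective_iff_map_eq_zero]
    intro p hp
    have h1 := hφ p
    rw [hp] at h1
    exact (transcendental_iff.mp ha') p h1.symm
  have : FaithfulSMul (Polynomial K) F := (faithfulSMul_iff_algebraMap_injective _ _).mpr hinj
  have : IsFractionRing (Polynomial K) F := by
    apply IsFractionRing.of_field
    intro z
    obtain ⟨r, s, h⟩ := (mem_adjoin_simple_iff K (z : L)).mp z.2
    refine ⟨r, s, ?_⟩
    apply Subtype.ext
    rw [h]
    change _ = (((φ r) / (φ s) : F) : L)
    rw [IntermediateField.coe_div, hφ, hφ]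
  have : IsScalarTower (Polynomial K) F L :=
    IsScalarTower.of_algebraMap_eq fun p => (hφ p).symm
  have : Module.Finite F L := Module.finite_of_finrank_pos (Nat.pos_of_ne_zero ha)
  have halg : IsAlgebraic F b := Algebra.IsAlgebraic.isAlgebraic b
  obtain ⟨P, hP, hPb⟩ := (IsFractionRing.isAlgebraic_iff (Polynomial K) F L).mpr halg
  refine ⟨P, hP, ?_⟩
  rw [V3a_ev]
  exact hPb

private theorem V3a_factor {a b : L} (P : Polynomial (Polynomial K)) :
    P ≠ 0 → Polynomial.aevalAeval a b P = 0 →
      ∃ R, Irreducible R ∧ R ∣ P ∧ Polynomial.aevalAeval a b R = 0 := by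
  induction P using UniqueFactorizationMonoid.induction_on_prime with
  | h₁ => intro h; exact absurd rfl h
  | h₂ P hu =>
    intro _ h0
    have := hu.map (Polynomial.aevalAeval (R := K) a b)
    rw [h0] at this
    exact absurd this not_isUnit_zero
  | h₃ P p hP0 hp ih =>
    intro hne h0
    rw [map_mul] at h0
    rcases mul_eq_zero.mp h0 with h | h
    · exact ⟨p, hp.irreducible, Dvd.intro _ rfl, h⟩
    · obtain ⟨R, h1, h2, h3⟩ := ih hP0 h
      exact ⟨R, h1, h2.mul_left p, h3⟩

private theorem V3a_coeff_swap (P : Polynomial (Polynomial K)) (i j : ℕ) :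
    ((Polynomial.Bivariate.swap P).coeff i).coeff j = (P.coeff j).coeff i := by
  induction P using Polynomial.induction_on' with
  | add p q hp hq => rw [map_add]; simp [hp, hq]
  | monomial n c =>
    induction c using Polynomial.induction_on' with
    | add p q hp hq => rw [map_add, map_add]; simp only [Polynomial.coeff_add, hp, hq]
    | monomial m r =>
      rw [Polynomial.Bivariate.swap_monomial_monomial]
      simp only [Polynomial.coeff_monomial]
      split_ifs <;> simp_all [Polynomial.coeff_monomial]

/-- expansion of the value -/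
private theorem V3a_sum (a b : L) (R : Polynomial (Polynomial K)) (d1 d2 : ℕ)
    (h1 : (Polynomial.Bivariate.swap R).natDegree ≤ d1) (h2 : R.natDegree ≤ d2) :
    Polynomial.aevalAeval a b R = ∑ i ∈ Finset.range (d1 + 1), ∑ j ∈ Finset.range (d2 + 1),
        algebraMap K L ((R.coeff j).coeff i) * a ^ i * b ^ j := by
  rw [V3a_ev, Polynomial.eval₂_eq_sum_range' _ (Nat.lt_succ_of_le h2), Finset.sum_comm]
  refine Finset.sum_congr rfl fun j _ => ?_
  have h3 : (R.coeff j).natDegree < d1 + 1 := by
    rw [Nat.lt_succ_iff, Polynomial.natDegree_le_iff_coeff_eq_zero]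
    intro i hi
    rw [← V3a_coeff_swap]
    rw [Polynomial.coeff_eq_zero_of_natDegree_lt (lt_of_le_of_lt h1 hi), Polynomial.coeff_zero]
  change Polynomial.aeval a (R.coeff j) * b ^ j = _
  rw [Polynomial.aeval_eq_sum_range' h3, Finset.sum_mul]
  refine Finset.sum_congr rfl fun i _ => ?_
  rw [Algebra.smul_def]

private theorem V3a_main (hL : ¬ Algebra.IsAlgebraic K L) (a b : L) (hfin : dg K a ≠ 0) :
    dp K a b ≠ 0 ∧ ∃ (d1 d2 : ℕ) (c : ℕ → ℕ → K), dp K a b * d1 ≤ dg K b ∧ dp K a b * d2 ≤ dg K a ∧
      (∃ i ≤ d1, ∃ j ≤ d2, c i j ≠ 0) ∧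
      ∑ i ∈ Finset.range (d1 + 1), ∑ j ∈ Finset.range (d2 + 1),
        algebraMap K L (c i j) * a ^ i * b ^ j = 0 := by
  have hdp : dp K a b ≠ 0 := by
    intro h
    apply hfin
    rw [← V3a_mul a b, h, zero_mul]
  refine ⟨hdp, ?_⟩
  have ha : Transcendental K a := trans_of_dg hL hfin
  obtain ⟨R, hR, h0, hdb⟩ : ∃ R : Polynomial (Polynomial K), Irreducible R ∧
      Polynomial.aevalAeval a b R = 0 ∧
      dp K a b * (Polynomial.Bivariate.swap R).natDegree ≤ dg K b := by
    by_cases hb : IsAlgebraic K b
    · have hne : (minpoly K b).map (Polynomial.C : K →+* Polynomial K) ≠ 0 := by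
        rw [Polynomial.map_ne_zero_iff Polynomial.C_injective]
        exact minpoly.ne_zero hb.isIntegral
      have hval : Polynomial.aevalAeval a b ((minpoly K b).map (Polynomial.C : K →+* Polynomial K)) = 0 := by
        rw [← Polynomial.Bivariate.aevalAeval_swap, Polynomial.Bivariate.swap_map_C,
          Polynomial.aevalAeval_C, minpoly.aeval]
      obtain ⟨R, h1, h2, h3⟩ := V3a_factor _ hne hval
      refine ⟨R, h1, h3, ?_⟩
      have h4 : Polynomial.Bivariate.swap R ∣ Polynomial.C (minpoly K b) := by
        rw [← Polynomial.Bivariate.swap_map_C]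
        exact map_dvd _ h2
      have h5 := Polynomial.natDegree_le_of_dvd h4
        (by rw [Ne, Polynomial.C_eq_zero]; exact minpoly.ne_zero hb.isIntegral)
      rw [Polynomial.natDegree_C] at h5
      rw [Nat.le_zero.mp h5, mul_zero]
      exact Nat.zero_le _
    · obtain ⟨P, hP, hPab⟩ := V3a_rel (b := b) hfin
      obtain ⟨R, h1, h2, h3⟩ := V3a_factor _ hP hPab
      refine ⟨R, h1, h3, ?_⟩
      have h4 : Irreducible (Polynomial.Bivariate.swap R) :=
        (MulEquiv.irreducible_iff (Polynomial.Bivariate.swap (R := K))).mpr h1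
      have h5 : Polynomial.aevalAeval b a (Polynomial.Bivariate.swap R) = 0 := by
        rw [Polynomial.Bivariate.aevalAeval_swap]
        exact h3
      rw [V3a_dp_comm]
      exact le_of_eq (V3a_gauss hb _ h4 h5)
  refine ⟨(Polynomial.Bivariate.swap R).natDegree, R.natDegree, fun i j => (R.coeff j).coeff i, hdb,
    le_of_eq (V3a_gauss ha R hR h0), ?_, ?_⟩
  · have hl : R.coeff R.natDegree ≠ 0 := by
      rw [Polynomial.coeff_natDegree, Ne, Polynomial.leadingCoeff_eq_zero]
      exact hR.ne_zero
    have hl2 : (R.coeff R.natDegree).coeff (R.coeff R.natDegree).natDegree ≠ 0 := by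
      rw [Polynomial.coeff_natDegree, Ne, Polynomial.leadingCoeff_eq_zero]
      exact hl
    refine ⟨(R.coeff R.natDegree).natDegree, ?_, R.natDegree, le_rfl, hl2⟩
    by_contra hlt
    rw [not_le] at hlt
    rw [← V3a_coeff_swap, Polynomial.coeff_eq_zero_of_natDegree_lt hlt] at hl2
    exact hl2 rfl
  · rw [← V3a_sum a b R _ _ le_rfl le_rfl]
    exact h0

/-- `a` or `b` is transcendental (`dg_of_alg`) and `L` has transcendence degree one over `K`. Both
transcendental: primitive minimal polynomial `R ∈ K[x][y]` of `b` over `K(a)`: degree in `y` is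
`[K(a,b) : K(a)]`, irreducible in `K[x,y]`; by Gauss' lemma with the roles exchanged the degree in `x` is
`[K(a,b) : K(b)]`. If `a` is algebraic: the minimal polynomial of `a` (`d2 = 0`,
`[K(a,b) : K(b)] = [K(a) : K]`); the same if `b` is algebraic. `dp K a b * [K(a,b) : K(a)] = dg K a`. -/
theorem exists_rel (hL : ¬ Algebra.IsAlgebraic K L) (a b : L) (hfin : dg K a ≠ 0 ∨ dg K b ≠ 0) :
    dp K a b ≠ 0 ∧ ∃ (d1 d2 : ℕ) (c : ℕ → ℕ → K), dp K a b * d1 ≤ dg K b ∧ dp K a b * d2 ≤ dg K a ∧
      (∃ i ≤ d1, ∃ j ≤ d2, c i j ≠ 0) ∧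
      ∑ i ∈ Finset.range (d1 + 1), ∑ j ∈ Finset.range (d2 + 1),
        algebraMap K L (c i j) * a ^ i * b ^ j = 0 := by
  rcases hfin with h | h
  · exact V3a_main hL a b h
  · obtain ⟨h1, d1, d2, c, h2, h3, ⟨i, hi, j, hj, hc⟩, h5⟩ := V3a_main hL b a h
    rw [V3a_dp_comm] at h1 h2 h3
    refine ⟨h1, d2, d1, fun i j => c j i, h3, h2, ⟨j, hj, i, hi, hc⟩, ?_⟩
    rw [Finset.sum_comm, ← h5]
    refine Finset.sum_congr rfl fun i _ => Finset.sum_congr rfl fun j _ => ?_
    ring
end MP2619.W
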