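import Pool.Agent.Lib.MP_2619d0_ag.W.V1

/-!
Row V3b: dimension of the space of monomials.
-/

set_option autoImplicit false

namespace MP2619.W

universe v u

open IntermediateField MP2619.R

variable {K : Type v} {L : Type u} [Field K] [Field L] [Algebra K L]

/-- the monomial `x^i y^j` -/
private noncomputable def V3b_mon (K : Type v) [Field K] (i j : ℕ) : MvPolynomial (Fin 2) K :=
  MvPolynomial.X 0 ^ i * MvPolynomial.X 1 ^ j

private theorem V3b_mon_eq (i j : ℕ) :
    V3b_mon K i j = MvPolynomial.monomial (Finsupp.single 0 i + Finsupp.single 1 j) (1 : K) := by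
  rw [V3b_mon, MvPolynomial.X_pow_eq_monomial, MvPolynomial.X_pow_eq_monomial,
    MvPolynomial.monomial_mul, mul_one]

private theorem V3b_li (p q : ℕ) :
    LinearIndependent K (fun t : Fin p × Fin q => V3b_mon K (t.1 : ℕ) (t.2 : ℕ)) := by
  have h := (MvPolynomial.basisMonomials (Fin 2) K).linearIndependent.comp
    (fun t : Fin p × Fin q => (Finsupp.single 0 (t.1 : ℕ) + Finsupp.single 1 (t.2 : ℕ) :
      Fin 2 →₀ ℕ)) (by
        rintro ⟨i, j⟩ ⟨i', j'⟩ h
        have h0 := DFunLike.congr_fun h 0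
        have h1 := DFunLike.congr_fun h 1
        simp at h0 h1
        ext <;> simp [h0, h1])
  have e : (fun t : Fin p × Fin q => V3b_mon K (t.1 : ℕ) (t.2 : ℕ)) =
      (MvPolynomial.basisMonomials (Fin 2) K) ∘
        (fun t : Fin p × Fin q => (Finsupp.single 0 (t.1 : ℕ) + Finsupp.single 1 (t.2 : ℕ) :
          Fin 2 →₀ ℕ)) := by
    funext t
    rw [V3b_mon_eq, Function.comp_apply, MvPolynomial.coe_basisMonomials]
  rw [e]
  exact h

/-- the span of the monomials of bidegree `< (p, q)` -/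
private noncomputable def V3b_sp (K : Type v) [Field K] (p q : ℕ) :
    Submodule K (MvPolynomial (Fin 2) K) :=
  Submodule.span K (Set.range (fun t : Fin p × Fin q => V3b_mon K (t.1 : ℕ) (t.2 : ℕ)))

private theorem V3b_fr (p q : ℕ) : Module.finrank K (V3b_sp K p q) = p * q := by
  rw [V3b_sp, finrank_span_eq_card (V3b_li p q)]
  simp

private instance V3b_fd (p q : ℕ) : FiniteDimensional K (V3b_sp K p q) := by
  unfold V3b_sp
  exact FiniteDimensional.span_of_finite K (Set.finite_range _)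

private theorem V3b_mem {p q i j : ℕ} (hi : i < p) (hj : j < q) : V3b_mon K i j ∈ V3b_sp K p q :=
  Submodule.subset_span ⟨(⟨i, hi⟩, ⟨j, hj⟩), rfl⟩

private theorem V3b_mul_mem {d1 d2 m : ℕ} (c : ℕ → ℕ → K) {u : MvPolynomial (Fin 2) K}
    (hu : u ∈ V3b_sp K (m + 1 - d1) (m + 1 - d2)) :
    (∑ i ∈ Finset.range (d1 + 1), ∑ j ∈ Finset.range (d2 + 1), c i j • V3b_mon K i j) * u ∈
      V3b_sp K (m + 1) (m + 1) := by
  unfold V3b_sp at hu
  induction hu using Submodule.span_induction with
  | mem x hx =>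
    obtain ⟨t, rfl⟩ := hx
    rw [Finset.sum_mul]
    refine Submodule.sum_mem _ fun i hi => ?_
    rw [Finset.sum_mul]
    refine Submodule.sum_mem _ fun j hj => ?_
    rw [smul_mul_assoc]
    refine Submodule.smul_mem _ _ ?_
    have h : V3b_mon K i j * V3b_mon K (t.1 : ℕ) (t.2 : ℕ) =
        V3b_mon K (i + t.1) (j + t.2) := by
      simp only [V3b_mon, pow_add]
      ring
    rw [h]
    have h1 := t.1.2
    have h2 := t.2.2
    rw [Finset.mem_range] at hi hj
    exact V3b_mem (by omega) (by omega)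
  | zero => rw [mul_zero]; exact Submodule.zero_mem _
  | add x y _ _ hx hy => rw [mul_add]; exact Submodule.add_mem _ hx hy
  | smul r x _ hx => rw [mul_smul_comm]; exact Submodule.smul_mem _ _ hx

private theorem V3b_ne {d1 d2 : ℕ} (c : ℕ → ℕ → K) (hne : ∃ i ≤ d1, ∃ j ≤ d2, c i j ≠ 0) :
    (∑ i ∈ Finset.range (d1 + 1), ∑ j ∈ Finset.range (d2 + 1), c i j • V3b_mon K i j) ≠ 0 := by
  obtain ⟨i0, hi0, j0, hj0, h0⟩ := hne
  intro h
  have h2 := congrArg (MvPolynomial.coeff (Finsupp.single 0 i0 + Finsupp.single 1 j0)) h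
  simp only [MvPolynomial.coeff_sum, MvPolynomial.coeff_smul, V3b_mon_eq,
    MvPolynomial.coeff_monomial, MvPolynomial.coeff_zero] at h2
  rw [Finset.sum_eq_single i0, Finset.sum_eq_single j0] at h2
  · simp at h2
    exact h0 h2
  · intro j _ hj
    rw [if_neg, smul_zero]
    intro h3
    have h4 := DFunLike.congr_fun h3 1
    simp at h4
    exact hj h4
  · intro h3
    exact absurd (Finset.mem_range.2 (by omega)) h3
  · intro i _ hi
    refine Finset.sum_eq_zero fun j _ => ?_
    rw [if_neg, smul_zero]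
    intro h3
    have h4 := DFunLike.congr_fun h3 0
    simp at h4
    exact hi h4
  · intro h3
    exact absurd (Finset.mem_range.2 (by omega)) h3

/-- `m < d1` or `m < d2`: there are only `(m + 1)²` monomials. Otherwise the kernel of the evaluation map
from `{P ∈ K[x,y] : deg_x, deg_y ≤ m}` (dimension `(m+1)²`) contains the multiples of the relation by
polynomials of bidegree `≤ (m - d1, m - d2)`, of dimension `(m + 1 - d1)(m + 1 - d2)` (multiplication is
injective), and `(m+1)² - (m+1-d1)(m+1-d2) ≤ (m+1)(d1+d2)`. -/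
theorem dim_bound (a b : L) (d1 d2 : ℕ) (c : ℕ → ℕ → K) (hne : ∃ i ≤ d1, ∃ j ≤ d2, c i j ≠ 0)
    (hrel : ∑ i ∈ Finset.range (d1 + 1), ∑ j ∈ Finset.range (d2 + 1),
        algebraMap K L (c i j) * a ^ i * b ^ j = 0) (m : ℕ) :
    Module.finrank K (Submodule.span K {z : L | ∃ i ≤ m, ∃ j ≤ m, z = a ^ i * b ^ j}) ≤
      (m + 1) * (d1 + d2) := by
  classical
  set ev : MvPolynomial (Fin 2) K →ₐ[K] L := MvPolynomial.aeval ![a, b] with hev
  have hevm : ∀ i j : ℕ, ev (V3b_mon K i j) = a ^ i * b ^ j := by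
    intro i j
    simp [hev, V3b_mon]
  set P : MvPolynomial (Fin 2) K :=
    ∑ i ∈ Finset.range (d1 + 1), ∑ j ∈ Finset.range (d2 + 1), c i j • V3b_mon K i j with hP
  have hevP : ev P = 0 := by
    rw [hP, map_sum, ← hrel]
    refine Finset.sum_congr rfl fun i _ => ?_
    rw [map_sum]
    refine Finset.sum_congr rfl fun j _ => ?_
    rw [map_smul, hevm, Algebra.smul_def, mul_assoc]
  have hPne : P ≠ 0 := V3b_ne c hne
  -- the span is the image
  have himg : Submodule.span K {z : L | ∃ i ≤ m, ∃ j ≤ m, z = a ^ i * b ^ j} =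
      (V3b_sp K (m + 1) (m + 1)).map ev.toLinearMap := by
    rw [V3b_sp, Submodule.map_span]
    congr 1
    ext z
    constructor
    · rintro ⟨i, hi, j, hj, rfl⟩
      exact ⟨_, ⟨(⟨i, by omega⟩, ⟨j, by omega⟩), rfl⟩, by simp [hevm]⟩
    · rintro ⟨_, ⟨t, rfl⟩, rfl⟩
      exact ⟨t.1, by omega, t.2, by omega, by simp [hevm]⟩
  set g : V3b_sp K (m + 1) (m + 1) →ₗ[K] L := ev.toLinearMap.domRestrict _ with hg
  have hrange : LinearMap.range g = (V3b_sp K (m + 1) (m + 1)).map ev.toLinearMap := by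
    rw [hg, LinearMap.range_domRestrict]
  have hrn := LinearMap.finrank_range_add_finrank_ker g
  rw [V3b_fr, hrange, ← himg] at hrn
  -- the kernel is large
  have hker : (m + 1 - d1) * (m + 1 - d2) ≤ Module.finrank K (LinearMap.ker g) := by
    rw [← V3b_fr (K := K) (m + 1 - d1) (m + 1 - d2)]
    let f : V3b_sp K (m + 1 - d1) (m + 1 - d2) →ₗ[K] LinearMap.ker g :=
      { toFun := fun u => ⟨⟨P * (u : MvPolynomial (Fin 2) K), V3b_mul_mem c u.2⟩, by
          simp [hg, hevP]⟩
        map_add' := fun u w => by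
          apply Subtype.ext; apply Subtype.ext
          simp [mul_add]
        map_smul' := fun r u => by
          apply Subtype.ext; apply Subtype.ext
          simp }
    refine LinearMap.finrank_le_finrank_of_injective (f := f) ?_
    intro u w h
    have h1 : P * (u : MvPolynomial (Fin 2) K) = P * (w : MvPolynomial (Fin 2) K) :=
      congrArg (fun z : LinearMap.ker g => ((z : V3b_sp K (m + 1) (m + 1)) :
        MvPolynomial (Fin 2) K)) h
    exact Subtype.ext (mul_left_cancel₀ hPne h1)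
  -- arithmetic
  set x := Module.finrank K (Submodule.span K {z : L | ∃ i ≤ m, ∃ j ≤ m, z = a ^ i * b ^ j})
  set y := Module.finrank K (LinearMap.ker g)
  by_cases h1 : m + 1 ≤ d1
  · have : (m + 1) * (m + 1) ≤ (m + 1) * (d1 + d2) := Nat.mul_le_mul_left _ (by omega)
    omega
  by_cases h2 : m + 1 ≤ d2
  · have : (m + 1) * (m + 1) ≤ (m + 1) * (d1 + d2) := Nat.mul_le_mul_left _ (by omega)
    omega
  · obtain ⟨p, hp⟩ := Nat.exists_eq_add_of_le (show d1 ≤ m + 1 by omega)
    obtain ⟨q, hq⟩ := Nat.exists_eq_add_of_le (show d2 ≤ m + 1 by omega)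
    have e1 : m + 1 - d1 = p := by omega
    have e2 : m + 1 - d2 = q := by omega
    rw [e1, e2] at hker
    have h3 : (m + 1) * (m + 1) ≤ (m + 1) * (d1 + d2) + p * q := by
      have e3 : (m + 1) * (m + 1) = (d1 + p) * (m + 1) := by rw [← hp]
      have e4 : (m + 1) * (d1 + d2) = (m + 1) * d1 + (m + 1) * d2 := by ring
      have e5 : p * (m + 1) = p * (d2 + q) := by rw [← hq]
      have e6 : p * d2 ≤ (m + 1) * d2 := Nat.mul_le_mul_right _ (by omega)
      nlinarith
    omega

end MP2619.W
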