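import Pool.Agent.Lib.MP_2619d0_ag.W.V3a
import Pool.Agent.Lib.MP_2619d0_ag.W.V3b

/-!
Row V4a: growth.
-/

set_option autoImplicit false

namespace MP2619.W

universe v u

open IntermediateField MP2619.R

variable {K : Type v} {L : Type u} [Field K] [Field L] [Algebra K L]

/-- `V_m` -/
private noncomputable def V4a_V (K : Type v) {L : Type u} [Field K] [Field L] [Algebra K L]
    (a b : L) (m : ℕ) : Submodule K L :=
  Submodule.span K {z : L | ∃ i ≤ m, ∃ j ≤ m, z = a ^ i * b ^ j}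

private theorem V4a_fin (a b : L) (m : ℕ) : Module.Finite K (V4a_V K a b m) := by
  have hf : ({z : L | ∃ i ≤ m, ∃ j ≤ m, z = a ^ i * b ^ j}).Finite := by
    have h1 : {z : L | ∃ i ≤ m, ∃ j ≤ m, z = a ^ i * b ^ j} ⊆
        (fun p : ℕ × ℕ => a ^ p.1 * b ^ p.2) ''
          ((Finset.range (m + 1) ×ˢ Finset.range (m + 1) : Finset (ℕ × ℕ)) : Set (ℕ × ℕ)) := by
      rintro z ⟨i, hi, j, hj, rfl⟩
      refine ⟨(i, j), ?_, rfl⟩
      simp only [Finset.coe_product, Finset.coe_range, Set.mem_prod, Set.mem_Iio]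
      omega
    exact ((Finset.finite_toSet _).image _).subset h1
  exact FiniteDimensional.span_of_finite K hf

private theorem V4a_mono (a b : L) {m n : ℕ} (h : m ≤ n) : V4a_V K a b m ≤ V4a_V K a b n := by
  refine Submodule.span_mono ?_
  rintro z ⟨i, hi, j, hj, rfl⟩
  exact ⟨i, hi.trans h, j, hj.trans h, rfl⟩

private theorem V4a_mul (a b : L) {m n : ℕ} {x y : L} (hx : x ∈ V4a_V K a b m)
    (hy : y ∈ V4a_V K a b n) : x * y ∈ V4a_V K a b (m + n) := by
  have h1 : x * y ∈ V4a_V K a b m * V4a_V K a b n := Submodule.mul_mem_mul hx hy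
  rw [V4a_V, V4a_V, Submodule.span_mul_span] at h1
  refine Submodule.span_mono ?_ h1
  rintro z hz
  obtain ⟨_, ⟨i, hi, j, hj, rfl⟩, _, ⟨i', hi', j', hj', rfl⟩, rfl⟩ := Set.mem_mul.1 hz
  exact ⟨i + i', by omega, j + j', by omega, by ring⟩

private theorem V4a_one (a b : L) (m : ℕ) : (1 : L) ∈ V4a_V K a b m :=
  Submodule.subset_span ⟨0, by omega, 0, by omega, by simp⟩

private theorem V4a_alg (a b : L) {x : L} (hx : x ∈ Algebra.adjoin K ({a, b} : Set L)) :
    ∃ m, x ∈ V4a_V K a b m := by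
  induction hx using Algebra.adjoin_induction with
  | mem x hx =>
    rcases hx with rfl | hx
    · exact ⟨1, Submodule.subset_span ⟨1, le_rfl, 0, by omega, by simp⟩⟩
    · rw [Set.mem_singleton_iff] at hx
      subst hx
      exact ⟨1, Submodule.subset_span ⟨0, by omega, 1, le_rfl, by simp⟩⟩
  | algebraMap c =>
    refine ⟨0, ?_⟩
    rw [Algebra.algebraMap_eq_smul_one]
    exact Submodule.smul_mem _ _ (V4a_one a b 0)
  | add x y _ _ hx hy =>
    obtain ⟨m, hm⟩ := hx
    obtain ⟨n, hn⟩ := hy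
    exact ⟨m + n, add_mem (V4a_mono a b (by omega) hm) (V4a_mono a b (by omega) hn)⟩
  | mul x y _ _ hx hy =>
    obtain ⟨m, hm⟩ := hx
    obtain ⟨n, hn⟩ := hy
    exact ⟨m + n, V4a_mul a b hm hn⟩

/-- `(v_k) ↦ ∑ v_k ε_k` on `V_N` -/
private noncomputable def V4a_Phi (a b : L) {l : ℕ} (e : Fin l → L) (N : ℕ) :
    (Fin l → V4a_V K a b N) →ₗ[K] L :=
  ∑ k, (LinearMap.mulRight K (e k)).comp ((V4a_V K a b N).subtype.comp (LinearMap.proj k))

private theorem V4a_Phi_apply (a b : L) {l : ℕ} (e : Fin l → L) (N : ℕ)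
    (v : Fin l → V4a_V K a b N) : V4a_Phi a b e N v = ∑ k, (v k : L) * e k := by
  simp [V4a_Phi]

private theorem V4a_memR (a b : L) {l : ℕ} (e : Fin l → L) (N : ℕ) (z : L) :
    z ∈ LinearMap.range (V4a_Phi (K := K) a b e N) ↔
      ∃ v : Fin l → L, (∀ k, v k ∈ V4a_V K a b N) ∧ z = ∑ k, v k * e k := by
  constructor
  · rintro ⟨v, rfl⟩
    exact ⟨fun k => v k, fun k => (v k).2, V4a_Phi_apply a b e N v⟩
  · rintro ⟨v, hv, rfl⟩
    exact ⟨fun k => ⟨v k, hv k⟩, V4a_Phi_apply a b e N _⟩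

private theorem V4a_mulR (a b : L) {l : ℕ} (e : Fin l → L) {m N : ℕ} {x z : L}
    (hx : x ∈ V4a_V K a b m) (hz : z ∈ LinearMap.range (V4a_Phi (K := K) a b e N)) :
    x * z ∈ LinearMap.range (V4a_Phi (K := K) a b e (m + N)) := by
  rw [V4a_memR] at hz ⊢
  obtain ⟨v, hv, rfl⟩ := hz
  refine ⟨fun k => x * v k, fun k => V4a_mul a b hx (hv k), ?_⟩
  rw [Finset.mul_sum]
  exact Finset.sum_congr rfl fun k _ => by ring

private theorem V4a_monoR (a b : L) {l : ℕ} (e : Fin l → L) {N N' : ℕ} (h : N ≤ N') {z : L}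
    (hz : z ∈ LinearMap.range (V4a_Phi (K := K) a b e N)) :
    z ∈ LinearMap.range (V4a_Phi (K := K) a b e N') := by
  rw [V4a_memR] at hz ⊢
  obtain ⟨v, hv, rfl⟩ := hz
  exact ⟨v, fun k => V4a_mono a b h (hv k), rfl⟩

private theorem V4a_finrank (a b : L) {l : ℕ} (e : Fin l → L) (N : ℕ) :
    Module.finrank K (LinearMap.range (V4a_Phi (K := K) a b e N)) ≤
      l * Module.finrank K (V4a_V K a b N) := by
  have := V4a_fin (K := K) a b N
  refine (LinearMap.finrank_range_le _).trans ?_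
  rw [Module.finrank_pi_fintype]
  simp

/-- common denominator -/
private theorem V4a_denom (a b : L) {l : ℕ} (e : Fin l → L) (f : Fin l → L)
    (hf : ∀ k, f k ∈ adjoin K ({a, b} : Set L)) :
    ∃ δ : L, δ ≠ 0 ∧ ∃ m N : ℕ, δ ∈ V4a_V K a b m ∧
      δ * (∑ k, f k * e k) ∈ LinearMap.range (V4a_Phi (K := K) a b e N) := by
  have key : ∀ s : Finset (Fin l), ∃ δ : L, δ ≠ 0 ∧ δ ∈ Algebra.adjoin K ({a, b} : Set L) ∧
      ∀ k ∈ s, δ * f k ∈ Algebra.adjoin K ({a, b} : Set L) := by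
    intro s
    induction s using Finset.induction_on with
    | empty => exact ⟨1, one_ne_zero, one_mem _, by simp⟩
    | insert k s _ ih =>
      obtain ⟨δ, h0, h1, h2⟩ := ih
      obtain ⟨r, hr, q, hq, hk⟩ := IntermediateField.mem_adjoin_iff_div.1 (hf k)
      by_cases hq0 : q = 0
      · refine ⟨δ, h0, h1, ?_⟩
        intro j hj
        rcases Finset.mem_insert.1 hj with rfl | hj
        · rw [hk, hq0, div_zero, mul_zero]
          exact zero_mem _
        · exact h2 j hj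
      · refine ⟨δ * q, mul_ne_zero h0 hq0, mul_mem h1 hq, ?_⟩
        intro j hj
        rcases Finset.mem_insert.1 hj with rfl | hj
        · rw [hk, mul_assoc, mul_div_cancel₀ _ hq0]
          exact mul_mem h1 hr
        · have : δ * q * f j = q * (δ * f j) := by ring
          rw [this]
          exact mul_mem hq (h2 j hj)
  obtain ⟨δ, h0, h1, h2⟩ := key Finset.univ
  obtain ⟨m, hm⟩ := V4a_alg a b h1
  have h3 : ∀ k, ∃ n, δ * f k ∈ V4a_V K a b n := fun k => V4a_alg a b (h2 k (Finset.mem_univ k))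
  choose n hn using h3
  refine ⟨δ, h0, m, ∑ k, n k, hm, ?_⟩
  rw [V4a_memR]
  refine ⟨fun k => δ * f k, fun k => V4a_mono a b
    (Finset.single_le_sum (f := n) (fun _ _ => Nat.zero_le _) (Finset.mem_univ k)) (hn k), ?_⟩
  rw [Finset.mul_sum]
  exact Finset.sum_congr rfl fun k _ => by ring

/-- `V_m` = span of the `a^i b^j`, `i, j ≤ m`; `W` finite dimensional: there is a constant `C` with
`dim (V_m · W) ≤ (m + C) (dg K a + dg K b)` for all `m`. Proof: basis `ε` of `L` over `K(a, b)`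
(`ℓ = dp K a b` elements), a common denominator `δ ∈ K[a,b]`: `δ W ⊂ ∑ V_C ε_k`, so
`dim V_m W = dim δ V_m W ≤ ℓ dim V_{m+C} ≤ ℓ (m + C + 1)(d1 + d2)` (`dim_bound`, `exists_rel`). -/
theorem growth (hL : ¬ Algebra.IsAlgebraic K L) (a b : L) (hfin : dg K a ≠ 0 ∨ dg K b ≠ 0)
    (W : Submodule K L) (hW : Module.Finite K W) :
    ∃ C : ℕ, ∀ m : ℕ, Module.finrank K (Submodule.span K
      {z : L | ∃ i ≤ m, ∃ j ≤ m, ∃ w ∈ W, z = a ^ i * b ^ j * w}) ≤
        (m + C) * (dg K a + dg K b) := by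
  classical
  obtain ⟨hdp, d1, d2, c, hd1, hd2, hne, hrel⟩ := exists_rel hL a b hfin
  have hfd : Module.Finite (adjoin K ({a, b} : Set L)) L :=
    Module.finite_of_finrank_pos (Nat.pos_of_ne_zero hdp)
  obtain ⟨e, he⟩ : ∃ e : Fin (dp K a b) → L, ∀ x : L, ∃ f : Fin (dp K a b) → L,
      (∀ k, f k ∈ adjoin K ({a, b} : Set L)) ∧ x = ∑ k, f k * e k := by
    let B := Module.finBasis (adjoin K ({a, b} : Set L)) L
    refine ⟨fun k => B k, fun x => ⟨fun k => (B.repr x k : L), fun k => (B.repr x k).2, ?_⟩⟩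
    conv_lhs => rw [← B.sum_repr x]
    exact Finset.sum_congr rfl fun k _ => rfl
  -- common denominator for `W`
  obtain ⟨s, hs⟩ : W.FG := (Submodule.fg_iff_finiteDimensional W).2 hW
  have key : ∀ t : Finset L, ∃ δ : L, δ ≠ 0 ∧ ∃ m N : ℕ, δ ∈ V4a_V K a b m ∧
      ∀ w ∈ t, δ * w ∈ LinearMap.range (V4a_Phi (K := K) a b e N) := by
    intro t
    induction t using Finset.induction_on with
    | empty => exact ⟨1, one_ne_zero, 0, 0, V4a_one a b 0, by simp⟩
    | insert w t _ ih =>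
      obtain ⟨δ, h0, m, N, hm, hN⟩ := ih
      obtain ⟨f, hf, hw⟩ := he w
      obtain ⟨δ', h0', m', N', hm', hN'⟩ := V4a_denom a b e f hf
      rw [← hw] at hN'
      refine ⟨δ * δ', mul_ne_zero h0 h0', m + m', m' + N + (m + N'), V4a_mul a b hm hm', ?_⟩
      intro x hx
      rcases Finset.mem_insert.1 hx with rfl | hx
      · rw [mul_assoc]
        exact V4a_monoR a b e (by omega) (V4a_mulR a b e hm hN')
      · have : δ * δ' * x = δ' * (δ * x) := by ring
        rw [this]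
        exact V4a_monoR a b e (by omega) (V4a_mulR a b e hm' (hN x hx))
  obtain ⟨δ, h0, _, N, _, hN⟩ := key s
  have hW2 : ∀ w ∈ W, δ * w ∈ LinearMap.range (V4a_Phi (K := K) a b e N) := by
    intro w hw
    rw [← hs] at hw
    induction hw using Submodule.span_induction with
    | mem x hx => exact hN x hx
    | zero => rw [mul_zero]; exact zero_mem _
    | add x y _ _ hx hy => rw [mul_add]; exact add_mem hx hy
    | smul r x _ hx => rw [mul_smul_comm]; exact Submodule.smul_mem _ _ hx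
  refine ⟨N + 1, fun m => ?_⟩
  set S : Submodule K L := Submodule.span K
      {z : L | ∃ i ≤ m, ∃ j ≤ m, ∃ w ∈ W, z = a ^ i * b ^ j * w} with hS
  have hinj : Function.Injective (LinearMap.mulLeft K δ) := by
    intro x y hxy
    exact mul_left_cancel₀ h0 hxy
  have hle : S.map (LinearMap.mulLeft K δ) ≤
      LinearMap.range (V4a_Phi (K := K) a b e (m + N)) := by
    rw [hS, Submodule.map_span, Submodule.span_le]
    rintro _ ⟨_, ⟨i, hi, j, hj, w, hw, rfl⟩, rfl⟩
    have h1 : LinearMap.mulLeft K δ (a ^ i * b ^ j * w) = (a ^ i * b ^ j) * (δ * w) := by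
      rw [LinearMap.mulLeft_apply]
      ring
    rw [h1]
    exact V4a_mulR a b e (Submodule.subset_span ⟨i, hi, j, hj, rfl⟩) (hW2 w hw)
  have hfinR : Module.Finite K (LinearMap.range (V4a_Phi (K := K) a b e (m + N))) := by
    have := V4a_fin (K := K) a b (m + N)
    infer_instance
  have h1 : Module.finrank K S = Module.finrank K (S.map (LinearMap.mulLeft K δ)) :=
    (Submodule.equivMapOfInjective _ hinj S).finrank_eq
  rw [h1]
  refine (Submodule.finrank_mono hle).trans ((V4a_finrank a b e (m + N)).trans ?_)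
  have h2 : Module.finrank K (V4a_V K a b (m + N)) ≤ (m + N + 1) * (d1 + d2) :=
    dim_bound a b d1 d2 c hne hrel (m + N)
  calc dp K a b * Module.finrank K (V4a_V K a b (m + N))
      ≤ dp K a b * ((m + N + 1) * (d1 + d2)) := Nat.mul_le_mul_left _ h2
    _ = (m + (N + 1)) * (dp K a b * d2 + dp K a b * d1) := by ring
    _ ≤ (m + (N + 1)) * (dg K a + dg K b) := Nat.mul_le_mul_left _ (Nat.add_le_add hd2 hd1)

end MP2619.W
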