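import Mathlib

/-!
Row V5: identities on the curve `b² + b = a³` in characteristic two.
-/

set_option autoImplicit false

namespace MP2619.W

universe u

variable {L : Type u} [Field L]

/-- third intersection point of the line through two points: first coordinate -/
def ta (a1 b1 a2 b2 : L) : L := ((b1 + b2) / (a1 + a2)) ^ 2 + a1 + a2

/-- third intersection point: second coordinate -/
def tb (a1 b1 a2 b2 : L) : L :=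
  (b1 + b2) / (a1 + a2) * ta a1 b1 a2 b2 + (b1 + (b1 + b2) / (a1 + a2) * a1)

/-- the sum of two different elements is not zero -/
private theorem V5_ne (h2 : (2 : L) = 0) {a1 a2 : L} (hne : a1 ≠ a2) : a1 + a2 ≠ 0 := by
  intro h
  apply hne
  linear_combination h - a2 * h2

private theorem V5_line (h2 : (2 : L) = 0) {a1 b1 a2 b2 : L} (h1 : b1 ^ 2 + b1 = a1 ^ 3)
    (h3 : b2 ^ 2 + b2 = a2 ^ 3) (hne : a1 ≠ a2) (s : L) :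
    (b1 + (b1 + b2) / (a1 + a2) * a1 + s * ((b1 + b2) / (a1 + a2))) ^ 2 +
      (b1 + (b1 + b2) / (a1 + a2) * a1 + s * ((b1 + b2) / (a1 + a2))) + s ^ 3 =
      (s + a1) * (s + a2) * (s + ta a1 b1 a2 b2) := by
  have hd := V5_ne h2 hne
  unfold ta
  obtain ⟨l, hl⟩ : ∃ l, l = (b1 + b2) / (a1 + a2) := ⟨_, rfl⟩
  rw [← hl]
  have hl' : l * (a1 + a2) = b1 + b2 := by
    rw [hl]
    field_simp
  have hk : l ^ 2 * (a1 + a2) + l = a1 ^ 2 + a1 * a2 + a2 ^ 2 := by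
    apply mul_left_cancel₀ hd
    linear_combination (l * (a1 + a2) + b1 + b2 + 1) * hl' + h1 + h3 +
      (b1 * b2 - a1 ^ 2 * a2 - a1 * a2 ^ 2) * h2
  linear_combination (s + a1) * hk + h1 + (-a1 * a2 * l ^ 2 - a1 * a2 * s + a1 * b1 * l -
    a1 * s ^ 2 + a1 ^ 3 - a2 * l ^ 2 * s - a2 * s ^ 2 + b1 * l * s) * h2

theorem third_curve (h2 : (2 : L) = 0) {a1 b1 a2 b2 : L} (h1 : b1 ^ 2 + b1 = a1 ^ 3)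
    (h3 : b2 ^ 2 + b2 = a2 ^ 3) (hne : a1 ≠ a2) :
    tb a1 b1 a2 b2 ^ 2 + tb a1 b1 a2 b2 = ta a1 b1 a2 b2 ^ 3 := by
  have h := V5_line h2 h1 h3 hne (ta a1 b1 a2 b2)
  have e : tb a1 b1 a2 b2 = b1 + (b1 + b2) / (a1 + a2) * a1 +
      ta a1 b1 a2 b2 * ((b1 + b2) / (a1 + a2)) := by
    unfold tb
    ring
  rw [e]
  linear_combination h + ((ta a1 b1 a2 b2 + a1) * (ta a1 b1 a2 b2 + a2) * ta a1 b1 a2 b2 -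
    ta a1 b1 a2 b2 ^ 3) * h2

theorem line_prod (h2 : (2 : L) = 0) {a1 b1 a2 b2 : L} (h1 : b1 ^ 2 + b1 = a1 ^ 3)
    (h3 : b2 ^ 2 + b2 = a2 ^ 3) (hne : a1 ≠ a2) (s : L) :
    (b1 + (b1 + b2) / (a1 + a2) * a1 + s * ((b1 + b2) / (a1 + a2))) ^ 2 +
      (b1 + (b1 + b2) / (a1 + a2) * a1 + s * ((b1 + b2) / (a1 + a2))) + s ^ 3 =
      (s + a1) * (s + a2) * (s + ta a1 b1 a2 b2) :=
  V5_line h2 h1 h3 hne s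

/-- `ta a1 b1 a2 b2 = a(P1 + P2)`, `ta a1 b1 a2 (b2 + 1) = a(P1 - P2)` -/
theorem plus_minus (h2 : (2 : L) = 0) {a1 b1 a2 b2 : L} (h1 : b1 ^ 2 + b1 = a1 ^ 3)
    (h3 : b2 ^ 2 + b2 = a2 ^ 3) (hne : a1 ≠ a2) (s : L) :
    (s + ta a1 b1 a2 b2) * (s + ta a1 b1 a2 (b2 + 1)) =
      ((a1 + a2) ^ 2 * s ^ 2 + s + (a1 + a2) + (a1 * a2) ^ 2) / (a1 + a2) ^ 2 := by
  have hd := V5_ne h2 hne
  have e1 : ta a1 b1 a2 b2 * (a1 + a2) ^ 2 = (b1 + b2) ^ 2 + (a1 + a2) ^ 3 := by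
    unfold ta
    field_simp
    ring
  have e2 : ta a1 b1 a2 (b2 + 1) * (a1 + a2) ^ 2 = (b1 + b2 + 1) ^ 2 + (a1 + a2) ^ 3 := by
    unfold ta
    field_simp
    ring
  rw [eq_div_iff (pow_ne_zero 2 hd)]
  apply mul_right_cancel₀ (pow_ne_zero 2 hd)
  have e : (s + ta a1 b1 a2 b2) * (s + ta a1 b1 a2 (b2 + 1)) * (a1 + a2) ^ 2 * (a1 + a2) ^ 2 =
      (s * (a1 + a2) ^ 2 + ta a1 b1 a2 b2 * (a1 + a2) ^ 2) *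
        (s * (a1 + a2) ^ 2 + ta a1 b1 a2 (b2 + 1) * (a1 + a2) ^ 2) := by ring
  rw [e, e1, e2]
  linear_combination ((b1 + b2) ^ 2 + (b1 + b2) + (a1 + a2) * (a1 ^ 2 + a1 * a2 + a2 ^ 2)) *
    (h1 + h3) +
    ((4) * a1 * a2 * b1 * b2 * s + (2) * a1 * a2 * b1 * s + (2) * a1 * a2 * b1 ^ 2 * s +
      (2) * a1 * a2 * b2 * s + (2) * a1 * a2 * b2 ^ 2 * s + (2) * a1 * a2 ^ 2 * b1 +
      (6) * a1 * a2 ^ 2 * b1 * b2 + (2) * a1 * a2 ^ 2 * b1 ^ 2 + (2) * a1 * a2 ^ 2 * b2 +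
      (2) * a1 * a2 ^ 2 * b2 ^ 2 + (5) * a1 * a2 ^ 4 * s + (4) * a1 * a2 ^ 5 +
      (2) * a1 ^ 2 * a2 * b1 + (6) * a1 ^ 2 * a2 * b1 * b2 + (2) * a1 ^ 2 * a2 * b1 ^ 2 +
      (2) * a1 ^ 2 * a2 * b2 + (2) * a1 ^ 2 * a2 * b2 ^ 2 + (10) * a1 ^ 2 * a2 ^ 3 * s +
      (8) * a1 ^ 2 * a2 ^ 4 + (2) * a1 ^ 2 * b1 * b2 * s + a1 ^ 2 * b1 * s +
      a1 ^ 2 * b1 ^ 2 * s + a1 ^ 2 * b2 * s + a1 ^ 2 * b2 ^ 2 * s +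
      (10) * a1 ^ 3 * a2 ^ 2 * s + (10) * a1 ^ 3 * a2 ^ 3 + a1 ^ 3 * b1 +
      (3) * a1 ^ 3 * b1 * b2 + a1 ^ 3 * b1 ^ 2 + a1 ^ 3 * b2 + a1 ^ 3 * b2 ^ 2 +
      (5) * a1 ^ 4 * a2 * s + (8) * a1 ^ 4 * a2 ^ 2 + (4) * a1 ^ 5 * a2 + a1 ^ 5 * s + a1 ^ 6 +
      (2) * a2 ^ 2 * b1 * b2 * s + a2 ^ 2 * b1 * s + a2 ^ 2 * b1 ^ 2 * s + a2 ^ 2 * b2 * s +
      a2 ^ 2 * b2 ^ 2 * s + a2 ^ 3 * b1 + (3) * a2 ^ 3 * b1 * b2 + a2 ^ 3 * b1 ^ 2 +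
      a2 ^ 3 * b2 + a2 ^ 3 * b2 ^ 2 + a2 ^ 5 * s + a2 ^ 6 + b1 * b2 ^ 2 + b1 * b2 ^ 3 +
      b1 ^ 2 * b2 + (2) * b1 ^ 2 * b2 ^ 2 + b1 ^ 3 * b2) * h2

end MP2619.W
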