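import Pool.Agent.Lib.MP_2619d0_ag.W.V1a
import Pool.Agent.Lib.MP_2619d0_ag.W.V1b
import Pool.Agent.Lib.MP_2619d0_ag.W.V2
import Pool.Agent.Lib.MP_2619d0_ag.W.V4
import Pool.Agent.Lib.MP_2619d0_ag.W.V5

/-!
Row V6: the inequality between degrees.
-/

set_option autoImplicit false

namespace MP2619.W

universe v u

open IntermediateField MP2619.R

variable {K : Type v} {L : Type u} [Field K] [Field L] [Algebra K L]

private theorem V6_map_ta {L' : Type*} [Field L'] [Algebra L L'] (a1 b1 a2 b2 : L) :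
    algebraMap L L' (ta a1 b1 a2 b2) = ta (algebraMap L L' a1) (algebraMap L L' b1)
      (algebraMap L L' a2) (algebraMap L L' b2) := by
  simp only [ta, map_add, map_pow, map_div₀]

/-- coefficients of the numerator -/
private noncomputable def V6_P {K' : Type v} [Field K'] (s : K') (i j : ℕ) : K' :=
  if i = 0 ∧ j = 0 then s
  else if i = 1 ∧ j = 0 then 1
  else if i = 0 ∧ j = 1 then 1
  else if i = 2 ∧ j = 0 then s ^ 2
  else if i = 0 ∧ j = 2 then s ^ 2
  else if i = 1 ∧ j = 1 then 2 * s ^ 2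
  else if i = 2 ∧ j = 2 then 1 else 0

/-- coefficients of the denominator -/
private noncomputable def V6_Q (K' : Type v) [Field K'] (i j : ℕ) : K' :=
  if i = 2 ∧ j = 0 then 1
  else if i = 0 ∧ j = 2 then 1
  else if i = 1 ∧ j = 1 then 2 else 0

private theorem V6_bvP {K' : Type v} {L' : Type u} [Field K'] [Field L'] [Algebra K' L'] (s : K')
    (a b : L') : bv 2 (V6_P s) a b = (a + b) ^ 2 * (algebraMap K' L' s) ^ 2 + algebraMap K' L' s +
      (a + b) + (a * b) ^ 2 := by
  have e2 : algebraMap K' L' 2 = 2 := map_ofNat _ 2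
  simp only [bv, V6_P, Finset.sum_range_succ, Finset.sum_range_zero]
  norm_num
  rw [e2]
  ring

private theorem V6_bvQ {K' : Type v} {L' : Type u} [Field K'] [Field L'] [Algebra K' L']
    (a b : L') : bv 2 (V6_Q K') a b = (a + b) ^ 2 := by
  have e2 : algebraMap K' L' 2 = 2 := map_ofNat _ 2
  simp only [bv, V6_Q, Finset.sum_range_succ, Finset.sum_range_zero]
  norm_num
  rw [e2]
  ring

/-- `exists_RF K L`: `L' = L(s)`. `dg_prod_ge` for `a_+`, `a_-` (`Fin 2`), `plus_minus` and `dg_ratio_le` over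
`K' = K(s)` with `e = 2`: `P = (x + y)² s² + s + (x + y) + x² y²`, `Q = (x + y)²`; `dg_base`,
`not_alg_base`. -/
theorem dg_ineq (h2 : (2 : K) = 0) (hL : ¬ Algebra.IsAlgebraic K L) {a1 b1 a2 b2 : L}
    (h1 : b1 ^ 2 + b1 = a1 ^ 3) (h3 : b2 ^ 2 + b2 = a2 ^ 3) (hne : a1 ≠ a2) :
    dg K (ta a1 b1 a2 b2) + dg K (ta a1 b1 a2 (b2 + 1)) ≤ 2 * (dg K a1 + dg K a2) := by
  obtain ⟨K', L', i1, i2, i3, i4, i5, i6, i7, i8, s, h⟩ := exists_RF K L
  have h2' : (2 : L') = 0 := by
    have e : (2 : L') = algebraMap K L' 2 := (map_ofNat (algebraMap K L') 2).symm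
    rw [e, h2, map_zero]
  have hinj : Function.Injective (algebraMap L L') := (algebraMap L L').injective
  have h1' : (algebraMap L L' b1) ^ 2 + algebraMap L L' b1 = (algebraMap L L' a1) ^ 3 := by
    rw [← map_pow, ← map_add, h1, map_pow]
  have h3' : (algebraMap L L' b2) ^ 2 + algebraMap L L' b2 = (algebraMap L L' a2) ^ 3 := by
    rw [← map_pow, ← map_add, h3, map_pow]
  have hne' : algebraMap L L' a1 ≠ algebraMap L L' a2 := fun e => hne (hinj e)
  have hsum : algebraMap L L' a1 + algebraMap L L' a2 ≠ 0 := by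
    intro e
    apply hne'
    have e2 : algebraMap L L' a1 = - algebraMap L L' a2 := eq_neg_of_add_eq_zero_left e
    have e3 : - algebraMap L L' a2 = algebraMap L L' a2 := by
      have e4 : (2 : L') * algebraMap L L' a2 = 0 := by rw [h2', zero_mul]
      have e5 : algebraMap L L' a2 + algebraMap L L' a2 = 0 := by
        rw [← two_mul]
        exact e4
      exact neg_eq_of_add_eq_zero_left e5
    rw [e2, e3]
  have hQ : bv 2 (V6_Q K') (algebraMap L L' a1) (algebraMap L L' a2) ≠ 0 := by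
    rw [V6_bvQ]
    exact pow_ne_zero 2 hsum
  have key := dg_ratio_le (K := K') (L := L') (not_alg_base h hL) (algebraMap L L' a1)
    (algebraMap L L' a2) 2 (V6_P s) (V6_Q K') hQ
  rw [dg_base h a1, dg_base h a2, V6_bvP, V6_bvQ] at key
  have hprod := dg_prod_ge h hL (m := 2) ![ta a1 b1 a2 b2, ta a1 b1 a2 (b2 + 1)]
  rw [Fin.sum_univ_two, Fin.prod_univ_two] at hprod
  simp only [Matrix.cons_val_zero, Matrix.cons_val_one] at hprod
  have hpm := plus_minus h2' h1' h3' hne' (algebraMap K' L' s)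
  have hb : algebraMap L L' (b2 + 1) = algebraMap L L' b2 + 1 := by
    rw [map_add, map_one]
  rw [V6_map_ta, V6_map_ta, hb, hpm] at hprod
  exact hprod.trans key

end MP2619.W
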