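import Pool.Agent.Lib.MP_2619d0_ag.W.V6

/-!
Row V7: the degree on the elliptic curve satisfies the parallelogram law.
-/

set_option autoImplicit false

namespace MP2619.W

universe v u

open IntermediateField MP2619.R

/-- the curve `Y² + Y = X³` -/
def Ec (L : Type u) [Field L] : WeierstrassCurve.Affine L := ⟨0, 0, 1, 0, 0⟩

variable {K : Type v} {L : Type u} [Field K] [Field L] [Algebra K L]

/-- the field of a point -/
def pf (K : Type v) {L : Type u} [Field K] [Field L] [Algebra K L] : (Ec L).Point → Set L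
  | .zero => ∅
  | .some x y _ => {x, y}

/-- the degree `[L : K(P)]` -/
noncomputable def pdeg (K : Type v) {L : Type u} [Field K] [Field L] [Algebra K L]
    (P : (Ec L).Point) : ℕ := Module.finrank (adjoin K (pf K P)) L

theorem pdeg_zero (hL : ¬ Algebra.IsAlgebraic K L) : pdeg K (0 : (Ec L).Point) = 0 := by
  have h0 : pf K (0 : (Ec L).Point) = ∅ := rfl
  rw [pdeg, h0, adjoin_empty, finrank_bot']
  by_contra h
  have := Module.finite_of_finrank_pos (Nat.pos_of_ne_zero h)
  exact hL (Algebra.IsAlgebraic.of_finite K L)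

theorem adjoin_neg (P : (Ec L).Point) : adjoin K (pf K (-P)) = adjoin K (pf K P) := by
  have key : ∀ (P : (Ec L).Point), adjoin K (pf K (-P)) ≤ adjoin K (pf K P) := by
    rintro (_ | ⟨x, y, h⟩)
    · exact le_rfl
    · rw [WeierstrassCurve.Affine.Point.neg_some, adjoin_le_iff]
      have hx : x ∈ adjoin K (pf K (WeierstrassCurve.Affine.Point.some x y h)) :=
        subset_adjoin K _ (by simp [pf])
      have hy : y ∈ adjoin K (pf K (WeierstrassCurve.Affine.Point.some x y h)) :=
        subset_adjoin K _ (by simp [pf])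
      intro z hz
      simp only [pf, Set.mem_insert_iff, Set.mem_singleton_iff] at hz
      rcases hz with rfl | rfl
      · exact hx
      · have e : (Ec L).negY x y = -y - 1 := by
          simp [WeierstrassCurve.Affine.negY, Ec]
        rw [e]
        exact sub_mem (neg_mem hy) (one_mem _)
  refine le_antisymm (key P) ?_
  have := key (-P)
  rwa [neg_neg] at this

private theorem V7_neg (P : (Ec L).Point) : pdeg K (-P) = pdeg K P := by
  rw [pdeg, pdeg, adjoin_neg]

theorem ec_nonsingular (h2 : (2 : L) = 0) (a b : L) :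
    (Ec L).Nonsingular a b ↔ b ^ 2 + b = a ^ 3 := by
  rw [WeierstrassCurve.Affine.nonsingular_iff', WeierstrassCurve.Affine.equation_iff]
  have h3 : (2 * b + (Ec L).a₁ * a + (Ec L).a₃) ≠ 0 := by
    rw [h2]; simp [Ec]
  constructor
  · rintro ⟨h, -⟩
    simpa [Ec] using h
  · intro h
    exact ⟨by simpa [Ec] using h, Or.inr h3⟩

/-- the third intersection point of the line through two points with different first coordinates -/
theorem third_point [DecidableEq L] (h2 : (2 : L) = 0) {a1 b1 a2 b2 : L}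
    (h1 : (Ec L).Nonsingular a1 b1) (h3 : (Ec L).Nonsingular a2 b2) (hne : a1 ≠ a2) :
    ∃ h : (Ec L).Nonsingular (ta a1 b1 a2 b2) (tb a1 b1 a2 b2),
      (WeierstrassCurve.Affine.Point.some _ _ h : (Ec L).Point) =
        -(WeierstrassCurve.Affine.Point.some _ _ h1 + WeierstrassCurve.Affine.Point.some _ _ h3) := by
  have hneg : ∀ z : L, -z = z := fun z => by linear_combination -z * h2
  have hsub : ∀ z w : L, z - w = z + w := fun z w => by rw [sub_eq_add_neg, hneg]
  have hs : (Ec L).slope a1 a2 b1 b2 = (b1 + b2) / (a1 + a2) := by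
    rw [WeierstrassCurve.Affine.slope_of_X_ne hne, hsub, hsub]
  have hX : (Ec L).addX a1 a2 ((Ec L).slope a1 a2 b1 b2) = ta a1 b1 a2 b2 := by
    rw [hs, WeierstrassCurve.Affine.addX, ta]
    simp only [Ec, hsub]
    ring
  have hY : (Ec L).negAddY a1 a2 b1 ((Ec L).slope a1 a2 b1 b2) = tb a1 b1 a2 b2 := by
    rw [WeierstrassCurve.Affine.negAddY, hX, hs, tb, hsub]
    ring
  have hN := WeierstrassCurve.Affine.nonsingular_negAdd h1 h3 (fun hxy => hne hxy.1)
  have hN' := hN
  rw [hX, hY] at hN'
  refine ⟨hN', ?_⟩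
  rw [WeierstrassCurve.Affine.Point.add_of_X_ne' hne, neg_neg]
  simp only [hX, hY]

private theorem V7_two [DecidableEq L] (h2 : (2 : K) = 0) (hL : ¬ Algebra.IsAlgebraic K L) {a b : L}
    (h : (Ec L).Nonsingular a b) :
    dg K a = 2 * pdeg K (WeierstrassCurve.Affine.Point.some a b h) := by
  have h2' : (2 : L) = 0 := by
    have := congrArg (algebraMap K L) h2
    rwa [map_ofNat, map_zero] at this
  exact dg_eq_two_dp hL ((ec_nonsingular h2' a b).1 h)

/-- `a(2P) = a(P)⁴`, `dg_poly`, `dg_eq_two_dp` -/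
theorem pdeg_double [DecidableEq L] (h2 : (2 : K) = 0) (hL : ¬ Algebra.IsAlgebraic K L)
    (P : (Ec L).Point) : pdeg K (P + P) = 4 * pdeg K P := by
  have h2' : (2 : L) = 0 := by
    have := congrArg (algebraMap K L) h2
    rwa [map_ofNat, map_zero] at this
  have hneg : ∀ z : L, -z = z := fun z => by linear_combination -z * h2'
  have hsub : ∀ z w : L, z - w = z + w := fun z w => by rw [sub_eq_add_neg, hneg]
  rcases P with (_ | ⟨x, y, h⟩)
  · change pdeg K ((0 : (Ec L).Point) + 0) = 4 * pdeg K (0 : (Ec L).Point)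
    rw [add_zero, pdeg_zero hL]
  · have hy : y ≠ (Ec L).negY x y := by
      intro e
      have : (Ec L).negY x y = y + 1 := by
        simp only [WeierstrassCurve.Affine.negY, Ec, hsub, hneg]
        ring
      rw [this] at e
      exact one_ne_zero (left_eq_add.1 e)
    have hs : (Ec L).slope x x y y = x ^ 2 := by
      rw [WeierstrassCurve.Affine.slope_of_Y_ne rfl hy]
      have e1 : (y - (Ec L).negY x y) = 1 := by
        simp only [WeierstrassCurve.Affine.negY, Ec]
        linear_combination y * h2'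
      rw [e1, div_one]
      simp only [Ec]
      linear_combination x ^ 2 * h2'
    have hX : (Ec L).addX x x ((Ec L).slope x x y y) = x ^ 4 := by
      rw [hs, WeierstrassCurve.Affine.addX]
      simp only [Ec]
      linear_combination (-x) * h2'
    rw [WeierstrassCurve.Affine.Point.add_self_of_Y_ne hy]
    have k1 := V7_two (K := K) h2 hL
      (WeierstrassCurve.Affine.nonsingular_add h h fun hxy => hy hxy.right)
    have k2 := V7_two (K := K) h2 hL h
    have k0 : dg K ((Ec L).addX x x ((Ec L).slope x x y y)) = dg K (x ^ 4) := by rw [hX]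
    rw [k0] at k1
    have k3 := dg_poly (K := K) hL (Polynomial.X ^ 4) (by simp) x
    simp only [map_pow, Polynomial.aeval_X, Polynomial.natDegree_pow, Polynomial.natDegree_X,
      mul_one] at k3
    omega

/-- `P = 0` or `Q = 0`: clear. `P = ± Q`: `pdeg_double`. Otherwise `dg_ineq` and `dg_eq_two_dp`. -/
theorem pdeg_le [DecidableEq L] (h2 : (2 : K) = 0) (hL : ¬ Algebra.IsAlgebraic K L)
    (P Q : (Ec L).Point) : pdeg K (P + Q) + pdeg K (P - Q) ≤ 2 * (pdeg K P + pdeg K Q) := by
  have h2' : (2 : L) = 0 := by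
    have := congrArg (algebraMap K L) h2
    rwa [map_ofNat, map_zero] at this
  have hneg : ∀ z : L, -z = z := fun z => by linear_combination -z * h2'
  have hsub : ∀ z w : L, z - w = z + w := fun z w => by rw [sub_eq_add_neg, hneg]
  by_cases hP : P = 0
  · subst hP
    rw [zero_add, zero_sub, V7_neg, pdeg_zero hL]
    omega
  by_cases hQ : Q = 0
  · subst hQ
    rw [add_zero, sub_zero, pdeg_zero hL]
    omega
  by_cases hPQ : P = Q
  · subst hPQ
    rw [sub_self, pdeg_zero hL, pdeg_double h2 hL]
    omega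
  by_cases hPQ' : P = -Q
  · have e1 : P + Q = 0 := by rw [hPQ', neg_add_cancel]
    have e2 : P - Q = P + P := by
      rw [sub_eq_add_neg, ← hPQ']
    have e3 : pdeg K Q = pdeg K P := by rw [hPQ', V7_neg]
    rw [e1, e2, e3, pdeg_zero hL, pdeg_double h2 hL]
    omega
  rcases P with (_ | ⟨a1, b1, h1⟩)
  · exact absurd rfl hP
  rcases Q with (_ | ⟨a2, b2, h3⟩)
  · exact absurd rfl hQ
  have hne : a1 ≠ a2 := by
    intro e
    rcases WeierstrassCurve.Affine.Point.X_eq_iff.1 e with e' | e'
    · exact hPQ e'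
    · exact hPQ' e'
  obtain ⟨n1, m1⟩ := third_point h2' h1 h3 hne
  have hnegY : (Ec L).negY a2 b2 = b2 + 1 := by
    simp only [WeierstrassCurve.Affine.negY, Ec, hsub, hneg]
    ring
  have h4 : (Ec L).Nonsingular a2 (b2 + 1) := by
    rw [← hnegY]
    exact (WeierstrassCurve.Affine.nonsingular_neg ..).mpr h3
  have hQn : -(WeierstrassCurve.Affine.Point.some a2 b2 h3 : (Ec L).Point) =
      WeierstrassCurve.Affine.Point.some a2 (b2 + 1) h4 := by
    rw [WeierstrassCurve.Affine.Point.neg_some]
    simp only [hnegY]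
  obtain ⟨n2, m2⟩ := third_point h2' h1 h4 hne
  have t1 := V7_two (K := K) h2 hL n1
  have t2 := V7_two (K := K) h2 hL n2
  have t3 := V7_two (K := K) h2 hL h1
  have t4 := V7_two (K := K) h2 hL h3
  rw [m1, V7_neg] at t1
  rw [m2, V7_neg, ← hQn, ← sub_eq_add_neg] at t2
  have t5 := dg_ineq (K := K) h2 hL ((ec_nonsingular h2' a1 b1).1 h1)
    ((ec_nonsingular h2' a2 b2).1 h3) hne
  omega

/-- `pdeg_le` for `P, Q` and for `P + Q, P - Q`, and `pdeg_double`. -/
theorem pdeg_par [DecidableEq L] (h2 : (2 : K) = 0) (hL : ¬ Algebra.IsAlgebraic K L)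
    (P Q : (Ec L).Point) : pdeg K (P + Q) + pdeg K (P - Q) = 2 * (pdeg K P + pdeg K Q) := by
  have h3 := pdeg_le h2 hL P Q
  have h4 := pdeg_le h2 hL (P + Q) (P - Q)
  have e1 : P + Q + (P - Q) = P + P := by abel
  have e2 : P + Q - (P - Q) = Q + Q := by abel
  rw [e1, e2, pdeg_double h2 hL, pdeg_double h2 hL] at h4
  omega

end MP2619.W
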