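import Pool.Agent.Lib.MP_2619d0_ag.W.V9a

/-!
Row V9: the block lemma.
-/

set_option autoImplicit false

namespace MP2619.W

universe v u

open IntermediateField MP2619.R

private theorem V9_finrank_congr {K1 N1 K2 N2 : Type*} [Field K1] [Field N1] [Field K2] [Field N2]
    [Algebra K1 N1] [Algebra K2 N2] (F1 : IntermediateField K1 N1) (F2 : IntermediateField K2 N2)
    (e : N1 ≃+* N2) (h : ∀ x, x ∈ F1 ↔ e x ∈ F2) : Module.finrank F1 N1 = Module.finrank F2 N2 := by
  let i : F1 ≃+* F2 :=
    { toFun := fun x => ⟨e x, (h x).1 x.2⟩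
      invFun := fun y => ⟨e.symm y, (h _).2 (by rw [e.apply_symm_apply]; exact y.2)⟩
      left_inv := fun x => by ext; simp
      right_inv := fun y => by ext; simp
      map_mul' := fun x y => by ext; simp
      map_add' := fun x y => by ext; simp }
  exact Algebra.finrank_eq_of_equiv_equiv i e (by ext x; rfl)

private theorem V9_iso {L N N' : Type*} [Field L] [Field N] [Field N'] [Algebra L N] [Algebra L N']
    {ι : Type*} (x : ι → N) (y : ι → N') (hx : AlgebraicIndependent L x)
    (hy : AlgebraicIndependent L y) (gx : adjoin L (Set.range x) = ⊤)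
    (gy : adjoin L (Set.range y) = ⊤) : ∃ e : N' ≃ₐ[L] N, ∀ i, e (y i) = x i := by
  let e1 : N' ≃ₐ[L] adjoin L (Set.range y) := topEquiv.symm.trans (equivOfEq gy.symm)
  let e2 : adjoin L (Set.range x) ≃ₐ[L] N := (equivOfEq gx).trans topEquiv
  refine ⟨(e1.trans hy.aevalEquivField.symm).trans (hx.aevalEquivField.trans e2), fun i => ?_⟩
  have h1 : hy.aevalEquivField (algebraMap (MvPolynomial ι L) (FractionRing (MvPolynomial ι L))
      (MvPolynomial.X i)) = e1 (y i) := by
    apply Subtype.ext
    rw [hy.aevalEquivField_algebraMap_apply_coe, MvPolynomial.aeval_X]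
    rfl
  have h2 : hx.aevalEquivField (algebraMap (MvPolynomial ι L) (FractionRing (MvPolynomial ι L))
      (MvPolynomial.X i)) =
      ⟨x i, subset_adjoin _ _ ⟨i, rfl⟩⟩ := by
    apply Subtype.ext
    rw [hx.aevalEquivField_algebraMap_apply_coe, MvPolynomial.aeval_X]
  change e2 (hx.aevalEquivField (hy.aevalEquivField.symm (e1 (y i)))) = x i
  rw [← h1, AlgEquiv.symm_apply_apply, h2]
  rfl

variable {K : Type v} {L : Type u} [Field K] [Field L] [Algebra K L]

/-- `u0 = al + be`, `s = u1 / u0`, `Λ = u2 / u0 = λ + s ν`. `K(u0, u1, u2) = K(u0, s, Λ)`,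
`N = L(al, be) = L(u0, s)` (`be / al` is a Möbius transform of `s` over `L` because `a1 ≠ a2`), `u0`, `s`
algebraically independent over `L`. So `[N : K(u)] = [L(s) : K(s)(Λ)]` (base change by `u0`, `D1c_finrank` or
`dg_base`-like) and `block_aux`. -/
theorem block (h2 : (2 : K) = 0) (hL : ¬ Algebra.IsAlgebraic K L) {N : Type u} [Field N]
    [Algebra K N] [Algebra L N] [IsScalarTower K L N] (al be : N)
    (hind : AlgebraicIndependent L ![al, be]) (hgen : adjoin L ({al, be} : Set N) = ⊤)
    {a1 b1 a2 b2 : L} (h1 : b1 ^ 2 + b1 = a1 ^ 3) (h3 : b2 ^ 2 + b2 = a2 ^ 3) (hne : a1 ≠ a2) :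
    Module.finrank (adjoin K ({al + be, al * algebraMap L N a1 + be * algebraMap L N a2,
      al * algebraMap L N b1 + be * algebraMap L N b2} : Set N)) N =
      dp K a1 b1 + dp K a2 b2 + dp K (ta a1 b1 a2 b2) (tb a1 b1 a2 b2) := by
  obtain ⟨K', L', _, _, _, _, _, _, _, _, s, hs⟩ := exists_RF K L
  obtain ⟨K'', N', _, _, _, _, _, _, _, _, t, ht⟩ := exists_RF K' L'
  rw [← block_aux h2 hL hs h1 h3 hne, ← dg_base ht]
  let iL : Algebra L N' := ((algebraMap L' N').comp (algebraMap L L')).toAlgebra
  have tL : IsScalarTower L L' N' := IsScalarTower.of_algebraMap_eq' rfl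
  let iK : Algebra K N' := ((algebraMap L' N').comp (algebraMap K L')).toAlgebra
  have tK : IsScalarTower K L N' := IsScalarTower.of_algebraMap_eq fun x => by
    change algebraMap L' N' (algebraMap K L' x) = algebraMap L' N' (algebraMap L L' (algebraMap K L x))
    rw [← IsScalarTower.algebraMap_apply K L L']
  have h2L : (2 : L) = 0 := by
    have := congrArg (algebraMap K L) h2
    rwa [map_ofNat, map_zero] at this
  have hd : a1 + a2 ≠ 0 := by
    intro h
    apply hne
    have h4 : a1 = -a2 := eq_neg_of_add_eq_zero_left h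
    have h5 : a2 + a2 = 0 := by rw [← two_mul, h2L, zero_mul]
    rw [h4]
    exact (eq_neg_of_add_eq_zero_left h5).symm
  obtain ⟨S, hS⟩ : ∃ S, S = algebraMap L' N' (algebraMap K' L' s) := ⟨_, rfl⟩
  obtain ⟨T, hT⟩ : ∃ T, T = algebraMap K'' N' t := ⟨_, rfl⟩
  have hTtr : Transcendental L' T := hT ▸ ht.trans
  have hStr : Transcendental L (algebraMap K' L' s) := hs.trans
  have hT0 : T ≠ 0 := by
    intro h
    apply hTtr
    rw [h]
    exact isAlgebraic_zero
  obtain ⟨A1, hA1⟩ : ∃ A1, A1 = algebraMap L N' a1 := ⟨_, rfl⟩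
  obtain ⟨A2, hA2⟩ : ∃ A2, A2 = algebraMap L N' a2 := ⟨_, rfl⟩
  obtain ⟨B1, hB1⟩ : ∃ B1, B1 = algebraMap L N' b1 := ⟨_, rfl⟩
  obtain ⟨B2, hB2⟩ : ∃ B2, B2 = algebraMap L N' b2 := ⟨_, rfl⟩
  have h2N : (2 : N') = 0 := by
    have := congrArg (algebraMap L N') h2L
    rwa [map_ofNat, map_zero] at this
  have hdN : A1 + A2 ≠ 0 := by
    rw [hA1, hA2, ← map_add]
    exact (map_ne_zero_iff _ (algebraMap L N').injective).2 hd
  let y0 : N' := T * (S + A2) / (A1 + A2)
  let y1 : N' := T * (S + A1) / (A1 + A2)
  have e0 : y0 + y1 = T := by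
    change T * (S + A2) / (A1 + A2) + T * (S + A1) / (A1 + A2) = T
    rw [← add_div, div_eq_iff hdN]
    linear_combination T * S * h2N
  have e1 : y0 * A1 + y1 * A2 = T * S := by
    change T * (S + A2) / (A1 + A2) * A1 + T * (S + A1) / (A1 + A2) * A2 = T * S
    rw [div_mul_eq_mul_div, div_mul_eq_mul_div, ← add_div, div_eq_iff hdN]
    linear_combination T * A1 * A2 * h2N
  have e2 : y0 * B1 + y1 * B2 = T * (B1 + (B1 + B2) / (A1 + A2) * A1 + S * ((B1 + B2) / (A1 + A2))) := by
    change T * (S + A2) / (A1 + A2) * B1 + T * (S + A1) / (A1 + A2) * B2 = _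
    have h5 : B1 + (B1 + B2) / (A1 + A2) * A1 + S * ((B1 + B2) / (A1 + A2)) =
        (B1 * (A1 + A2) + (B1 + B2) * A1 + S * (B1 + B2)) / (A1 + A2) := by
      field_simp
    rw [h5, div_mul_eq_mul_div, div_mul_eq_mul_div, ← add_div, mul_div_assoc', div_left_inj' hdN]
    linear_combination (-T * A1 * B1) * h2N
  have hΛ : algebraMap L' N' (algebraMap L L' (b1 + (b1 + b2) / (a1 + a2) * a1) +
      algebraMap K' L' s * algebraMap L L' ((b1 + b2) / (a1 + a2))) =
      B1 + (B1 + B2) / (A1 + A2) * A1 + S * ((B1 + B2) / (A1 + A2)) := by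
    have hc : ∀ c : L, algebraMap L' N' (algebraMap L L' c) = algebraMap L N' c := fun c => rfl
    rw [map_add, map_mul, hc, hc, ← hS]
    simp only [map_add, map_mul, map_div₀]
    rw [hA1, hA2, hB1, hB2]
  -- generation
  have hg : ∀ F : IntermediateField L N', S ∈ F → T ∈ F → F = ⊤ := by
    intro F hSF hTF
    have hc : ∀ c : L', algebraMap L' N' c ∈ F := by
      intro c
      have hc : c ∈ adjoin L ({algebraMap K' L' s} : Set L') := by rw [hs.genM]; trivial
      induction hc using IntermediateField.adjoin_induction with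
      | mem w hw =>
        rw [Set.mem_singleton_iff] at hw
        rw [hw, ← hS]
        exact hSF
      | algebraMap a => exact F.algebraMap_mem a
      | add a b _ _ ha hb => rw [map_add]; exact add_mem ha hb
      | inv a _ ha => rw [map_inv₀]; exact inv_mem ha
      | mul a b _ _ ha hb => rw [map_mul]; exact mul_mem ha hb
    rw [eq_top_iff]
    intro z _
    have hz : z ∈ adjoin L' ({algebraMap K'' N' t} : Set N') := by rw [ht.genM]; trivial
    induction hz using IntermediateField.adjoin_induction with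
    | mem w hw =>
      rw [Set.mem_singleton_iff] at hw
      rw [hw, ← hT]
      exact hTF
    | algebraMap a => exact hc a
    | add a b _ _ ha hb => exact add_mem (ha trivial) (hb trivial)
    | inv a _ ha => exact inv_mem (ha trivial)
    | mul a b _ _ ha hb => exact mul_mem (ha trivial) (hb trivial)
  have gy : adjoin L (Set.range ![y0, y1]) = ⊤ := by
    have m0 : y0 ∈ adjoin L (Set.range ![y0, y1]) := subset_adjoin _ _ ⟨0, rfl⟩
    have m1 : y1 ∈ adjoin L (Set.range ![y0, y1]) := subset_adjoin _ _ ⟨1, rfl⟩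
    have mT : T ∈ adjoin L (Set.range ![y0, y1]) := e0 ▸ add_mem m0 m1
    apply hg _ _ mT
    have : S = (y0 * A1 + y1 * A2) / T := by
      rw [e1]
      field_simp
    rw [this, hA1, hA2]
    exact div_mem (add_mem (mul_mem m0 (IntermediateField.algebraMap_mem _ _))
      (mul_mem m1 (IntermediateField.algebraMap_mem _ _))) mT
  have iu : AlgebraicIndependent L ![T, S] := by
    have j1 : AlgebraicIndependent L (fun _ : Fin 1 => algebraMap K' L' s) :=
      (algebraicIndependent_unique_type_iff).2 hStr
    have j2 : AlgebraicIndependent L' (fun _ : Fin 1 => T) :=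
      (algebraicIndependent_unique_type_iff).2 hTtr
    have j3 := j1.sumElim_comp j2
    have j4 := (algebraicIndependent_equiv' (R := L) (finSumFinEquiv (m := 1) (n := 1)).symm
      (f := Sum.elim (fun _ : Fin 1 => T) (algebraMap L' N' ∘ fun _ : Fin 1 => algebraMap K' L' s))
      (g := ![T, S]) (by
        funext i
        fin_cases i
        · rfl
        · exact hS.symm)).2 j3
    exact j4
  have gu : adjoin L (Set.range ![T, S]) = ⊤ :=
    hg _ (subset_adjoin _ _ ⟨1, rfl⟩) (subset_adjoin _ _ ⟨0, rfl⟩)
  have iy : AlgebraicIndependent L ![y0, y1] := by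
    rw [fin_iff_ind ![T, S] ![y0, y1] iu (by rw [gu, IntermediateField.finrank_top]; exact one_ne_zero),
      gy, IntermediateField.finrank_top]
    exact one_ne_zero
  have gx : adjoin L (Set.range ![al, be]) = ⊤ := by
    rw [← hgen]
    congr 1
    ext z
    simp [eq_comm, or_comm]
  obtain ⟨e, he⟩ := V9_iso ![al, be] ![y0, y1] hind iy gx gy
  have he0 : e y0 = al := he 0
  have he1 : e y1 = be := he 1
  have heL : ∀ c : L, e (algebraMap L N' c) = algebraMap L N c := fun c => e.commutes c
  have f0 : e T = al + be := by rw [← e0, map_add, he0, he1]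
  have f1 : e (T * S) = al * algebraMap L N a1 + be * algebraMap L N a2 := by
    rw [← e1, map_add, map_mul, map_mul, he0, he1, hA1, hA2, heL, heL]
  obtain ⟨Λ, hΛ0⟩ : ∃ Λ, Λ = B1 + (B1 + B2) / (A1 + A2) * A1 + S * ((B1 + B2) / (A1 + A2)) := ⟨_, rfl⟩
  rw [← hΛ0] at hΛ e2
  have f2 : e (T * Λ) = al * algebraMap L N b1 + be * algebraMap L N b2 := by
    rw [← e2, map_add, map_mul, map_mul, he0, he1, hB1, hB2, heL, heL]
  rw [dg, hΛ]
  have hu0 : al + be ≠ 0 := by
    rw [← f0]
    exact (map_ne_zero_iff e e.injective).2 hT0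
  symm
  obtain ⟨F, hF⟩ : ∃ F, F = adjoin K ({al + be, al * algebraMap L N a1 + be * algebraMap L N a2,
      al * algebraMap L N b1 + be * algebraMap L N b2} : Set N) := ⟨_, rfl⟩
  rw [← hF]
  have hKK : ∀ c : K, algebraMap K'' N' (algebraMap K' K'' (algebraMap K K' c)) =
      algebraMap L N' (algebraMap K L c) := by
    intro c
    rw [← IsScalarTower.algebraMap_apply K' K'' N', IsScalarTower.algebraMap_apply K' L' N',
      ← IsScalarTower.algebraMap_apply K K' L', ← IsScalarTower.algebraMap_apply K L N']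
    rfl
  have m0 : al + be ∈ F := hF ▸ subset_adjoin _ _ (by simp)
  have m1 : al * algebraMap L N a1 + be * algebraMap L N a2 ∈ F := hF ▸ subset_adjoin _ _ (by simp)
  have m2 : al * algebraMap L N b1 + be * algebraMap L N b2 ∈ F := hF ▸ subset_adjoin _ _ (by simp)
  have mT : e T ∈ F := f0 ▸ m0
  have heT : e T ≠ 0 := f0 ▸ hu0
  have mS : e S ∈ F := by
    have : e S = e (T * S) / e T := by
      rw [map_mul, mul_div_cancel_left₀ _ heT]
    rw [this, f1]
    exact div_mem m1 mT
  have mΛ : e Λ ∈ F := by
    have : e Λ = e (T * Λ) / e T := by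
      rw [map_mul, mul_div_cancel_left₀ _ heT]
    rw [this, f2]
    exact div_mem m2 mT
  refine V9_finrank_congr _ _ e.toRingEquiv fun x => ⟨fun hx => ?_, fun hx => ?_⟩
  · change e x ∈ F
    have hc' : ∀ c : K', e (algebraMap K'' N' (algebraMap K' K'' c)) ∈ F := by
      intro c
      have hc : c ∈ adjoin K ({s} : Set K') := by rw [hs.genk]; trivial
      induction hc using IntermediateField.adjoin_induction with
      | mem w hw =>
        rw [Set.mem_singleton_iff] at hw
        rw [hw, ← IsScalarTower.algebraMap_apply K' K'' N', IsScalarTower.algebraMap_apply K' L' N',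
          ← hS]
        exact mS
      | algebraMap a =>
        rw [hKK, heL, ← IsScalarTower.algebraMap_apply K L N]
        exact F.algebraMap_mem a
      | add a b _ _ ha hb => rw [map_add, map_add, map_add]; exact add_mem ha hb
      | inv a _ ha => rw [map_inv₀, map_inv₀, map_inv₀]; exact inv_mem ha
      | mul a b _ _ ha hb => rw [map_mul, map_mul, map_mul]; exact mul_mem ha hb
    have hc : ∀ c : K'', e (algebraMap K'' N' c) ∈ F := by
      intro c
      have hc : c ∈ adjoin K' ({t} : Set K'') := by rw [ht.genk]; trivial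
      induction hc using IntermediateField.adjoin_induction with
      | mem w hw =>
        rw [Set.mem_singleton_iff] at hw
        rw [hw, ← hT]
        exact mT
      | algebraMap a => exact hc' a
      | add a b _ _ ha hb => rw [map_add, map_add]; exact add_mem ha hb
      | inv a _ ha => rw [map_inv₀, map_inv₀]; exact inv_mem ha
      | mul a b _ _ ha hb => rw [map_mul, map_mul]; exact mul_mem ha hb
    induction hx using IntermediateField.adjoin_induction with
    | mem w hw =>
      rw [Set.mem_singleton_iff] at hw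
      rw [hw]
      exact mΛ
    | algebraMap a => exact hc a
    | add a b _ _ ha hb => rw [map_add]; exact add_mem ha hb
    | inv a _ ha => rw [map_inv₀]; exact inv_mem ha
    | mul a b _ _ ha hb => rw [map_mul]; exact mul_mem ha hb
  · have hx' : e x ∈ F := hx
    rw [hF] at hx'
    obtain ⟨G, hG⟩ : ∃ G, G = adjoin K'' ({Λ} : Set N') := ⟨_, rfl⟩
    rw [← hG]
    have gT : T ∈ G := by
      rw [hT]
      exact G.algebraMap_mem _
    have gS : S ∈ G := by
      rw [hS, ← IsScalarTower.algebraMap_apply K' L' N', IsScalarTower.algebraMap_apply K' K'' N']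
      exact G.algebraMap_mem _
    have gΛ : Λ ∈ G := hG ▸ mem_adjoin_simple_self _ _
    have key : ∀ z ∈ adjoin K ({al + be, al * algebraMap L N a1 + be * algebraMap L N a2,
        al * algebraMap L N b1 + be * algebraMap L N b2} : Set N), e.symm z ∈ G := by
      intro z hz
      induction hz using IntermediateField.adjoin_induction with
      | mem w hw =>
        rcases hw with hw | hw | hw
        · rw [hw, ← f0, e.symm_apply_apply]
          exact gT
        · rw [hw, ← f1, e.symm_apply_apply]
          exact mul_mem gT gS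
        · rw [Set.mem_singleton_iff] at hw
          rw [hw, ← f2, e.symm_apply_apply]
          exact mul_mem gT gΛ
      | algebraMap a =>
        rw [IsScalarTower.algebraMap_apply K L N, ← heL, e.symm_apply_apply, ← hKK]
        exact G.algebraMap_mem _
      | add a b _ _ ha hb => rw [map_add]; exact add_mem ha hb
      | inv a _ ha => rw [map_inv₀]; exact inv_mem ha
      | mul a b _ _ ha hb => rw [map_mul]; exact mul_mem ha hb
    have := key _ hx'
    rwa [e.symm_apply_apply] at this

end MP2619.W
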