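import Pool.Agent.Lib.MP_2619d0_ag.W.V1a
import Pool.Agent.Lib.MP_2619d0_ag.W.V1b
import Pool.Agent.Lib.MP_2619d0_ag.W.V2
import Pool.Agent.Lib.MP_2619d0_ag.W.V4
import Pool.Agent.Lib.MP_2619d0_ag.W.V5

/-!
Row V9a: the block lemma, reduced form.
-/

set_option autoImplicit false

namespace MP2619.W

universe v u

open IntermediateField MP2619.R

variable {K : Type v} {L : Type u} [Field K] [Field L] [Algebra K L]

private theorem V9a_shift {K : Type v} {L : Type u} [Field K] [Field L] [Algebra K L]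
    (hL : ¬ Algebra.IsAlgebraic K L) (s : K) (a : L) : dg K (algebraMap K L s + a) = dg K a := by
  have h := dg_poly hL (Polynomial.X + Polynomial.C s)
    (by rw [Polynomial.natDegree_X_add_C]; exact one_pos) a
  rw [Polynomial.natDegree_X_add_C, one_mul] at h
  rw [← h]
  congr 1
  simp [add_comm]

/-- `L' = L(s)`, `Λ = λ + s ν`: `2 [L' : K'(Λ)] = dg K' (Λ² + Λ + s³)` (`dg_poly` with
`P = X² + X + C (s³)`) `= dg K' (∏ (s + a_i))` (`line_prod`) `= ∑ dg K (a_i)` (`≥` `dg_prod_ge`, `≤` `dg_mul_le`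
twice, `dg_base`, `dg K' (s + a) = dg K' a`) `= 2 ∑ dp K a_i b_i` (`dg_eq_two_dp`). -/
theorem block_aux (h2 : (2 : K) = 0) (hL : ¬ Algebra.IsAlgebraic K L) {K' : Type v} {L' : Type u}
    [Field K'] [Field L'] [Algebra K K'] [Algebra K L'] [Algebra L L'] [Algebra K' L']
    [IsScalarTower K L L'] [IsScalarTower K K' L'] {s : K'} (h : RF K L K' L' s)
    {a1 b1 a2 b2 : L} (h1 : b1 ^ 2 + b1 = a1 ^ 3) (h3 : b2 ^ 2 + b2 = a2 ^ 3) (hne : a1 ≠ a2) :
    dg K' (algebraMap L L' (b1 + (b1 + b2) / (a1 + a2) * a1) +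
      algebraMap K' L' s * algebraMap L L' ((b1 + b2) / (a1 + a2))) =
      dp K a1 b1 + dp K a2 b2 + dp K (ta a1 b1 a2 b2) (tb a1 b1 a2 b2) := by
  have hL' : ¬ Algebra.IsAlgebraic K' L' := not_alg_base h hL
  have h2L : (2 : L) = 0 := by
    rw [← map_ofNat (algebraMap K L) 2, h2, map_zero]
  have h2L' : (2 : L') = 0 := by
    rw [← map_ofNat (algebraMap L L') 2, h2L, map_zero]
  set φ := algebraMap L L' with hφ
  have e1 : φ b1 ^ 2 + φ b1 = φ a1 ^ 3 := by
    rw [← map_pow, ← map_add, h1, map_pow]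
  have e3 : φ b2 ^ 2 + φ b2 = φ a2 ^ 3 := by
    rw [← map_pow, ← map_add, h3, map_pow]
  have ene : φ a1 ≠ φ a2 := fun hh => hne (φ.injective hh)
  have hline := line_prod h2L' e1 e3 ene (algebraMap K' L' s)
  have hta : ta (φ a1) (φ b1) (φ a2) (φ b2) = φ (ta a1 b1 a2 b2) := by
    unfold ta
    simp only [map_add, map_pow, map_div₀]
  rw [hta] at hline
  set Λ := φ (b1 + (b1 + b2) / (a1 + a2) * a1) +
      algebraMap K' L' s * φ ((b1 + b2) / (a1 + a2)) with hΛ
  have hΛ' : Λ = φ b1 + (φ b1 + φ b2) / (φ a1 + φ a2) * φ a1 +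
      algebraMap K' L' s * ((φ b1 + φ b2) / (φ a1 + φ a2)) := by
    rw [hΛ]
    simp only [map_add, map_mul, map_div₀]
  rw [← hΛ'] at hline
  -- the polynomial
  have hPdeg : (Polynomial.X ^ 2 + Polynomial.X + Polynomial.C (s ^ 3) :
      Polynomial K').natDegree = 2 := by
    compute_degree!
  have hpoly := dg_poly hL' (Polynomial.X ^ 2 + Polynomial.X + Polynomial.C (s ^ 3))
    (by rw [hPdeg]; norm_num) Λ
  rw [hPdeg] at hpoly
  have hval : Polynomial.aeval Λ (Polynomial.X ^ 2 + Polynomial.X + Polynomial.C (s ^ 3) :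
      Polynomial K') = (algebraMap K' L' s + φ a1) * (algebraMap K' L' s + φ a2) *
        (algebraMap K' L' s + φ (ta a1 b1 a2 b2)) := by
    rw [← hline]
    simp
  rw [hval] at hpoly
  -- lower bound
  have hlow := dg_prod_ge h hL (![a1, a2, ta a1 b1 a2 b2] : Fin 3 → L)
  rw [Fin.sum_univ_three, Fin.prod_univ_three] at hlow
  simp only [Matrix.cons_val_zero, Matrix.cons_val_one, Matrix.cons_val_two,
    Matrix.head_cons, Matrix.tail_cons] at hlow
  -- upper bound
  have hup : dg K' ((algebraMap K' L' s + φ a1) * (algebraMap K' L' s + φ a2) *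
        (algebraMap K' L' s + φ (ta a1 b1 a2 b2))) ≤
      dg K a1 + dg K a2 + dg K (ta a1 b1 a2 b2) := by
    refine (dg_mul_le hL' _ _).trans ?_
    have hh := dg_mul_le hL' (algebraMap K' L' s + φ a1) (algebraMap K' L' s + φ a2)
    rw [V9a_shift hL', V9a_shift hL', dg_base h, dg_base h] at hh
    rw [V9a_shift hL', dg_base h]
    exact Nat.add_le_add_right hh _
  have hd1 := dg_eq_two_dp hL h1
  have hd2 := dg_eq_two_dp hL h3
  have hd3 := dg_eq_two_dp hL (third_curve h2L h1 h3 hne)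
  have hlow' : dg K a1 + dg K a2 + dg K (ta a1 b1 a2 b2) ≤
      dg K' ((algebraMap K' L' s + φ a1) * (algebraMap K' L' s + φ a2) *
        (algebraMap K' L' s + φ (ta a1 b1 a2 b2))) := hlow
  omega
end MP2619.W
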